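import Pool.Agent.J6H18.GD.KPoint

/-!
Profiles under conformal maps; the two-point function of the disc.
-/

set_option autoImplicit false

namespace Pool.Agent.J6H18.GD

open TH976 (Cmp E EH E_eq_EH E_pos EH_pos gH pull cayi UH Conf)
open Complex Set Metric ComplexConjugate

/-! ### the profiles -/

theorem E_scale {l s b n : ℝ} (hl : 0 < l) (hn : 0 < n) :
    E (l * s) (l * b) (l * n) = l ^ (-(5 / 48 : ℝ)) * E s b n := by
  unfold E
  rw [Real.mul_rpow hl.le hn.le, mul_div_mul_left _ _ hl.ne', mul_div_mul_left _ _ hl.ne']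
  ring

theorem EH_scale {l s n : ℝ} (hl : 0 < l) (hn : 0 < n) :
    EH (l * s) (l * n) = l ^ (-(5 / 48 : ℝ)) * EH s n := by
  unfold EH
  rw [Real.mul_rpow hl.le hn.le, mul_div_mul_left _ _ hl.ne']
  ring

theorem cmp_one {K : ℝ} (hK : 1 ≤ K) : Cmp K 1 1 := (Cmp.refl one_pos).weaken hK

theorem EH_cmp {K s s' n n' : ℝ} (h1 : Cmp K s s') (h2 : Cmp K n n') :
    Cmp (K * (K * K)) (EH s n) (EH s' n') := by
  unfold EH
  have hKK : 1 ≤ K * K := Cmp.one_le_mul' h1.hk h1.hk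
  exact (h2.rpow_neg (by norm_num) (by norm_num)).mul
    ((((cmp_one hKK).min' (h1.div h2)).rpow (by norm_num) (by norm_num)))

theorem E_cmp {K s s' b b' n n' : ℝ} (h1 : Cmp K s s') (h2 : Cmp K b b') (h3 : Cmp K n n') :
    Cmp (K * (K * K) * (K * K)) (E s b n) (E s' b' n') := by
  unfold E
  have hKK : 1 ≤ K * K := Cmp.one_le_mul' h1.hk h1.hk
  exact ((h3.rpow_neg (by norm_num) (by norm_num)).mul
    ((((cmp_one hKK).min' (h1.div h3)).rpow (by norm_num) (by norm_num)))).mul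
    ((((cmp_one hKK).min' (h2.div h3)).rpow (by norm_num) (by norm_num)))

/-- one-point covariance -/
theorem E_T1 {s b r : ℝ} (hs : 0 < s) (hsb : s ≤ b) (hr : 0 < r) :
    Cmp 8 (E s b r) (b ^ (5 / 48 : ℝ) * EH (s * b) (r * (b + r))) := by
  have hb : 0 < b := by linarith
  have hb48 : 0 < b ^ (5 / 48 : ℝ) := Real.rpow_pos_of_pos hb _
  have hsb0 : 0 < s * b := by positivity
  rcases le_or_gt r b with h | h
  · have e1 : E s b r = b ^ (5 / 48 : ℝ) * EH (s * b) (r * b) := by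
      rw [E_eq_EH hr h, mul_comm s b, mul_comm r b, EH_scale hb hr, ← mul_assoc, ← Real.rpow_add hb,
        add_neg_cancel, Real.rpow_zero, one_mul]
    have c1 : Cmp 2 (r * b) (r * (b + r)) := Cmp.of_le (by positivity) (by nlinarith) (by norm_num)
      (by nlinarith)
    rw [e1]
    exact ((Cmp.refl hb48).mul (EH_cmp ((Cmp.refl hsb0).weaken (by norm_num)) c1)).weaken
      (by norm_num)
  · have e1 : E s b r = b ^ (5 / 48 : ℝ) * EH (s * b) (r * r) := by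
      have h1 : s * b ≤ r * r := by nlinarith
      have h2 : 0 < r * r := by positivity
      unfold E EH
      rw [min_eq_right ((div_le_one hr).mpr (hsb.trans h.le)),
        min_eq_right ((div_le_one hr).mpr h.le), min_eq_right ((div_le_one h2).mpr h1),
        Real.div_rpow hs.le hr.le, Real.div_rpow hb.le hr.le, Real.div_rpow hsb0.le h2.le,
        Real.mul_rpow hs.le hb.le, Real.mul_rpow hr.le hr.le, Real.mul_rpow hr.le hr.le]
      simp only [Real.rpow_def_of_pos hr, Real.rpow_def_of_pos hs, Real.rpow_def_of_pos hb]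
      simp only [← Real.exp_add, ← Real.exp_sub]
      congr 1
      ring
    have c1 : Cmp 2 (r * r) (r * (b + r)) := Cmp.of_le (by positivity) (by nlinarith) (by norm_num)
      (by nlinarith)
    rw [e1]
    exact ((Cmp.refl hb48).mul (EH_cmp ((Cmp.refl hsb0).weaken (by norm_num)) c1)).weaken
      (by norm_num)

/-- product of two one-point profiles in the half-plane or in the disc -/
theorem EH_two {s t n : ℝ} (hs : 0 < s) (ht : 0 < t) (hn : 0 < n) (hst : |s - t| ≤ n) :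
    Cmp 3 (EH s n * EH t n) (n ^ (-(5 / 24 : ℝ)) * (1 + n ^ 2 / (s * t)) ^ (-(11 / 48) : ℝ)) := by
  have key := TH976.min_cmp hs ht hn hst le_rfl (by nlinarith [sq_nonneg n])
  unfold EH
  have m1 : 0 < min 1 (s / n) := lt_min one_pos (by positivity)
  have m2 : 0 < min 1 (t / n) := lt_min one_pos (by positivity)
  have e3 : n ^ (-(5 / 48 : ℝ)) * (min 1 (s / n)) ^ (11 / 48 : ℝ) *
      (n ^ (-(5 / 48 : ℝ)) * (min 1 (t / n)) ^ (11 / 48 : ℝ)) =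
      n ^ (-(5 / 24 : ℝ)) * (min 1 (s / n) * min 1 (t / n)) ^ (11 / 48 : ℝ) := by
    rw [Real.mul_rpow m1.le m2.le, show (-(5 / 24 : ℝ)) = -(5 / 48) + -(5 / 48) by norm_num,
      Real.rpow_add hn]
    ring
  have e4 : (1 + n ^ 2 / (s * t)) ^ (-(11 / 48) : ℝ) = ((1 + n ^ 2 / (s * t))⁻¹) ^ (11 / 48 : ℝ) := by
    rw [Real.rpow_neg (by positivity), Real.inv_rpow (by positivity)]
  rw [e3, e4]
  have hn24 : 0 < n ^ (-(5 / 24 : ℝ)) := Real.rpow_pos_of_pos hn _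
  exact ((Cmp.refl hn24).mul (key.rpow (a := 11 / 48) (by norm_num) (by norm_num))).weaken
    (by norm_num)

/-! ### the disc -/

/-- the two-point function of the disc -/
noncomputable def gDs (ζ ω : ℂ) : ℝ :=
  ‖ζ - ω‖ ^ (-(5 / 24) : ℝ) *
    (1 + 4 * ‖ζ - ω‖ ^ 2 / ((1 - ‖ζ‖ ^ 2) * (1 - ‖ω‖ ^ 2))) ^ (-(11 / 48) : ℝ)

theorem conf_cayi : Conf (ball (0 : ℂ) 1) UH (cayi I) := by
  have hI : I ∈ UH := by show 0 < I.im; simp
  refine ⟨?_, ?_, TH976.cay I, ?_, ?_, ?_, ?_⟩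
  · intro ζ hζ
    have h1 := TH976.cayi_den (ζ := ζ) (by simpa using hζ)
    have : DifferentiableAt ℂ (cayi I) ζ := by
      unfold cayi
      exact ((differentiableAt_const _).sub ((differentiableAt_const _).mul
        differentiableAt_id)).div ((differentiableAt_const _).sub differentiableAt_id) h1
    exact this.differentiableWithinAt
  · intro ζ hζ
    exact TH976.cayi_mem hI (by simpa using hζ)
  · intro z hz
    have h1 := TH976.cay_den hI hz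
    have : DifferentiableAt ℂ (TH976.cay I) z := by
      unfold TH976.cay
      exact (differentiableAt_id.sub (differentiableAt_const _)).div
        (differentiableAt_id.sub (differentiableAt_const _)) h1
    exact this.differentiableWithinAt
  · intro z hz
    rw [mem_ball_zero_iff]
    exact TH976.cay_lt hI hz
  · intro ζ hζ
    have h1 := TH976.cayi_den (ζ := ζ) (by simpa using hζ)
    unfold TH976.cay cayi
    rw [Complex.conj_I]
    field_simp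
    ring_nf
  · intro z hz
    exact TH976.cayi_cay hI hz

theorem cayi_deriv {ζ : ℂ} (h : ‖ζ‖ < 1) : ‖deriv (cayi I) ζ‖ = 2 / ‖1 - ζ‖ ^ 2 := by
  have h1 := TH976.cayi_den h
  have h2 := ((hasDerivAt_id ζ).const_mul (conj I)).const_sub I
  have h3 := (hasDerivAt_id ζ).const_sub 1
  have h4 := h2.div h3 h1
  have h5 : deriv (cayi I) ζ = 2 * I / (1 - ζ) ^ 2 := by
    refine (h4.deriv).trans ?_
    simp only [id_eq, Complex.conj_I]
    congr 1
    ring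
  rw [h5, norm_div, norm_pow, norm_mul, Complex.norm_I, mul_one, Complex.norm_ofNat]

theorem cayi_im {ζ : ℂ} (h : ‖ζ‖ < 1) : (cayi I ζ).im = (1 - ‖ζ‖ ^ 2) / ‖1 - ζ‖ ^ 2 := by
  have h1 := TH976.cayi_den h
  have h2 : Complex.normSq (1 - ζ) ≠ 0 := by
    rw [Ne, Complex.normSq_eq_zero]
    exact h1
  unfold cayi
  rw [Complex.div_im, ← Complex.normSq_eq_norm_sq (1 - ζ), ← sub_div]
  congr 1
  rw [← Complex.normSq_eq_norm_sq, Complex.normSq_apply]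
  simp only [Complex.conj_I, Complex.sub_re, Complex.sub_im, Complex.mul_re, Complex.mul_im,
    Complex.neg_re, Complex.neg_im, Complex.I_re, Complex.I_im, Complex.one_re, Complex.one_im]
  ring

theorem cayi_sub {ζ ω : ℂ} (h : ‖ζ‖ < 1) (h' : ‖ω‖ < 1) :
    ‖cayi I ζ - cayi I ω‖ = 2 * ‖ζ - ω‖ / (‖1 - ζ‖ * ‖1 - ω‖) := by
  have h1 := TH976.cayi_den h
  have h2 := TH976.cayi_den h'
  have e : cayi I ζ - cayi I ω = I * (2 * (ζ - ω)) / ((1 - ζ) * (1 - ω)) := by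
    unfold cayi
    rw [Complex.conj_I, div_sub_div _ _ h1 h2]
    congr 1
    ring
  rw [e, norm_div, norm_mul, norm_mul, norm_mul, Complex.norm_I, one_mul, Complex.norm_ofNat]

theorem pull_cayi {ζ ω : ℂ} (h : ‖ζ‖ < 1) (h' : ‖ω‖ < 1) (hne : ζ ≠ ω) :
    pull (cayi I) ζ ω = gDs ζ ω := by
  have h1 : 0 < ‖1 - ζ‖ := norm_pos_iff.mpr (TH976.cayi_den h)
  have h2 : 0 < ‖1 - ω‖ := norm_pos_iff.mpr (TH976.cayi_den h')
  have h3 : 0 < ‖ζ - ω‖ := norm_pos_iff.mpr (sub_ne_zero.mpr hne)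
  have h4 : 0 < 1 - ‖ζ‖ ^ 2 := by nlinarith [norm_nonneg ζ]
  have h5 : 0 < 1 - ‖ω‖ ^ 2 := by nlinarith [norm_nonneg ω]
  unfold pull gH gDs
  rw [cayi_deriv h, cayi_deriv h', cayi_sub h h', cayi_im h, cayi_im h']
  generalize ‖1 - ζ‖ = p at *
  generalize ‖1 - ω‖ = q at *
  generalize ‖ζ - ω‖ = d at *
  generalize 1 - ‖ζ‖ ^ 2 = A at *
  generalize 1 - ‖ω‖ ^ 2 = B at *
  have e1 : (2 * d / (p * q)) ^ 2 / (A / p ^ 2 * (B / q ^ 2)) = 4 * d ^ 2 / (A * B) := by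
    field_simp
    ring
  rw [e1, ← mul_assoc]
  congr 1
  rw [Real.div_rpow (by norm_num) (by positivity), Real.div_rpow (by norm_num) (by positivity),
    Real.div_rpow (by positivity) (by positivity), Real.mul_rpow (by norm_num) h3.le,
    Real.mul_rpow h1.le h2.le, ← Real.rpow_natCast, ← Real.rpow_natCast, ← Real.rpow_mul h1.le,
    ← Real.rpow_mul h2.le]
  simp only [Real.rpow_def_of_pos h1, Real.rpow_def_of_pos h2, Real.rpow_def_of_pos h3,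
    Real.rpow_def_of_pos (show (0 : ℝ) < 2 by norm_num)]
  simp only [← Real.exp_add, ← Real.exp_sub]
  congr 1
  push_cast
  ring

theorem gDs_cmp {ζ ω : ℂ} (h : ‖ζ‖ < 1) (h' : ‖ω‖ < 1) (hne : ζ ≠ ω) :
    Cmp 12 (EH (1 - ‖ζ‖) ‖ζ - ω‖ * EH (1 - ‖ω‖) ‖ζ - ω‖) (gDs ζ ω) := by
  have h3 : 0 < ‖ζ - ω‖ := norm_pos_iff.mpr (sub_ne_zero.mpr hne)
  have h4 : 0 < 1 - ‖ζ‖ := by linarith
  have h5 : 0 < 1 - ‖ω‖ := by linarith
  have h6 : |(1 - ‖ζ‖) - (1 - ‖ω‖)| ≤ ‖ζ - ω‖ := by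
    have e : (1 - ‖ζ‖) - (1 - ‖ω‖) = ‖ω‖ - ‖ζ‖ := by ring
    rw [e, abs_sub_comm]
    exact abs_norm_sub_norm_le ζ ω
  refine ((EH_two h4 h5 h3 h6).trans (l := 4) ?_).weaken (by norm_num)
  unfold gDs
  have hd : 0 < ‖ζ - ω‖ ^ (-(5 / 24) : ℝ) := Real.rpow_pos_of_pos h3 _
  have n1 := norm_nonneg ζ
  have n2 := norm_nonneg ω
  have h7 : 0 < 1 - ‖ζ‖ ^ 2 := by nlinarith
  have h8 : 0 < 1 - ‖ω‖ ^ 2 := by nlinarith
  have c1 : Cmp 2 (1 - ‖ζ‖) (1 - ‖ζ‖ ^ 2) := Cmp.of_le h4 (by nlinarith) (by norm_num) (by nlinarith)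
  have c2 : Cmp 2 (1 - ‖ω‖) (1 - ‖ω‖ ^ 2) := Cmp.of_le h5 (by nlinarith) (by norm_num) (by nlinarith)
  have h9 : (1 - ‖ζ‖) * (1 - ‖ω‖) ≤ (1 - ‖ζ‖ ^ 2) * (1 - ‖ω‖ ^ 2) :=
    mul_le_mul (by nlinarith) (by nlinarith) h5.le h7.le
  have h10 : (1 - ‖ζ‖ ^ 2) * (1 - ‖ω‖ ^ 2) ≤ 4 * ((1 - ‖ζ‖) * (1 - ‖ω‖)) := by
    have := mul_le_mul c1.r c2.r h8.le (by positivity)
    linarith
  have c3 : Cmp 4 (1 + ‖ζ - ω‖ ^ 2 / ((1 - ‖ζ‖) * (1 - ‖ω‖)))
      (1 + 4 * ‖ζ - ω‖ ^ 2 / ((1 - ‖ζ‖ ^ 2) * (1 - ‖ω‖ ^ 2))) := by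
    have p1 : 0 < (1 - ‖ζ‖) * (1 - ‖ω‖) := mul_pos h4 h5
    have p2 : 0 < (1 - ‖ζ‖ ^ 2) * (1 - ‖ω‖ ^ 2) := mul_pos h7 h8
    have p3 : 0 < ‖ζ - ω‖ ^ 2 := by positivity
    have q1 : ‖ζ - ω‖ ^ 2 / ((1 - ‖ζ‖) * (1 - ‖ω‖)) ≤
        4 * ‖ζ - ω‖ ^ 2 / ((1 - ‖ζ‖ ^ 2) * (1 - ‖ω‖ ^ 2)) := by
      rw [div_le_div_iff₀ p1 p2]
      nlinarith
    have q2 : 4 * ‖ζ - ω‖ ^ 2 / ((1 - ‖ζ‖ ^ 2) * (1 - ‖ω‖ ^ 2)) ≤
        4 * (‖ζ - ω‖ ^ 2 / ((1 - ‖ζ‖) * (1 - ‖ω‖))) := by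
      rw [← mul_div_assoc, div_le_div_iff₀ p2 p1]
      nlinarith
    exact Cmp.of_le (by positivity) (by linarith) (by norm_num) (by linarith)
  exact ((Cmp.refl hd).mul (c3.rpow_neg (a := 11 / 48) (by norm_num) (by norm_num))).weaken
    (by norm_num)

end Pool.Agent.J6H18.GD
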