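import Pool.Agent.TH976.KPt
import Pool.Agent.Y989.SD.T_CHN

/-!
Critical bond percolation in a finite set of vertices of the square lattice: arms, crossings of
annuli, blocking clusters, and the decoupling inequalities.
-/

set_option autoImplicit false

namespace Pool.Agent.J6H18.GD

open Finset H974 Pool.Agent.H160R2.CV H362P
open Pool.Agent.H160R2.CV.Quad
open TH976 (sd sd_self sd_comm sd_tri sd_pos Ar Ar_incr Cmp fkg incr_and)
open H973 (ES mem_ES EV reach_mem mem_RE_ends mem_RE_of_ends)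
open Pool.Agent.Y989.SD (Blk)

/-! ### balls -/

/-- the edges of `T` in the ball of radius `m` around `c` -/
noncomputable def bT (T : Finset Vtx) (c : Vtx) (m : ℕ) : Finset Edg :=
  ES (T.filter fun v => sd v c ≤ m)

theorem mem_bT {T : Finset Vtx} {c : Vtx} {m : ℕ} {e : Edg} : e ∈ bT T c m ↔
    (src e ∈ T ∧ sd (src e) c ≤ m) ∧ (tgt e ∈ T ∧ sd (tgt e) c ≤ m) := by
  unfold bT
  rw [mem_ES, Finset.mem_filter, Finset.mem_filter]

theorem bT_sub (T : Finset Vtx) (c : Vtx) (m : ℕ) : bT T c m ⊆ ES T := by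
  intro e he
  rw [mem_bT] at he
  rw [mem_ES]
  exact ⟨he.1.1, he.2.1⟩

theorem bT_mono' {T : Finset Vtx} {c c' : Vtx} {m m' : ℕ} (h : sd c c' + m ≤ m') :
    bT T c m ⊆ bT T c' m' := by
  intro e he
  rw [mem_bT] at he ⊢
  have t1 := sd_tri (src e) c c'
  have t2 := sd_tri (tgt e) c c'
  exact ⟨⟨he.1.1, by omega⟩, he.2.1, by omega⟩

theorem bT_mono {T : Finset Vtx} {c : Vtx} {m m' : ℕ} (h : m ≤ m') : bT T c m ⊆ bT T c m' :=
  bT_mono' (by rw [sd_self]; omega)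

theorem bT_disj {T : Finset Vtx} {x y : Vtx} {m m' : ℕ} (h : m + m' + 1 ≤ sd x y) :
    Disjoint (bT T x m) (bT T y m') := by
  rw [Finset.disjoint_left]
  intro e h1 h2
  rw [mem_bT] at h1 h2
  have t1 := sd_tri x (src e) y
  have t2 := sd_comm x (src e)
  omega

theorem sd_step (e : Edg) (c : Vtx) :
    sd (src e) c ≤ sd (tgt e) c + 1 ∧ sd (tgt e) c ≤ sd (src e) c + 1 := by
  obtain ⟨x, y, _ | _⟩ := e
  · rw [src_mk, tgt_false]
    unfold sd
    simp only
    omega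
  · rw [src_mk, tgt_true]
    unfold sd
    simp only
    omega

/-- exit from a ball -/
theorem exitT {T : Finset Vtx} {F : Finset Edg} (hF : F ⊆ ES T) {c u v : Vtx} {n : ℕ} (huT : u ∈ T)
    (hu : sd u c ≤ n) (hv : n ≤ sd v c) (h : Reach (↑F) u v) :
    ∃ w ∈ T, sd w c = n ∧ Reach (↑(F ∩ bT T c n)) u w := by
  unfold sd at hu hv
  obtain ⟨w, h1, h2, h3⟩ := first_exit (a := c.1 - n) (b := c.1 + n) (c := c.2 - n)
    (d := c.2 + n) (by unfold inR; omega) h (by omega)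
  have hsub : (↑F : Set Edg) ∩ ↑(RE (c.1 - n) (c.1 + n) (c.2 - n) (c.2 + n)) ⊆
      ↑(F ∩ bT T c n) := by
    rintro e ⟨he1, he2⟩
    rw [Finset.mem_coe] at he1 he2
    rw [Finset.mem_coe, Finset.mem_inter, mem_bT]
    have h4 := mem_ES.mp (hF he1)
    obtain ⟨h5, h6⟩ := mem_RE_ends he2
    unfold inR at h5 h6
    unfold sd
    exact ⟨he1, ⟨h4.1, by omega⟩, h4.2, by omega⟩
  have h7 := h3.mono hsub
  refine ⟨w, ?_, ?_, h7⟩
  · exact reach_mem (F := (↑F : Set Edg)) (fun e he => hF (Finset.mem_coe.mp he)) huT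
      (h3.mono Set.inter_subset_left)
  · unfold inR at h1
    unfold sd
    omega

/-! ### arms and crossings -/

/-- a crossing of the annulus of radii `r`, `n` around `c` -/
def Cx (T : Finset Vtx) (c : Vtx) (r n : ℕ) (F : Finset Edg) : Prop :=
  ∃ u ∈ T, ∃ v : Vtx, sd u c ≤ r ∧ n ≤ sd v c ∧ Reach (↑F) u v

theorem Cx.mono {T : Finset Vtx} {c : Vtx} {r n : ℕ} {F G : Finset Edg} (h : F ⊆ G)
    (hF : Cx T c r n F) : Cx T c r n G := by
  obtain ⟨u, h0, v, h1, h2, h3⟩ := hF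
  exact ⟨u, h0, v, h1, h2, h3.mono (by exact_mod_cast h)⟩

theorem Cx_incr (S : Finset Edg) (T : Finset Vtx) (c : Vtx) (r n : ℕ) : IncrE S (Cx T c r n) :=
  fun _ _ h _ hF => hF.mono h

theorem Ar_loc {T : Finset Vtx} {F : Finset Edg} (hF : F ⊆ ES T) {c : Vtx} (hc : c ∈ T) {n m : ℕ}
    (hm : n ≤ m) (h : Ar c m F) : Ar c n (F ∩ bT T c n) := by
  obtain ⟨v, h1, h2⟩ := h
  obtain ⟨w, -, h3, h4⟩ := exitT hF hc (by rw [sd_self]; omega) (hm.trans h1) h2
  exact ⟨w, h3.ge, h4⟩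

theorem Cx_loc {T : Finset Vtx} {F : Finset Edg} (hF : F ⊆ ES T) {c : Vtx} {r n : ℕ}
    (hrn : r ≤ n) (h : Cx T c r n F) : Cx T c r n (F ∩ (bT T c n \ bT T c r)) := by
  obtain ⟨u, h0, v, h1, h2, h3⟩ := h
  obtain ⟨w, hw, h4, h5⟩ := exitT hF h0 (h1.trans hrn) h2 h3
  unfold sd at h1
  obtain ⟨u', h6, h7⟩ := last_exit (a := c.1 - r) (b := c.1 + r) (c := c.2 - r) (d := c.2 + r)
    (x := u) (by unfold inR; omega) h5
  have hsub : (↑(F ∩ bT T c n) : Set Edg) \ ↑(RE (c.1 - r) (c.1 + r) (c.2 - r) (c.2 + r)) ⊆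
      ↑(F ∩ (bT T c n \ bT T c r)) := by
    rintro e ⟨he1, he2⟩
    rw [Finset.mem_coe, Finset.mem_inter] at he1
    rw [Finset.mem_coe, Finset.mem_inter, Finset.mem_sdiff]
    refine ⟨he1.1, he1.2, fun h8 => he2 ?_⟩
    rw [mem_bT] at h8
    unfold sd at h8
    rw [Finset.mem_coe]
    apply mem_RE_of_ends <;> unfold inR <;> omega
  have h8 := h7.mono hsub
  have hu' : u' ∈ T := reach_mem (F := (↑(F ∩ (bT T c n \ bT T c r)) : Set Edg)) (fun e he =>
    hF (Finset.mem_inter.mp (Finset.mem_coe.mp he)).1) hw h8.symm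
  refine ⟨u', hu', w, ?_, h4.ge, h8⟩
  unfold inR at h6
  unfold sd
  omega

/-- the one-arm probability of `c` in `T` -/
noncomputable def aT (T : Finset Vtx) (c : Vtx) (n : ℕ) : ℝ := Pr P (ES T) (Ar c n)

/-- the crossing probability of an annulus around `c` in `T` -/
noncomputable def xT (T : Finset Vtx) (c : Vtx) (r n : ℕ) : ℝ := Pr P (ES T) (Cx T c r n)

theorem aT_nonneg (T : Finset Vtx) (c : Vtx) (n : ℕ) : 0 ≤ aT T c n := Pr_nonneg okP _ _
theorem xT_nonneg (T : Finset Vtx) (c : Vtx) (r n : ℕ) : 0 ≤ xT T c r n := Pr_nonneg okP _ _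
theorem aT_le_one (T : Finset Vtx) (c : Vtx) (n : ℕ) : aT T c n ≤ 1 := Pr_le_one okP _ _
theorem xT_le_one (T : Finset Vtx) (c : Vtx) (r n : ℕ) : xT T c r n ≤ 1 := Pr_le_one okP _ _

/-- localized events -/
def ArL (T : Finset Vtx) (c : Vtx) (n : ℕ) (F : Finset Edg) : Prop := Ar c n (F ∩ bT T c n)
def CxL (T : Finset Vtx) (c : Vtx) (r n : ℕ) (F : Finset Edg) : Prop :=
  Cx T c r n (F ∩ (bT T c n \ bT T c r))

theorem ArL_inc (T : Finset Vtx) (c : Vtx) (n : ℕ) : IncA (ArL T c n) :=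
  fun _ _ h hF => Ar.mono (Finset.inter_subset_inter_right h) hF

theorem CxL_inc (T : Finset Vtx) (c : Vtx) (r n : ℕ) : IncA (CxL T c r n) :=
  fun _ _ h hF => Cx.mono (Finset.inter_subset_inter_right h) hF

theorem ArL_loc (T : Finset Vtx) (c : Vtx) (n : ℕ) : LocE (bT T c n) (ArL T c n) := by
  intro F
  unfold ArL
  rw [Finset.inter_assoc, Finset.inter_self]

theorem CxL_loc (T : Finset Vtx) (c : Vtx) (r n : ℕ) :
    LocE (bT T c n \ bT T c r) (CxL T c r n) := by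
  intro F
  unfold CxL
  rw [Finset.inter_assoc, Finset.inter_self]

theorem pr_ArL_le (T : Finset Vtx) (c : Vtx) (n : ℕ) :
    Pr P (bT T c n) (ArL T c n) ≤ aT T c n := by
  have h1 : Pr P (bT T c n) (ArL T c n) = Pr P (bT T c n) (Ar c n) := by
    apply Pr_congr
    intro F hF
    unfold ArL
    rw [Finset.inter_eq_left.mpr hF]
  rw [h1]
  exact Pr_mono_set okP (bT_sub T c n) (Ar_incr _ c n)

theorem pr_CxL_le (T : Finset Vtx) (c : Vtx) (r n : ℕ) :
    Pr P (bT T c n \ bT T c r) (CxL T c r n) ≤ xT T c r n := by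
  have h1 : Pr P (bT T c n \ bT T c r) (CxL T c r n) =
      Pr P (bT T c n \ bT T c r) (Cx T c r n) := by
    apply Pr_congr
    intro F hF
    unfold CxL
    rw [Finset.inter_eq_left.mpr hF]
  rw [h1]
  exact Pr_mono_set okP (Finset.sdiff_subset.trans (bT_sub T c n)) (Cx_incr _ T c r n)

theorem aT_anti {T : Finset Vtx} {c : Vtx} {n m : ℕ} (h : n ≤ m) : aT T c m ≤ aT T c n := by
  apply Pr_mono okP
  rintro F - ⟨v, h1, h2⟩
  exact ⟨v, h.trans h1, h2⟩

theorem xT_anti {T : Finset Vtx} {c : Vtx} {r r' n n' : ℕ} (hr : r ≤ r') (h : n' ≤ n) :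
    xT T c r n ≤ xT T c r' n' := by
  apply Pr_mono okP
  rintro F - ⟨u, h0, v, h1, h2, h3⟩
  exact ⟨u, h0, v, h1.trans hr, h.trans h2, h3⟩

theorem aT_split {T : Finset Vtx} {c : Vtx} (hc : c ∈ T) {r n : ℕ} (h : r ≤ n) :
    aT T c n ≤ aT T c r * xT T c r n := by
  have hd : Disjoint (bT T c r) (bT T c n \ bT T c r) := Finset.disjoint_sdiff
  have h2 := indep2 (ES T) _ _ hd (ArL_inc T c r) (CxL_inc T c r n) (ArL_loc T c r)
    (CxL_loc T c r n)
  refine le_trans (Pr_mono okP ?_) (h2.trans (mul_le_mul (pr_ArL_le T c r) (pr_CxL_le T c r n)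
    (Pr_nonneg okP _ _) (aT_nonneg T c r)))
  intro F hF h1
  refine ⟨Ar_loc hF hc h h1, Cx_loc hF h ?_⟩
  obtain ⟨v, h3, h4⟩ := h1
  exact ⟨c, hc, v, by rw [sd_self]; omega, h3, h4⟩

/-! ### blocking clusters -/

/-- the cluster of `z` blocks the annulus of radii `r`, `R` around `c` -/
def Bl (T : Finset Vtx) (c : Vtx) (r R : ℕ) (z : Vtx) (F : Finset Edg) : Prop :=
  Blk T (fun u => sd u c ≤ r) (fun w => R ≤ sd w c) z F

theorem Bl.mono {T : Finset Vtx} {c : Vtx} {r R : ℕ} {z : Vtx} {F G : Finset Edg} (h : F ⊆ G)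
    (hF : Bl T c r R z F) : Bl T c r R z G := Pool.Agent.Y989.SD.CHN.Blk.mono h hF

theorem Bl.weaken {T : Finset Vtx} {c c' : Vtx} {r R r' R' : ℕ} {z : Vtx} {F : Finset Edg}
    (h : Bl T c r R z F) (h1 : sd c c' + r' ≤ r) (h2 : sd c c' + R ≤ R') :
    Bl T c' r' R' z F := by
  intro u hu hA w hw hB
  have t1 := sd_tri u c' c
  have t2 := sd_tri w c c'
  have t3 := sd_comm c c'
  have hA' : sd u c' ≤ r' := hA
  have hB' : R' ≤ sd w c' := hB
  have g1 : sd u c ≤ r := by omega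
  have g2 : R ≤ sd w c := by omega
  exact h u hu g1 w hw g2

theorem Bl.meet {T : Finset Vtx} {c : Vtx} {r R : ℕ} {z : Vtx} {F : Finset Edg} (hF : F ⊆ ES T)
    (h : Bl T c r R z F) {u w : Vtx} (hu : u ∈ T) (hr : sd u c ≤ r) (hR : R ≤ sd w c)
    (huw : Reach (↑F) u w) : Reach (↑F) z u := by
  have hw : w ∈ T := reach_mem (F := (↑F : Set Edg)) (fun e he => hF (Finset.mem_coe.mp he)) hu huw
  exact Pool.Agent.Y989.SD.CHN.meets hF h hu hr hw hR huw

/-- a connected set of vertices which crosses the annulus meets the blocking cluster -/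
theorem Bl.cont {T : Finset Vtx} {c : Vtx} {r R : ℕ} {z : Vtx} {F : Finset Edg}
    (h : Bl T c r R z F) {A : Finset Vtx} (hA : ∀ y ∈ A, y ∈ T) {u w : Vtx} (hu : u ∈ A)
    (hw : w ∈ A) (huw : Reach (EV fun y => y ∈ A) u w) (hr : sd u c ≤ r) (hR : R ≤ sd w c) :
    ∃ a ∈ A, Reach (↑F) z a := by
  by_contra hcon
  push Not at hcon
  refine h u (hA u hu) hr w (hA w hw) hR (huw.mono ?_)
  rintro e ⟨h1, h2⟩
  exact ⟨⟨hA _ h1, hcon _ h1⟩, hA _ h2, hcon _ h2⟩

theorem unwireT_in {T : Finset Vtx} {c : Vtx} {r R : ℕ} {z : Vtx} {F : Finset Edg}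
    (hF : F ⊆ ES T) (h : Bl T c r R z F) {A : Set Edg}
    (hA : ∀ e ∈ A, (src e ∈ T ∧ sd (src e) c ≤ r) ∧ (tgt e ∈ T ∧ sd (tgt e) c ≤ r))
    {u v : Vtx} (hu : R ≤ sd u c) (hv : R ≤ sd v c) (hr : Reach (↑F ∪ A) u v) :
    Reach (↑F) u v := by
  have key : ∀ u v : Vtx, R ≤ sd u c → Reach (↑F ∪ A) u v →
      Reach (↑F) u v ∨ Reach (↑F) u z := by
    intro u v hu hr
    rcases hit_or (T := fun w => w ∈ T ∧ sd w c ≤ r) hA hr with h1 | ⟨w, h1, h2⟩
    · exact Or.inl h1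
    · exact Or.inr (h2.trans (h.meet hF h1.1 h1.2 hu h2.symm).symm)
  rcases key u v hu hr with h1 | h1
  · exact h1
  · rcases key v u hv hr.symm with h2 | h2
    · exact h2.symm
    · exact h1.trans h2.symm

theorem unwireT_out {T : Finset Vtx} {c : Vtx} {r R : ℕ} {z : Vtx} {F : Finset Edg}
    (hF : F ⊆ ES T) (h : Bl T c r R z F) {A : Set Edg}
    (hA : ∀ e ∈ A, R ≤ sd (src e) c ∧ R ≤ sd (tgt e) c)
    {u v : Vtx} (hu1 : u ∈ T) (hv1 : v ∈ T) (hu : sd u c ≤ r) (hv : sd v c ≤ r)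
    (hr : Reach (↑F ∪ A) u v) : Reach (↑F) u v := by
  have key : ∀ u v : Vtx, u ∈ T → sd u c ≤ r → Reach (↑F ∪ A) u v →
      Reach (↑F) u v ∨ Reach (↑F) u z := by
    intro u v hu1 hu hr
    rcases hit_or (T := fun w => R ≤ sd w c) hA hr with h1 | ⟨w, h1, h2⟩
    · exact Or.inl h1
    · exact Or.inr (h.meet hF hu1 hu h1 h2).symm
  rcases key u v hu1 hu hr with h1 | h1
  · exact h1
  · rcases key v u hv1 hv hr.symm with h2 | h2
    · exact h2.symm
    · exact h1.trans h2.symm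

/-- there is a blocking cluster -/
def BL (T : Finset Vtx) (c : Vtx) (r R : ℕ) (F : Finset Edg) : Prop := ∃ z, Bl T c r R z F

theorem BL_incr (S : Finset Edg) (T : Finset Vtx) (c : Vtx) (r R : ℕ) : IncrE S (BL T c r R) :=
  fun _ _ h _ ⟨z, hz⟩ => ⟨z, hz.mono h⟩

/-- extension of an arm through a crossing -/
theorem xT_le {T : Finset Vtx} {p : Vtx} (hp : p ∈ T) {r R n : ℕ} {κ : ℝ}
    (hn : R ≤ n) (hb : κ ≤ Pr P (ES T) (BL T p r R)) :
    κ * (aT T p R * xT T p r n) ≤ aT T p n := by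
  have q1 := fkg (S := ES T) (Ar_incr (ES T) p R) (BL_incr (ES T) T p r R) 
    (Pr_nonneg okP _ _) le_rfl (le_refl (Pr P (ES T) (BL T p r R)))
  have q2 := fkg (incr_and (Ar_incr (ES T) p R) (BL_incr (ES T) T p r R)) (Cx_incr (ES T) T p r n)
    (xT_nonneg _ _ _ _) q1 le_rfl
  have a0 := aT_nonneg T p R
  have x0 := xT_nonneg T p r n
  calc κ * (aT T p R * xT T p r n) ≤ Pr P (ES T) (BL T p r R) * (aT T p R * xT T p r n) :=
        mul_le_mul_of_nonneg_right hb (mul_nonneg a0 x0)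
    _ = aT T p R * Pr P (ES T) (BL T p r R) * xT T p r n := by ring
    _ ≤ _ := q2
    _ ≤ _ := by
      apply Pr_mono okP
      rintro F hF ⟨⟨⟨v, hv, hcv⟩, z, hz⟩, ⟨a, ha, b, h3, h4, hab⟩⟩
      have m1 := hz.meet hF hp (by rw [sd_self]; omega) hv hcv
      have m2 := hz.meet hF ha h3 (hn.trans h4) hab
      exact ⟨b, h4, (m1.symm.trans m2).trans hab⟩

/-! ### decoupling -/

/-- decoupling the neighbourhood of a new point -/
theorem dec_in {T : Finset Vtx} {X : Finset Vtx} {x y : Vtx} (hx : x ∈ T) {a r R : ℕ} (hy : y ∈ X)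
    (hxy : sd y x = a) (hrR : r ≤ R) (hRa : R ≤ a) (hX : ∀ u ∈ X, a ≤ sd u x) {κ : ℝ} (hκ : 0 ≤ κ)
    (hb : κ ≤ Pr P (ES T) (BL T x r R)) :
    κ * Pr P (ES T) (fun F => Cn (insert x X) (↑F)) ≤
      aT T x r * Pr P (ES T) (fun F => Cn X (↑F)) := by
  classical
  set S := ES T with hS
  set B := bT T x r with hB
  set S2 := S \ B with hS2
  set E : Finset Edg → Prop := fun F => Cn X (↑(F ∩ S2) ∪ ↑B) with hE
  have hEi : IncA E := by
    intro F G h hF
    refine Cn.mono (Set.union_subset_union_left _ ?_) hF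
    exact_mod_cast Finset.inter_subset_inter_right h
  have hEl : LocE S2 E := by
    intro F
    rw [hE]
    simp only [Finset.inter_assoc, Finset.inter_self]
  have hd : Disjoint B S2 := by rw [hS2]; exact Finset.disjoint_sdiff
  have s1 : Pr P S (fun F => Cn (insert x X) (↑F)) ≤ Pr P S (fun F => ArL T x r F ∧ E F) := by
    apply Pr_mono okP
    intro F hFS hF
    refine ⟨Ar_loc hFS hx (m := a) (by omega) ⟨y, hxy.ge,
      hF x (Finset.mem_insert_self _ _) y (Finset.mem_insert_of_mem hy)⟩, ?_⟩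
    intro u hu v hv
    refine (hF u (Finset.mem_insert_of_mem hu) v (Finset.mem_insert_of_mem hv)).mono ?_
    intro e he
    by_cases h1 : e ∈ B
    · exact Or.inr (by exact_mod_cast h1)
    · left
      rw [Finset.mem_coe, Finset.mem_inter, hS2, Finset.mem_sdiff]
      exact ⟨Finset.mem_coe.mp he, hFS (Finset.mem_coe.mp he), h1⟩
  have s2 := (indep2 S B S2 hd (ArL_inc T x r) hEi (ArL_loc T x r) hEl).trans
    (mul_le_mul_of_nonneg_right (pr_ArL_le T x r) (Pr_nonneg okP S2 E))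
  have s4 : Pr P S2 E ≤ Pr P S E :=
    Pr_mono_set okP Finset.sdiff_subset (fun F G h _ => hEi F G h)
  have s5 : Pr P S E * Pr P S (BL T x r R) ≤ Pr P S (fun F => Cn X (↑F)) := by
    refine (Pr_harris okP (fun F G h _ => hEi F G h) (BL_incr S T x r R)).trans ?_
    apply Pr_mono okP
    rintro F hFS ⟨h1, z, h2⟩
    intro u hu v hv
    refine unwireT_in hFS h2 (A := ↑B) ?_ (hRa.trans (hX u hu)) (hRa.trans (hX v hv)) ?_
    · intro e he
      exact mem_bT.mp (Finset.mem_coe.mp he)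
    · refine (h1 u hu v hv).mono (Set.union_subset_union_left _ ?_)
      exact_mod_cast Finset.inter_subset_left
  have p0 : 0 ≤ Pr P S E := Pr_nonneg okP _ _
  have p1 : 0 ≤ aT T x r := aT_nonneg T x r
  have s6 : κ * Pr P S E ≤ Pr P S (fun F => Cn X (↑F)) := by
    rw [mul_comm]
    exact (mul_le_mul_of_nonneg_left hb p0).trans s5
  calc κ * Pr P S (fun F => Cn (insert x X) (↑F)) ≤ κ * (aT T x r * Pr P S2 E) :=
        mul_le_mul_of_nonneg_left (s1.trans s2) hκ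
    _ = aT T x r * (κ * Pr P S2 E) := by ring
    _ ≤ aT T x r * (κ * Pr P S E) := by
        apply mul_le_mul_of_nonneg_left _ p1
        exact mul_le_mul_of_nonneg_left s4 hκ
    _ ≤ _ := mul_le_mul_of_nonneg_left s6 p1

/-- the new point is far from the others -/
theorem dec_out {T : Finset Vtx} {X : Finset Vtx} (hXV : ∀ u ∈ X, u ∈ T) {x y : Vtx} (hx : x ∈ T)
    {a r R n : ℕ} (hy : y ∈ X) (hxy : sd x y = a) (hrR : r ≤ R) (hRn : R ≤ n) (hna : 2 * n + 1 ≤ a)
    (hX : ∀ u ∈ X, sd u y ≤ r) {κ : ℝ} (hκ : 0 ≤ κ) (hb : κ ≤ Pr P (ES T) (BL T y r R)) :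
    κ * Pr P (ES T) (fun F => Cn (insert x X) (↑F)) ≤
      aT T x n * (xT T y R n * Pr P (ES T) (fun F => Cn X (↑F))) := by
  classical
  have hyV := hXV y hy
  set S := ES T with hS
  set B := bT T y R with hB
  set A2 := bT T y n \ B with hA2
  set O : Set Edg := {e | e ∈ S ∧ ¬ (sd (src e) y ≤ R ∧ sd (tgt e) y ≤ R)} with hO
  set E : Finset Edg → Prop := fun F => Cn X (↑(F ∩ B) ∪ O) with hE
  have hEi : IncA E := by
    intro F G h hF
    refine Cn.mono (Set.union_subset_union_left _ ?_) hF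
    exact_mod_cast Finset.inter_subset_inter_right h
  have hEl : LocE B E := by
    intro F
    rw [hE]
    simp only [Finset.inter_assoc, Finset.inter_self]
  have hCi : IncA (CxL T y R n) := CxL_inc _ _ _ _
  have hCl : LocE A2 (CxL T y R n) := CxL_loc _ _ _ _
  have hd2 : Disjoint B A2 := by rw [hA2]; exact Finset.disjoint_sdiff
  have hBn : B ⊆ bT T y n := bT_mono hRn
  have hd1 : Disjoint (bT T x n) (B ∪ A2) := by
    have h1 : B ∪ A2 ⊆ bT T y n := Finset.union_subset hBn (by rw [hA2]; exact Finset.sdiff_subset)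
    exact Finset.disjoint_of_subset_right h1 (bT_disj (by omega))
  have hBi : IncA (fun F => E F ∧ CxL T y R n F) :=
    fun F G h hF => ⟨hEi F G h hF.1, hCi F G h hF.2⟩
  have hBl : LocE (B ∪ A2) (fun F => E F ∧ CxL T y R n F) := by
    intro F
    show (E F ∧ CxL T y R n F) ↔ (E (F ∩ (B ∪ A2)) ∧ CxL T y R n (F ∩ (B ∪ A2)))
    rw [hEl F, hCl F, hEl (F ∩ (B ∪ A2)), hCl (F ∩ (B ∪ A2))]
    have e1 : F ∩ (B ∪ A2) ∩ B = F ∩ B := by
      ext e; simp only [Finset.mem_inter, Finset.mem_union]; tauto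
    have e2 : F ∩ (B ∪ A2) ∩ A2 = F ∩ A2 := by
      ext e; simp only [Finset.mem_inter, Finset.mem_union]; tauto
    rw [e1, e2]
  have s1 : Pr P S (fun F => Cn (insert x X) (↑F)) ≤
      Pr P S (fun F => ArL T x n F ∧ (E F ∧ CxL T y R n F)) := by
    apply Pr_mono okP
    intro F hFS hF
    have hxy' : Reach (↑F) x y := hF x (Finset.mem_insert_self _ _) y (Finset.mem_insert_of_mem hy)
    refine ⟨Ar_loc hFS hx (m := a) (by omega) ⟨y, by rw [sd_comm]; exact hxy.ge, hxy'⟩, ?_, ?_⟩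
    · intro u hu v hv
      refine (hF u (Finset.mem_insert_of_mem hu) v (Finset.mem_insert_of_mem hv)).mono ?_
      intro e he
      have heS : e ∈ S := hFS (Finset.mem_coe.mp he)
      by_cases h1 : e ∈ B
      · left
        rw [Finset.mem_coe, Finset.mem_inter]
        exact ⟨Finset.mem_coe.mp he, h1⟩
      · refine Or.inr ⟨heS, fun h2 => h1 ?_⟩
        have h3 := mem_ES.mp heS
        exact mem_bT.mpr ⟨⟨h3.1, h2.1⟩, h3.2, h2.2⟩
    · exact Cx_loc hFS (by omega) ⟨y, hyV, x, by rw [sd_self]; omega, by omega, hxy'.symm⟩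
  have s2 := (indep2 S (bT T x n) (B ∪ A2) hd1 (ArL_inc T x n) hBi (ArL_loc T x n) hBl).trans
    (mul_le_mul_of_nonneg_right (pr_ArL_le T x n) (Pr_nonneg okP _ _))
  have s2' := (indep2 (B ∪ A2) B A2 hd2 hEi hCi hEl hCl).trans
    (mul_le_mul_of_nonneg_left (pr_CxL_le T y R n) (Pr_nonneg okP _ _))
  have s4 : Pr P B E ≤ Pr P S E := Pr_mono_set okP (bT_sub T y R) (fun F G h _ => hEi F G h)
  have s5 : Pr P S E * Pr P S (BL T y r R) ≤ Pr P S (fun F => Cn X (↑F)) := by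
    refine (Pr_harris okP (fun F G h _ => hEi F G h) (BL_incr S T y r R)).trans ?_
    apply Pr_mono okP
    rintro F hFS ⟨h1, z, h2⟩
    intro u hu v hv
    refine unwireT_out hFS h2 (A := O) ?_ (hXV u hu) (hXV v hv) (hX u hu) (hX v hv) ?_
    · rintro e ⟨he1, he2⟩
      have h3 := sd_step e y
      omega
    · refine (h1 u hu v hv).mono (Set.union_subset_union_left _ ?_)
      exact_mod_cast Finset.inter_subset_left
  have p0 : 0 ≤ Pr P S E := Pr_nonneg okP _ _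
  have p1 : 0 ≤ aT T x n := aT_nonneg T x n
  have p2 : 0 ≤ xT T y R n := xT_nonneg _ _ _ _
  have s6 : κ * Pr P S E ≤ Pr P S (fun F => Cn X (↑F)) := by
    rw [mul_comm]
    exact (mul_le_mul_of_nonneg_left hb p0).trans s5
  calc κ * Pr P S (fun F => Cn (insert x X) (↑F))
      ≤ κ * (aT T x n * (Pr P S E * xT T y R n)) := by
        apply mul_le_mul_of_nonneg_left _ hκ
        refine (s1.trans s2).trans (mul_le_mul_of_nonneg_left ?_ p1)
        exact s2'.trans (mul_le_mul_of_nonneg_right s4 p2)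
    _ = aT T x n * (xT T y R n * (κ * Pr P S E)) := by ring
    _ ≤ _ := by
        apply mul_le_mul_of_nonneg_left _ p1
        exact mul_le_mul_of_nonneg_left s6 p2

end Pool.Agent.J6H18.GD
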