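import Pool.Agent.J6H18.GD.Prof
import Pool.Agent.Y989.SD.T_EMB

/-!
Rectangles of the square lattice are regular.
-/

set_option autoImplicit false

namespace Pool.Agent.J6H18.GD

open Finset H974 Pool.Agent.H160R2.CV H362P
open Pool.Agent.H160R2.CV.Quad Pool.Agent.H389R2.CD
open TH976 (sd sd_self sd_comm sd_tri sd_pos Ar Ar_incr Cmp DQ eQ reg_Q qb aq aq_cmp InV E)
open H973 (ES mem_ES EV reach_mem mem_RE_ends mem_RE_of_ends dlt dlt_pos dlt_le)
open Pool.Agent.Y989.SD.WIN (tT mem_tT tT_img pr_tT reach_mp)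
open Pool.Agent.Y989.SD.EMB (cmp)

/-- the rectangle -/
noncomputable def Bx (m1 m2 n1 n2 : ℤ) : Finset Vtx := Finset.Icc m1 m2 ×ˢ Finset.Icc n1 n2

theorem mem_Bx {m1 m2 n1 n2 : ℤ} {v : Vtx} :
    v ∈ Bx m1 m2 n1 n2 ↔ (m1 ≤ v.1 ∧ v.1 ≤ m2) ∧ (n1 ≤ v.2 ∧ v.2 ≤ n2) := by
  unfold Bx
  rw [Finset.mem_product, Finset.mem_Icc, Finset.mem_Icc]

/-- the folding map -/
def fold (m1 m2 n1 n2 : ℤ) (v : Vtx) : Vtx :=
  (min (v.1 - m1) (m2 - v.1) + 1, min (v.2 - n1) (n2 - v.2) + 1)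

theorem fold_lip (m1 m2 n1 n2 : ℤ) (u v : Vtx) :
    sd (fold m1 m2 n1 n2 u) (fold m1 m2 n1 n2 v) ≤ sd u v := by
  unfold sd fold
  simp only
  omega

theorem fold_mem {m1 m2 n1 n2 : ℤ} {v : Vtx} (hv : v ∈ Bx m1 m2 n1 n2) :
    fold m1 m2 n1 n2 v ∈ DQ := by
  rw [mem_Bx] at hv
  show 1 ≤ min (v.1 - m1) (m2 - v.1) + 1 ∧ 1 ≤ min (v.2 - n1) (n2 - v.2) + 1
  omega

/-- the arm profile of the rectangle -/
noncomputable def eB (m1 m2 n1 n2 : ℤ) (L : ℕ) (v : Vtx) (n : ℕ) : ℝ :=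
  eQ (fold m1 m2 n1 n2 v) (min n L)

theorem rfx_ψ' (k : ℤ) (v : Vtx) : (rfx k).ψ v = (k - v.1, v.2) := rfl
theorem rfy_ψ' (k : ℤ) (v : Vtx) : (rfy k).ψ v = (v.1, k - v.2) := rfl
theorem trl_ψ' (s t : ℤ) (v : Vtx) : (trl s t).ψ v = (v.1 + s, v.2 + t) := rfl

theorem iso_rfx (k : ℤ) : Iso (rfx k) := by
  intro u v
  rw [rfx_ψ', rfx_ψ']
  unfold sd
  simp only
  omega

theorem iso_rfy (k : ℤ) : Iso (rfy k) := by
  intro u v
  rw [rfy_ψ', rfy_ψ']
  unfold sd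
  simp only
  omega

theorem iso_trl (s t : ℤ) : Iso (trl s t) := by
  intro u v
  rw [trl_ψ', trl_ψ']
  unfold sd
  simp only
  omega

theorem iso_cmp {g h : LSym} (hg : Iso g) (hh : Iso h) : Iso (cmp g h) := by
  intro u v
  show sd (g.ψ (h.ψ u)) (g.ψ (h.ψ v)) = sd u v
  rw [hg, hh]

/-- reduction to the lower left quarter -/
theorem quarter {m1 m2 n1 n2 : ℤ} {v : Vtx} (hv : v ∈ Bx m1 m2 n1 n2) : ∃ (g : LSym) (w : Vtx),
    Iso g ∧ tT g (Bx m1 m2 n1 n2) = Bx m1 m2 n1 n2 ∧ g.ψ w = v ∧ w ∈ Bx m1 m2 n1 n2 ∧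
      2 * w.1 ≤ m1 + m2 ∧ 2 * w.2 ≤ n1 + n2 ∧ fold m1 m2 n1 n2 w = fold m1 m2 n1 n2 v := by
  rw [mem_Bx] at hv
  obtain ⟨v1, v2⟩ := v
  simp only at hv
  rcases le_total (2 * v1) (m1 + m2) with h1 | h1 <;>
    rcases le_total (2 * v2) (n1 + n2) with h2 | h2
  · refine ⟨trl 0 0, (v1, v2), iso_trl 0 0, ?_, ?_, ?_, h1, h2, rfl⟩
    · ext y
      rw [mem_tT, trl_ψ', mem_Bx, mem_Bx]
      simp only [add_zero]
    · rw [trl_ψ']
      simp
    · rw [mem_Bx]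
      exact hv
  · refine ⟨rfy (n1 + n2), (v1, n1 + n2 - v2), iso_rfy _, ?_, ?_, ?_, h1, by simp only; omega, ?_⟩
    · ext y
      rw [mem_tT, rfy_ψ', mem_Bx, mem_Bx]
      simp only
      omega
    · rw [rfy_ψ']
      simp
    · rw [mem_Bx]
      simp only
      omega
    · refine Prod.ext ?_ ?_ <;> simp only [fold] <;> omega
  · refine ⟨rfx (m1 + m2), (m1 + m2 - v1, v2), iso_rfx _, ?_, ?_, ?_, by simp only; omega, h2, ?_⟩
    · ext y
      rw [mem_tT, rfx_ψ', mem_Bx, mem_Bx]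
      simp only
      omega
    · rw [rfx_ψ']
      simp
    · rw [mem_Bx]
      simp only
      omega
    · refine Prod.ext ?_ ?_ <;> simp only [fold] <;> omega
  · refine ⟨cmp (rfx (m1 + m2)) (rfy (n1 + n2)), (m1 + m2 - v1, n1 + n2 - v2),
      iso_cmp (iso_rfx _) (iso_rfy _), ?_, ?_, ?_, by simp only; omega, by simp only; omega, ?_⟩
    · ext y
      rw [mem_tT]
      show (rfx (m1 + m2)).ψ ((rfy (n1 + n2)).ψ y) ∈ _ ↔ _
      rw [rfy_ψ', rfx_ψ', mem_Bx, mem_Bx]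
      simp only
      omega
    · show (rfx (m1 + m2)).ψ ((rfy (n1 + n2)).ψ _) = _
      rw [rfy_ψ', rfx_ψ']
      simp
    · rw [mem_Bx]
      simp only
      omega
    · refine Prod.ext ?_ ?_ <;> simp only [fold] <;> omega

/-- blocking clusters -/
theorem blk_B {m1 m2 n1 n2 : ℤ} {v : Vtx} (hv : v ∈ Bx m1 m2 n1 n2) {r : ℕ} (hr : 1 ≤ r)
    (h1 : 6 * (r : ℤ) ≤ m2 - m1) (h2 : 6 * (r : ℤ) ≤ n2 - n1) :
    dlt ^ 4 ≤ Pr P (ES (Bx m1 m2 n1 n2)) (BL (Bx m1 m2 n1 n2) v r (3 * r)) := by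
  obtain ⟨g, w, hg, hT, hw, hwT, w1, w2, -⟩ := quarter hv
  have h3 := BL_sym hg (Bx m1 m2 n1 n2) w r (3 * r)
  rw [hT, hw] at h3
  refine le_trans (pr_BL hr (a0 := m1) (b0 := n1) ?_ hwT) h3
  intro u hu
  rw [mem_Bx]
  unfold sd at hu
  omega

/-- one-arm probabilities near the corner -/
theorem aT_corner {W H : ℤ} {c : Vtx} (hc1 : 0 ≤ c.1) (hc2 : 0 ≤ c.2) {n : ℕ}
    (h1 : c.1 + n ≤ W) (h2 : c.2 + n ≤ H) : aT (Bx 0 W 0 H) c n = aq c n := by
  have hcT : c ∈ Bx 0 W 0 H := by rw [mem_Bx]; omega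
  have e1 : bT (Bx 0 W 0 H) c n = qb c n := by
    ext e
    rw [mem_bT, mem_Bx, mem_Bx]
    constructor
    · rintro ⟨⟨a1, a2⟩, a3, a4⟩
      unfold sd at a2 a4
      apply mem_RE_of_ends <;> unfold inR <;> omega
    · intro he
      obtain ⟨g1, g2⟩ := mem_RE_ends he
      unfold inR at g1 g2
      unfold sd
      omega
  have e2 : Pr P (bT (Bx 0 W 0 H) c n) (ArL (Bx 0 W 0 H) c n) = aq c n := by
    unfold aq
    rw [e1]
    apply Pr_congr
    intro F hF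
    unfold ArL
    rw [e1, Finset.inter_eq_left.mpr hF]
  apply le_antisymm
  · rw [← e2]
    refine le_trans (Pr_mono okP ?_) (pr_le_loc (ES (Bx 0 W 0 H)) _ (ArL_inc _ c n)
      (ArL_loc _ c n))
    intro F hF h
    exact Ar_loc hF hcT le_rfl h
  · rw [← e2]
    exact pr_ArL_le _ c n

theorem aT_B {m1 m2 n1 n2 : ℤ} {v : Vtx} (hv : v ∈ Bx m1 m2 n1 n2) {n : ℕ}
    (h1 : 2 * (n : ℤ) ≤ m2 - m1) (h2 : 2 * (n : ℤ) ≤ n2 - n1) :
    aT (Bx m1 m2 n1 n2) v n =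
      aq ((fold m1 m2 n1 n2 v).1 - 1, (fold m1 m2 n1 n2 v).2 - 1) n := by
  obtain ⟨g, w, hg, hT, hw, hwT, w1, w2, hf⟩ := quarter hv
  rw [← hf, ← hw, aT_sym hg, hT]
  have hwT' := mem_Bx.mp hwT
  set c : Vtx := (w.1 - m1, w.2 - n1) with hc
  have e1 : (trl m1 n1).ψ c = w := by
    rw [trl_ψ', hc]
    simp
  have e2 : tT (trl m1 n1) (Bx m1 m2 n1 n2) = Bx 0 (m2 - m1) 0 (n2 - n1) := by
    ext y
    rw [mem_tT, trl_ψ', mem_Bx, mem_Bx]
    simp only
    omega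
  have e3 : (((fold m1 m2 n1 n2 w).1 - 1, (fold m1 m2 n1 n2 w).2 - 1) : Vtx) = c := by
    rw [hc]
    unfold fold
    simp only [Prod.mk.injEq]
    omega
  rw [e3, ← e1, aT_sym (iso_trl m1 n1), e2]
  apply aT_corner
  · rw [hc]; simp only; omega
  · rw [hc]; simp only; omega
  · rw [hc]; simp only; omega
  · rw [hc]; simp only; omega

theorem chn_B {m1 m2 n1 n2 : ℤ} {L Q : ℕ} (hL : 16 ≤ L) (h1 : m2 - m1 ≤ Q * L)
    (h2 : n2 - n1 ≤ Q * L) : Chn (Bx m1 m2 n1 n2) L (16 * Q + 1) := by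
  intro u hu v hv
  rw [mem_Bx] at hu hv
  set M : ℤ := 16 * (Q : ℤ) + 1 with hM
  have hM0 : 0 < M := by omega
  have hdiv : ∀ (a b : ℤ) (j : ℕ), a ≤ b → (j : ℤ) ≤ M → 0 ≤ (j : ℤ) * (b - a) / M ∧
      (j : ℤ) * (b - a) / M ≤ b - a := by
    intro a b j hab hj
    constructor
    · exact Int.ediv_nonneg (mul_nonneg (by omega) (by omega)) hM0.le
    · have h3 : (j : ℤ) * (b - a) ≤ (b - a) * M := by nlinarith
      exact (Int.ediv_le_ediv hM0 h3).trans (by rw [Int.mul_ediv_cancel _ hM0.ne'])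
  -- the coordinates
  have coord : ∀ (a b lo hi : ℤ), lo ≤ a → a ≤ hi → lo ≤ b → b ≤ hi → hi - lo ≤ Q * L →
      ∃ x : ℕ → ℤ, x 0 = a ∧ x (16 * Q + 1) = b ∧ (∀ j, lo ≤ x j ∧ x j ≤ hi) ∧
        ∀ j < 16 * Q + 1, 8 * (x j - x (j + 1)).natAbs ≤ L := by
    intro a b lo hi a1 a2 b1 b2 hlen
    have step : ∀ (d : ℤ), 0 ≤ d → d ≤ Q * L → ∀ j : ℕ,
        (j : ℤ) * d / M ≤ ((j + 1 : ℕ) : ℤ) * d / M ∧
        8 * (((j + 1 : ℕ) : ℤ) * d / M - (j : ℤ) * d / M) ≤ L := by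
      intro d hd hdL j
      have q1 := Int.ediv_mul_le ((j : ℤ) * d) hM0.ne'
      have q2 := Int.lt_ediv_add_one_mul_self ((j : ℤ) * d) hM0
      have q3 := Int.ediv_mul_le (((j + 1 : ℕ) : ℤ) * d) hM0.ne'
      have q4 := Int.lt_ediv_add_one_mul_self (((j + 1 : ℕ) : ℤ) * d) hM0
      set p := (j : ℤ) * d / M with hp
      set q := ((j + 1 : ℕ) : ℤ) * d / M with hq
      have e1 : ((j + 1 : ℕ) : ℤ) * d = (j : ℤ) * d + d := by push_cast; ring
      rw [e1] at q3 q4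
      constructor
      · by_contra hcon
        push Not at hcon
        nlinarith
      · -- `(q - p) M < d + M`
        have q5 : (q - p) * M < d + M := by nlinarith
        by_contra hcon
        push Not at hcon
        have hLM : (L : ℤ) * M < 8 * (d + M) := by nlinarith
        have hLz : (16 : ℤ) ≤ L := by exact_mod_cast hL
        have hQz : (0 : ℤ) ≤ Q := by omega
        have : 8 * (d + M) ≤ 8 * (Q * L) + 8 * M := by linarith
        have h8 : 2 * (8 * M) ≤ L * M := by nlinarith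
        have h9 : 16 * ((Q : ℤ) * L) ≤ L * M := by
          rw [hM]
          nlinarith
        linarith
    rcases le_total a b with hab | hab
    · refine ⟨fun j => a + ((min j (16 * Q + 1) : ℕ) : ℤ) * (b - a) / M, ?_, ?_, ?_, ?_⟩
      · simp
      · show a + ((min (16 * Q + 1) (16 * Q + 1) : ℕ) : ℤ) * (b - a) / M = b
        rw [min_self]
        have : ((16 * Q + 1 : ℕ) : ℤ) = M := by rw [hM]; push_cast; ring
        rw [this, Int.mul_ediv_cancel_left _ hM0.ne']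
        ring
      · intro j
        have := hdiv a b (min j (16 * Q + 1)) hab (by omega)
        simp only
        omega
      · intro j hj
        have e1 : min j (16 * Q + 1) = j := by omega
        have e2 : min (j + 1) (16 * Q + 1) = j + 1 := by omega
        have := step (b - a) (by omega) (by omega) j
        simp only [e1, e2]
        omega
    · refine ⟨fun j => a - ((min j (16 * Q + 1) : ℕ) : ℤ) * (a - b) / M, ?_, ?_, ?_, ?_⟩
      · simp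
      · show a - ((min (16 * Q + 1) (16 * Q + 1) : ℕ) : ℤ) * (a - b) / M = b
        rw [min_self]
        have : ((16 * Q + 1 : ℕ) : ℤ) = M := by rw [hM]; push_cast; ring
        rw [this, Int.mul_ediv_cancel_left _ hM0.ne']
        ring
      · intro j
        have := hdiv b a (min j (16 * Q + 1)) hab (by omega)
        simp only
        omega
      · intro j hj
        have e1 : min j (16 * Q + 1) = j := by omega
        have e2 : min (j + 1) (16 * Q + 1) = j + 1 := by omega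
        have := step (a - b) (by omega) (by omega) j
        simp only [e1, e2]
        omega
  obtain ⟨x, x0, xM, xI, xs⟩ := coord u.1 v.1 m1 m2 (by omega) (by omega) (by omega) (by omega) h1
  obtain ⟨y, y0, yM, yI, ys⟩ := coord u.2 v.2 n1 n2 (by omega) (by omega) (by omega) (by omega) h2
  refine ⟨fun j => (x j, y j), ?_, ?_, ?_, ?_⟩
  · simp only [x0, y0]
  · simp only [xM, yM]
  · intro j
    rw [mem_Bx]
    exact ⟨xI j, yI j⟩
  · intro j hj
    have h3 := xs j hj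
    have h4 := ys j hj
    unfold sd
    simp only
    omega

/-- **Rectangles are regular lattice domains.** -/
theorem gd_B (hA : ArS) (Q : ℕ) : ∃ κ k : ℝ, ∀ (m1 m2 n1 n2 : ℤ) (L : ℕ), 16 ≤ L →
    16 * (L : ℤ) ≤ m2 - m1 → 16 * (L : ℤ) ≤ n2 - n1 → m2 - m1 ≤ Q * L → n2 - n1 ≤ Q * L →
      GD (Bx m1 m2 n1 n2) (eB m1 m2 n1 n2 L) L 3 κ k := by
  obtain ⟨k1, hk⟩ := reg_Q hA
  obtain ⟨k2, harm⟩ := aq_cmp hA
  have k11 := hk.hk
  have k21 : 1 ≤ k2 := (harm (0, 0) ⟨le_rfl, le_rfl⟩ 1 le_rfl).hk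
  have k13 : 1 ≤ k1 ^ 3 := one_le_pow₀ k11
  have hd4 : 0 < dlt ^ 4 := pow_pos dlt_pos 4
  have hd4' : dlt ^ 4 ≤ 1 := pow_le_one₀ dlt_pos.le dlt_le
  set k := k1 * k1 * (k2 * k1 ^ 3) with hkd
  have hkk1 : 1 ≤ k1 * k1 := Cmp.one_le_mul' k11 k11
  have hk23 : 1 ≤ k2 * k1 ^ 3 := Cmp.one_le_mul' k21 k13
  have hk1' : 1 ≤ k := Cmp.one_le_mul' hkk1 hk23
  have hkk : k1 * k1 ≤ k := by rw [hkd]; nlinarith
  have hk2k : k2 * k1 ^ 3 ≤ k := by rw [hkd]; nlinarith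
  refine ⟨((dlt ^ 4 * (k ^ 5)⁻¹) * (dlt ^ 4 * (k ^ 5)⁻¹)) ^ (16 * Q + 1 + 1), k, ?_⟩
  intro m1 m2 n1 n2 L hL h1 h2 h3 h4
  set T := Bx m1 m2 n1 n2 with hT
  have hr := reg_pull hk (T := T) (φ := fold m1 m2 n1 n2) (fun v hv => fold_mem hv)
    (fun u _ v _ => fold_lip m1 m2 n1 n2 u v) (L := L) (by omega)
  have hr' : TH976.Reg (↑T : Set Vtx) (eB m1 m2 n1 n2 L) k := by
    refine ⟨hk1', hr.pos, ?_, ?_, ?_⟩
    · intro v hv n m hn hnm
      exact (hr.anti v hv n m hn hnm).trans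
        (mul_le_mul_of_nonneg_right hkk (hr.pos v hv n hn).le)
    · intro v hv n hn
      exact (hr.dbl v hv n hn).trans
        (mul_le_mul_of_nonneg_right hkk (hr.pos v hv (3 * n) (by omega)).le)
    · intro u hu v hv r n huv hr1 hrn
      exact (hr.rat u hu v hv r n huv hr1 hrn).trans
        (mul_le_mul_of_nonneg_right hkk
          (mul_pos (hr.pos u hu n (by omega)) (hr.pos v hv r hr1)).le)
  refine GD.of_chain (by omega) (by norm_num) hd4 hd4' ?_ (chn_B hL h3 h4) hr' ?_ ?_ ?_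
  · intro v hv r hr1 hrL
    exact blk_B hv hr1 (by omega) (by omega)
  · intro v hv
    show eQ _ (min 1 L) = 1
    have : min 1 L = 1 := by omega
    rw [this]
    exact TH976.e_one (fold_mem hv)
  · intro v hv n hn
    show eQ _ (min L L) ≤ k * eQ _ (min n L)
    rw [min_self, min_eq_right hn]
    have h5 := hk.pos _ (fold_mem hv) L (by omega)
    nlinarith
  · intro v hv n hn hnL
    have hf := fold_mem hv
    have h5 := harm ((fold m1 m2 n1 n2 v).1 - 1, (fold m1 m2 n1 n2 v).2 - 1) (by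
      have h6 : 1 ≤ (fold m1 m2 n1 n2 v).1 ∧ 1 ≤ (fold m1 m2 n1 n2 v).2 := hf
      show 0 ≤ (fold m1 m2 n1 n2 v).1 - 1 ∧ 0 ≤ (fold m1 m2 n1 n2 v).2 - 1
      omega) n hn
    rw [← aT_B hv (by omega) (by omega)] at h5
    have e1 : E (min (((((fold m1 m2 n1 n2 v).1 - 1, (fold m1 m2 n1 n2 v).2 - 1) : Vtx).1 : ℤ) : ℝ)
        ((((fold m1 m2 n1 n2 v).1 - 1, (fold m1 m2 n1 n2 v).2 - 1) : Vtx).2 : ℤ) + 1)
        (max (((((fold m1 m2 n1 n2 v).1 - 1, (fold m1 m2 n1 n2 v).2 - 1) : Vtx).1 : ℤ) : ℝ)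
        ((((fold m1 m2 n1 n2 v).1 - 1, (fold m1 m2 n1 n2 v).2 - 1) : Vtx).2 : ℤ) + 1) n =
        eQ (fold m1 m2 n1 n2 v) n := by
      unfold eQ
      congr 1
      · simp only
        push_cast
        rw [← min_add_add_right]
        ring_nf
      · simp only
        push_cast
        rw [← max_add_add_right]
        ring_nf
    rw [e1] at h5
    have h6 : Cmp (k1 ^ 3) (eQ (fold m1 m2 n1 n2 v) n) (eQ (fold m1 m2 n1 n2 v) (min n L)) := by
      refine ⟨k13, hk.pos _ hf n hn, hk.pos _ hf _ (by omega), ?_, ?_⟩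
      · have h7 := hk.anti _ hf (min n L) n (by omega) (by omega)
        refine h7.trans (mul_le_mul_of_nonneg_right ?_ (hk.pos _ hf _ (by omega)).le)
        calc k1 = k1 ^ 1 := (pow_one _).symm
          _ ≤ k1 ^ 3 := pow_le_pow_right₀ k11 (by norm_num)
      · exact reg_up hk hf 2 (by omega) hn (by norm_num; omega)
    exact (h5.trans h6).weaken hk2k

end Pool.Agent.J6H18.GD
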