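import Pool.Agent.J6H18.GD.Good

/-!
Connection probability of two connected sets of vertices in a regular lattice domain.
-/

set_option autoImplicit false

namespace Pool.Agent.J6H18.GD

open Finset H974 Pool.Agent.H160R2.CV H362P
open Pool.Agent.H160R2.CV.Quad
open TH976 (sd sd_self sd_comm sd_tri sd_pos Ar Ar_incr Cmp fkg incr_and Near Diam)
open H973 (ES mem_ES EV reach_mem mem_RE_ends mem_RE_of_ends)
open Pool.Agent.Y989.SD (Blk)

/-- `A` is a connected set of vertices of the square lattice. -/
def Ct (A : Finset Vtx) : Prop := ∀ u ∈ A, ∀ v ∈ A, Reach (EV fun y => y ∈ A) u v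

/-- `A` and `B` are joined by open edges. -/
def Jn (A B : Finset Vtx) (F : Finset Edg) : Prop := ∃ u ∈ A, ∃ v ∈ B, Reach (↑F) u v

theorem Jn.mono {A B : Finset Vtx} {F G : Finset Edg} (h : F ⊆ G) (hF : Jn A B F) : Jn A B G := by
  obtain ⟨u, hu, v, hv, h3⟩ := hF
  exact ⟨u, hu, v, hv, h3.mono (by exact_mod_cast h)⟩

theorem Jn_incr (S : Finset Edg) (A B : Finset Vtx) : IncrE S (Jn A B) :=
  fun _ _ h _ hF => hF.mono h

/-- the set `A` is joined to the distance `N` through the ball of radius `m` around `a` -/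
def Wt (T A : Finset Vtx) (a : Vtx) (m N : ℕ) (F : Finset Edg) : Prop :=
  ∃ a0 ∈ A, ∃ u ∈ T, ∃ v : Vtx, sd u a ≤ m ∧ N ≤ sd v a ∧ Reach (↑F) a0 u ∧ Reach (↑F) u v

theorem Wt_incr (S : Finset Edg) (T A : Finset Vtx) (a : Vtx) (m N : ℕ) :
    IncrE S (Wt T A a m N) := by
  rintro F G h - ⟨a0, h0, u, h1, v, h2, h3, h4, h5⟩
  exact ⟨a0, h0, u, h1, v, h2, h3, h4.mono (by exact_mod_cast h), h5.mono (by exact_mod_cast h)⟩

/-- the radius of the set `A` around `a` is `r` -/
structure Rd (A : Finset Vtx) (a : Vtx) (r : ℕ) : Prop where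
  mem : a ∈ A
  one : 1 ≤ r
  le : ∀ u ∈ A, sd u a ≤ r
  far : r ≤ 1 ∨ ∃ a' ∈ A, r ≤ 2 * sd a' a

namespace GD
variable {T : Finset Vtx} {e : Vtx → ℕ → ℝ} {L K : ℕ} {κ k : ℝ}

theorem cross_bd (g : GD T e L K κ k) {p : Vtx} (hp : p ∈ T) {r n : ℕ} (hr : 1 ≤ r) (hn : 1 ≤ n) :
    κ * (e p r * xT T p r n) ≤ UK K k ^ 4 * e p n := by
  have hK := g.hK
  have hL := g.hL
  have κ0 := g.κ0
  have κ1 := g.κ1
  have U1 := g.U1
  have U0 : 0 < UK K k := by linarith
  have p1 := g.pos hp hr
  have p2 := g.pos hp hn
  have hKK : 1 ≤ K * K := Nat.mul_le_mul hK hK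
  have hLL : L ≤ (2 * K + 2) * L := by nlinarith
  rcases Nat.lt_or_ge (min n L) (K * r) with h | h
  · have h1 := g.near hp hr hn (h.le.trans (Nat.mul_le_mul_right r (by nlinarith)))
    have h2 := xT_le_one T p r n
    have h3 := xT_nonneg T p r n
    calc κ * (e p r * xT T p r n) ≤ 1 * (e p r * 1) := by
          apply mul_le_mul κ1 _ (by positivity) zero_le_one
          exact mul_le_mul_of_nonneg_left h2 p1.le
      _ = e p r := by ring
      _ ≤ UK K k * e p n := h1
      _ ≤ UK K k ^ 4 * e p n := by
          apply mul_le_mul_of_nonneg_right _ p2.le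
          calc UK K k = UK K k ^ 1 := (pow_one _).symm
            _ ≤ _ := pow_le_pow_right₀ U1 (by norm_num)
  · set n0 := min n L with hn0
    have hn1 : 1 ≤ n0 := by omega
    have hrL : r ≤ L := by
      have : r ≤ K * r := by nlinarith
      omega
    have h1 : xT T p r n ≤ xT T p r n0 := xT_anti le_rfl (min_le_left _ _)
    have h2 := xT_le (T := T) hp (r := r) (R := K * r) (n := n0) h (g.blk p hp r hr hrL)
    have h3 := g.near hp (n := r) (m := K * r) hr (by nlinarith) (by
      have : K * r ≤ 16 * K * K * r := Nat.mul_le_mul_right r (by nlinarith)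
      exact (min_le_left _ _).trans this)
    have h4 := g.e_le hp (n := K * r) (by nlinarith) (by
      have : K * r ≤ L := h.trans (min_le_right _ _)
      omega)
    have h5 := g.a_le hp (n := n0) hn1 (by
      have : n0 ≤ L := min_le_right _ _
      omega)
    have h6 := g.near hp (n := n0) (m := n) hn1 hn (by
      have : 1 * n0 ≤ 16 * K * K * n0 := Nat.mul_le_mul_right n0 (by nlinarith)
      omega)
    have x0 := xT_nonneg T p r n0
    have x1 := xT_nonneg T p r n
    have a0 := aT_nonneg T p (K * r)
    have a1 := aT_nonneg T p n0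
    calc κ * (e p r * xT T p r n) ≤ κ * ((UK K k * (UK K k * aT T p (K * r))) * xT T p r n0) := by
          apply mul_le_mul_of_nonneg_left _ κ0.le
          apply mul_le_mul _ h1 x1 (by positivity)
          exact h3.trans (mul_le_mul_of_nonneg_left h4 U0.le)
      _ = UK K k ^ 2 * (κ * (aT T p (K * r) * xT T p r n0)) := by ring
      _ ≤ UK K k ^ 2 * (UK K k * (UK K k * e p n)) := by
          apply mul_le_mul_of_nonneg_left _ (by positivity)
          exact h2.trans (h5.trans (mul_le_mul_of_nonneg_left h6 U0.le))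
      _ = _ := by ring

/-- **Upper bound for two sets.** -/
theorem cont_upper (g : GD T e L K κ k) {A B : Finset Vtx} (hAT : ∀ u ∈ A, u ∈ T)
    (hBT : ∀ u ∈ B, u ∈ T) {a b : Vtx} {r s D : ℕ} (hA : Rd A a r) (hB : Rd B b s) (hD : 1 ≤ D)
    (hab : ∀ u ∈ A, ∀ v ∈ B, D ≤ sd u v) :
    κ ^ 2 * ((e a r * e b s) * Pr P (ES T) (Jn A B)) ≤
      UK K k ^ 10 * (e a (max r D) * e b (max s D)) := by
  have hK := g.hK
  have κ0 := g.κ0
  have κ1 := g.κ1
  have U1 := g.U1
  have U0 : 0 < UK K k := by linarith
  have haT := hAT a hA.mem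
  have hbT := hBT b hB.mem
  have hr := hA.one
  have hs := hB.one
  have p1 := g.pos haT hr
  have p2 := g.pos hbT hs
  have p3 := g.pos haT (n := max r D) (by omega)
  have p4 := g.pos hbT (n := max s D) (by omega)
  have j0 : 0 ≤ Pr P (ES T) (Jn A B) := Pr_nonneg okP _ _
  have j1 : Pr P (ES T) (Jn A B) ≤ 1 := Pr_le_one okP _ _
  have hκ2 : κ ^ 2 ≤ 1 := pow_le_one₀ κ0.le κ1
  have hKK : 1 ≤ K * K := Nat.mul_le_mul hK hK
  have h16 : ∀ n : ℕ, 16 * n ≤ 16 * K * K * n := fun n => Nat.mul_le_mul_right n (by nlinarith)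
  set n := (D - 1) / 2 with hn
  -- one-sided bounds
  have one_b : Pr P (ES T) (Jn A B) ≤ xT T b s D := by
    apply Pr_mono okP
    rintro F hF ⟨u, hu, v, hv, huv⟩
    exact ⟨v, hBT v hv, u, hB.le v hv, hab u hu b hB.mem, huv.symm⟩
  have one_a : Pr P (ES T) (Jn A B) ≤ xT T a r D := by
    apply Pr_mono okP
    rintro F hF ⟨u, hu, v, hv, huv⟩
    refine ⟨u, hAT u hu, v, hA.le u hu, ?_, huv⟩
    rw [sd_comm]
    exact hab a hA.mem v hv
  by_cases hra : r ≤ n
  · by_cases hsb : s ≤ n
    · -- both are small
      have hn1 : 1 ≤ n := by omega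
      have h2n : 2 * n + 1 ≤ D := by omega
      have hd : Disjoint (bT T a n \ bT T a r) (bT T b n \ bT T b s) := by
        refine Finset.disjoint_of_subset_left Finset.sdiff_subset
          (Finset.disjoint_of_subset_right Finset.sdiff_subset (bT_disj ?_))
        have := hab a hA.mem b hB.mem
        omega
      have h1 := indep2 (ES T) _ _ hd (CxL_inc T a r n) (CxL_inc T b s n) (CxL_loc T a r n)
        (CxL_loc T b s n)
      have h2 : Pr P (ES T) (Jn A B) ≤ xT T a r n * xT T b s n := by
        refine le_trans (Pr_mono okP ?_) (h1.trans (mul_le_mul (pr_CxL_le T a r n)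
          (pr_CxL_le T b s n) (Pr_nonneg okP _ _) (xT_nonneg T a r n)))
        rintro F hF ⟨u, hu, v, hv, huv⟩
        constructor
        · refine Cx_loc hF hra ⟨u, hAT u hu, v, hA.le u hu, ?_, huv⟩
          have := hab a hA.mem v hv
          rw [sd_comm] at this
          omega
        · refine Cx_loc hF hsb ⟨v, hBT v hv, u, hB.le v hv, ?_, huv.symm⟩
          have := hab u hu b hB.mem
          omega
      have h3 := g.cross_bd haT hr hn1
      have h4 := g.cross_bd hbT hs hn1
      have h5 := g.near haT (n := n) (m := max r D) hn1 (by omega) (by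
        have := h16 n
        omega)
      have h6 := g.near hbT (n := n) (m := max s D) hn1 (by omega) (by
        have := h16 n
        omega)
      have x1 := xT_nonneg T a r n
      have x2 := xT_nonneg T b s n
      have q1 := g.pos haT hn1
      have q2 := g.pos hbT hn1
      calc κ ^ 2 * ((e a r * e b s) * Pr P (ES T) (Jn A B))
          ≤ κ ^ 2 * ((e a r * e b s) * (xT T a r n * xT T b s n)) := by
            apply mul_le_mul_of_nonneg_left _ (by positivity)
            exact mul_le_mul_of_nonneg_left h2 (by positivity)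
        _ = (κ * (e a r * xT T a r n)) * (κ * (e b s * xT T b s n)) := by ring
        _ ≤ (UK K k ^ 4 * (UK K k * e a (max r D))) * (UK K k ^ 4 * (UK K k * e b (max s D))) := by
            apply mul_le_mul (h3.trans (mul_le_mul_of_nonneg_left h5 (by positivity)))
              (h4.trans (mul_le_mul_of_nonneg_left h6 (by positivity))) (by positivity)
              (by positivity)
        _ = _ := by ring
    · -- `A` small, `B` large
      have h1 := g.cross_bd haT hr hD
      have h2 := g.near haT (n := D) (m := max r D) hD (by omega) (by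
        have := h16 D
        omega)
      have h3 := g.near hbT (n := s) (m := max s D) hs (by omega) (by
        have := h16 s
        omega)
      have x1 := xT_nonneg T a r D
      calc κ ^ 2 * ((e a r * e b s) * Pr P (ES T) (Jn A B))
          ≤ κ ^ 2 * ((e a r * e b s) * xT T a r D) := by
            apply mul_le_mul_of_nonneg_left _ (by positivity)
            exact mul_le_mul_of_nonneg_left one_a (by positivity)
        _ = κ * (e b s * (κ * (e a r * xT T a r D))) := by ring
        _ ≤ 1 * ((UK K k * e b (max s D)) * (UK K k ^ 4 * (UK K k * e a (max r D)))) := by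
            apply mul_le_mul κ1 _ (by positivity) zero_le_one
            apply mul_le_mul h3 _ (by positivity) (by positivity)
            exact h1.trans (mul_le_mul_of_nonneg_left h2 (by positivity))
        _ = UK K k ^ 6 * (e a (max r D) * e b (max s D)) := by ring
        _ ≤ _ := by
            apply mul_le_mul_of_nonneg_right _ (by positivity)
            exact pow_le_pow_right₀ U1 (by norm_num)
  · have h3 := g.near haT (n := r) (m := max r D) hr (by omega) (by
      have := h16 r
      omega)
    by_cases hsb : s ≤ n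
    · -- `A` large, `B` small
      have h1 := g.cross_bd hbT hs hD
      have h2 := g.near hbT (n := D) (m := max s D) hD (by omega) (by
        have := h16 D
        omega)
      have x1 := xT_nonneg T b s D
      calc κ ^ 2 * ((e a r * e b s) * Pr P (ES T) (Jn A B))
          ≤ κ ^ 2 * ((e a r * e b s) * xT T b s D) := by
            apply mul_le_mul_of_nonneg_left _ (by positivity)
            exact mul_le_mul_of_nonneg_left one_b (by positivity)
        _ = κ * (e a r * (κ * (e b s * xT T b s D))) := by ring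
        _ ≤ 1 * ((UK K k * e a (max r D)) * (UK K k ^ 4 * (UK K k * e b (max s D)))) := by
            apply mul_le_mul κ1 _ (by positivity) zero_le_one
            apply mul_le_mul h3 _ (by positivity) (by positivity)
            exact h1.trans (mul_le_mul_of_nonneg_left h2 (by positivity))
        _ = UK K k ^ 6 * (e a (max r D) * e b (max s D)) := by ring
        _ ≤ _ := by
            apply mul_le_mul_of_nonneg_right _ (by positivity)
            exact pow_le_pow_right₀ U1 (by norm_num)
    · -- both are large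
      have h4 := g.near hbT (n := s) (m := max s D) hs (by omega) (by
        have := h16 s
        omega)
      calc κ ^ 2 * ((e a r * e b s) * Pr P (ES T) (Jn A B))
          ≤ 1 * ((e a r * e b s) * 1) := by
            apply mul_le_mul hκ2 _ (by positivity) zero_le_one
            exact mul_le_mul_of_nonneg_left j1 (by positivity)
        _ = e a r * e b s := by ring
        _ ≤ (UK K k * e a (max r D)) * (UK K k * e b (max s D)) :=
            mul_le_mul h3 h4 p2.le (by positivity)
        _ = UK K k ^ 2 * (e a (max r D) * e b (max s D)) := by ring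
        _ ≤ _ := by
            apply mul_le_mul_of_nonneg_right _ (by positivity)
            exact pow_le_pow_right₀ U1 (by norm_num)

/-- the seed of the connection: the set `A` reaches the distance `N` -/
theorem seed (g : GD T e L K κ k) {A : Finset Vtx} (hAT : ∀ u ∈ A, u ∈ T) (hAc : Ct A) {a : Vtx}
    {r D N : ℕ} (hA : Rd A a r) (hD : 1 ≤ D) (hN1 : 1 ≤ N) (hNL : N ≤ (2 * K + 2) * L)
    (hKN : K * min D L ≤ N) (hNa : min N L ≤ 16 * K * K * min D L) :
    κ * e a (max r D) ≤ UK K k ^ 4 * (e a r * Pr P (ES T) (Wt T A a (min D L) N)) := by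
  have hK := g.hK
  have hL := g.hL
  have κ0 := g.κ0
  have κ1 := g.κ1
  have U1 := g.U1
  have U0 : 0 < UK K k := by linarith
  have haT := hAT a hA.mem
  have hr := hA.one
  have p1 := g.pos haT hr
  have p3 := g.pos haT (n := max r D) (by omega)
  have p4 := g.pos haT hD
  have hKK : 1 ≤ K * K := Nat.mul_le_mul hK hK
  have hm1 : 1 ≤ min D L := by omega
  have x1 := g.e_le haT hN1 hNL
  have x2 := g.near haT (n := D) (m := N) hD hN1 (hNa.trans
    (Nat.mul_le_mul_left _ (min_le_left _ _)))
  have b1 := aT_nonneg T a N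
  have w0 : 0 ≤ Pr P (ES T) (Wt T A a (min D L) N) := Pr_nonneg okP _ _
  by_cases hsm : min (min D r) L < 2 * K
  · -- bounded scales
    have key : e a (max r D) ≤ UK K k ^ 2 * (e a D * e a r) := by
      by_cases h : min D L < 2 * K
      · have h1 := g.near haT (n := 1) (m := D) le_rfl hD (by nlinarith)
        rw [g.one a haT] at h1
        have h2 := g.anti haT (n := r) (m := max r D) hr (le_max_left _ _)
        calc e a (max r D) ≤ UK K k * e a r := h2
          _ = 1 * (UK K k * e a r) := (one_mul _).symm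
          _ ≤ (UK K k * e a D) * (UK K k * e a r) := mul_le_mul_of_nonneg_right h1 (by positivity)
          _ = _ := by ring
      · have h1 := g.near haT (n := 1) (m := r) le_rfl hr (by
          have : min r L < 2 * K := by omega
          nlinarith)
        rw [g.one a haT] at h1
        have h2 := g.anti haT (n := D) (m := max r D) hD (le_max_right _ _)
        calc e a (max r D) ≤ UK K k * e a D := h2
          _ = 1 * (UK K k * e a D) := (one_mul _).symm
          _ ≤ (UK K k * e a r) * (UK K k * e a D) := mul_le_mul_of_nonneg_right h1 (by positivity)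
          _ = _ := by ring
    have h3 : aT T a N ≤ Pr P (ES T) (Wt T A a (min D L) N) := by
      apply Pr_mono okP
      rintro F hF ⟨v, hv, hav⟩
      exact ⟨a, hA.mem, a, haT, v, by rw [sd_self]; omega, hv, Reach.refl _ _, hav⟩
    calc κ * e a (max r D) ≤ 1 * (UK K k ^ 2 * ((UK K k * (UK K k * aT T a N)) * e a r)) := by
          apply mul_le_mul κ1 _ p3.le zero_le_one
          refine key.trans (mul_le_mul_of_nonneg_left ?_ (by positivity))
          exact mul_le_mul_of_nonneg_right (x2.trans (mul_le_mul_of_nonneg_left x1 U0.le)) p1.le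
      _ = UK K k ^ 4 * (e a r * aT T a N) := by ring
      _ ≤ _ := by
          apply mul_le_mul_of_nonneg_left _ (by positivity)
          exact mul_le_mul_of_nonneg_left h3 p1.le
  · push Not at hsm
    have hfar : ∃ a' ∈ A, r ≤ 2 * sd a' a := by
      rcases hA.far with h | h
      · omega
      · exact h
    obtain ⟨a', ha', hfar⟩ := hfar
    set m := min (min D r) L with hm
    set q := m / (2 * K) with hq
    have hq1 : 1 ≤ q := (Nat.one_le_div_iff (by omega)).mpr hsm
    have hqm : 2 * K * q ≤ m := Nat.mul_div_le m (2 * K)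
    have hqm2 : m < 2 * K * q + 2 * K := by
      have h9 := Nat.div_add_mod m (2 * K)
      have h10 := Nat.mod_lt m (show 0 < 2 * K by omega)
      rw [← hq] at h9
      omega
    have h2Kq : 2 * (K * q) = 2 * K * q := by ring
    have hKq : K * q ≤ sd a' a := by omega
    have hqK : q ≤ K * q := by nlinarith
    have hm4 : m ≤ 16 * K * K * q := by
      have h1 : 2 * K * q + 2 * K ≤ 4 * K * q := by nlinarith
      have h2 : 4 * K * q ≤ 16 * K * K * q := by
        apply Nat.mul_le_mul_right
        nlinarith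
      omega
    have hKqN : K * q ≤ N := by
      have : K * q ≤ min D L := by omega
      have : min D L ≤ K * min D L := by nlinarith
      omega
    have s1 := aT_split (T := T) haT (r := q) (n := N) (by omega)
    have s2 := g.a_le haT hq1 (by
      have : L ≤ (2 * K + 2) * L := by nlinarith
      omega)
    have b3 := xT_nonneg T a q N
    have b4 := aT_nonneg T a q
    have e5 := g.pos haT hq1
    have key : e a (max r D) ≤ UK K k ^ 4 * (xT T a q N * e a r) := by
      have t1 : e a D ≤ UK K k ^ 3 * (e a q * xT T a q N) := by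
        calc e a D ≤ UK K k * (UK K k * aT T a N) := x2.trans (mul_le_mul_of_nonneg_left x1 U0.le)
          _ ≤ UK K k * (UK K k * ((UK K k * e a q) * xT T a q N)) := by
              apply mul_le_mul_of_nonneg_left _ U0.le
              apply mul_le_mul_of_nonneg_left _ U0.le
              exact s1.trans (mul_le_mul_of_nonneg_right s2 b3)
          _ = _ := by ring
      rcases le_total r D with h | h
      · have t2 := g.near haT (n := q) (m := r) hq1 hr (by
          have : min r L ≤ m := by omega
          omega)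
        rw [max_eq_right h]
        calc e a D ≤ UK K k ^ 3 * (e a q * xT T a q N) := t1
          _ ≤ UK K k ^ 3 * ((UK K k * e a r) * xT T a q N) := by
              apply mul_le_mul_of_nonneg_left _ (by positivity)
              exact mul_le_mul_of_nonneg_right t2 b3
          _ = _ := by ring
      · have t2 := g.near haT (n := q) (m := D) hq1 hD (by
          have : min D L ≤ m := by omega
          omega)
        rw [max_eq_left h]
        have t3 : e a D * 1 ≤ e a D * (UK K k ^ 4 * xT T a q N) := by
          calc e a D * 1 = e a D := mul_one _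
            _ ≤ UK K k ^ 3 * (e a q * xT T a q N) := t1
            _ ≤ UK K k ^ 3 * ((UK K k * e a D) * xT T a q N) := by
                apply mul_le_mul_of_nonneg_left _ (by positivity)
                exact mul_le_mul_of_nonneg_right t2 b3
            _ = _ := by ring
        have t4 := le_of_mul_le_mul_left t3 p4
        calc e a r = 1 * e a r := (one_mul _).symm
          _ ≤ (UK K k ^ 4 * xT T a q N) * e a r := mul_le_mul_of_nonneg_right t4 p1.le
          _ = _ := by ring
    have i1 := fkg (BL_incr (ES T) T a q (K * q)) (Cx_incr (ES T) T a q N) b3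
      (g.blk a haT q hq1 (by omega)) (le_refl (xT T a q N))
    have i2 : κ * xT T a q N ≤ Pr P (ES T) (Wt T A a (min D L) N) := by
      refine i1.trans (Pr_mono okP ?_)
      rintro F hF ⟨⟨z, hz⟩, u, hu0, w, hu, hw, huw⟩
      obtain ⟨a0, ha0, hza⟩ := hz.cont hAT hA.mem ha' (hAc a hA.mem a' ha') (by rw [sd_self]; omega)
        hKq
      have m3 := hz.meet hF hu0 hu (by omega) huw
      exact ⟨a0, ha0, u, hu0, w, by omega, hw, hza.symm.trans m3, huw⟩
    calc κ * e a (max r D) ≤ κ * (UK K k ^ 4 * (xT T a q N * e a r)) :=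
          mul_le_mul_of_nonneg_left key κ0.le
      _ = UK K k ^ 4 * (e a r * (κ * xT T a q N)) := by ring
      _ ≤ _ := by
          apply mul_le_mul_of_nonneg_left _ (by positivity)
          exact mul_le_mul_of_nonneg_left i2 p1.le

/-- **Lower bound for two sets.** -/
theorem cont_lower (g : GD T e L K κ k) {A B : Finset Vtx} (hAT : ∀ u ∈ A, u ∈ T)
    (hBT : ∀ u ∈ B, u ∈ T) (hAc : Ct A) (hBc : Ct B) {a b : Vtx} {r s D : ℕ} (hA : Rd A a r)
    (hB : Rd B b s) (hD : 1 ≤ D) (hab : sd a b = D) :
    κ ^ 3 * (e a (max r D) * e b (max s D)) ≤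
      UK K k ^ 8 * ((e a r * e b s) * Pr P (ES T) (Jn A B)) := by
  have κ0 := g.κ0
  have U1 := g.U1
  have U0 : 0 < UK K k := by linarith
  have haT := hAT a hA.mem
  have hbT := hBT b hB.mem
  have p1 := g.pos haT hA.one
  have p2 := g.pos hbT hB.one
  have p3 := g.pos haT (n := max r D) (by omega)
  have p4 := g.pos hbT (n := max s D) (by omega)
  obtain ⟨Z, N, hZi, hZp, hN1, hNL, hKN, hNa, hZ⟩ := g.zev hbT haT hD hab
  have s1 := g.seed hAT hAc hA hD hN1 hNL hKN hNa
  have s2 := g.seed hBT hBc hB hD hN1 hNL hKN hNa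
  have w1 : 0 ≤ Pr P (ES T) (Wt T A a (min D L) N) := Pr_nonneg okP _ _
  have w2 : 0 ≤ Pr P (ES T) (Wt T B b (min D L) N) := Pr_nonneg okP _ _
  have i1 := fkg hZi (Wt_incr (ES T) T A a (min D L) N) w1 hZp le_rfl
  have i2 := fkg (incr_and hZi (Wt_incr (ES T) T A a (min D L) N))
    (Wt_incr (ES T) T B b (min D L) N) w2 i1 le_rfl
  have i3 : κ * Pr P (ES T) (Wt T A a (min D L) N) * Pr P (ES T) (Wt T B b (min D L) N) ≤
      Pr P (ES T) (Jn A B) := by
    refine i2.trans (Pr_mono okP ?_)
    rintro F hF ⟨⟨k1, a0, ha0, u, hu0, v, hu, hv, h1, h2⟩, b0, hb0, u', hu0', v', hu', hv', h3, h4⟩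
    obtain ⟨z, hz⟩ := hZ F hF k1
    have m1 := hz a (Or.inr rfl) u hu0 v hu hv h2
    have m2 := hz b (Or.inl rfl) u' hu0' v' hu' hv' h4
    exact ⟨a0, ha0, b0, hb0, h1.trans (m1.symm.trans (m2.trans h3.symm))⟩
  generalize Pr P (ES T) (Wt T A a (min D L) N) = W1 at *
  generalize Pr P (ES T) (Wt T B b (min D L) N) = W2 at *
  calc κ ^ 3 * (e a (max r D) * e b (max s D)) =
        κ * ((κ * e a (max r D)) * (κ * e b (max s D))) := by ring
    _ ≤ κ * ((UK K k ^ 4 * (e a r * W1)) * (UK K k ^ 4 * (e b s * W2))) := by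
        apply mul_le_mul_of_nonneg_left _ κ0.le
        exact mul_le_mul s1 s2 (by positivity) (by positivity)
    _ = UK K k ^ 8 * ((e a r * e b s) * (κ * W1 * W2)) := by ring
    _ ≤ _ := by
        apply mul_le_mul_of_nonneg_left _ (by positivity)
        exact mul_le_mul_of_nonneg_left i3 (by positivity)

/-- **The connection probability of two connected sets.** -/
theorem cont (g : GD T e L K κ k) {A B : Finset Vtx} (hAT : ∀ u ∈ A, u ∈ T)
    (hBT : ∀ u ∈ B, u ∈ T) (hAc : Ct A) (hBc : Ct B) {a b : Vtx} {r s D : ℕ} (hA : Rd A a r)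
    (hB : Rd B b s) (hD : 1 ≤ D) (hab : sd a b = D) (hmin : ∀ u ∈ A, ∀ v ∈ B, D ≤ sd u v) :
    Cmp (UK K k ^ 10 * (κ ^ 3)⁻¹) (Pr P (ES T) (Jn A B))
      ((e a (max r D) / e a r) * (e b (max s D) / e b s)) := by
  have κ0 := g.κ0
  have κ1 := g.κ1
  have U1 := g.U1
  have U0 : 0 < UK K k := by linarith
  have haT := hAT a hA.mem
  have hbT := hBT b hB.mem
  have p1 := g.pos haT hA.one
  have p2 := g.pos hbT hB.one
  have p3 := g.pos haT (n := max r D) (by omega)
  have p4 := g.pos hbT (n := max s D) (by omega)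
  have h1 := g.cont_upper hAT hBT hA hB hD hmin
  have h2 := g.cont_lower hAT hBT hAc hBc hA hB hD hab
  have j0 : 0 ≤ Pr P (ES T) (Jn A B) := Pr_nonneg okP _ _
  have hκ3 : κ ^ 3 ≤ κ ^ 2 := by
    calc κ ^ 3 = κ ^ 2 * κ := by ring
      _ ≤ κ ^ 2 * 1 := mul_le_mul_of_nonneg_left κ1 (by positivity)
      _ = _ := by ring
  have hκ3' : κ ^ 3 ≤ 1 := pow_le_one₀ κ0.le κ1
  have hU8 : UK K k ^ 8 ≤ UK K k ^ 10 := pow_le_pow_right₀ U1 (by norm_num)
  generalize Pr P (ES T) (Jn A B) = J at *
  generalize e a r = A1 at *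
  generalize e b s = B1 at *
  generalize e a (max r D) = A2 at *
  generalize e b (max s D) = B2 at *
  generalize UK K k = U at *
  have hC : 1 ≤ U ^ 10 * (κ ^ 3)⁻¹ := by
    rw [← div_eq_mul_inv, one_le_div (by positivity)]
    exact hκ3'.trans (one_le_pow₀ U1)
  have key : κ ^ 3 * (A2 * B2) ≤ U ^ 10 * ((A1 * B1) * J) :=
    h2.trans (mul_le_mul_of_nonneg_right hU8 (by positivity))
  have hJ : 0 < J := by
    by_contra hcon
    have hJ0 : J = 0 := le_antisymm (not_lt.mp hcon) j0
    rw [hJ0, mul_zero, mul_zero] at key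
    have : 0 < κ ^ 3 * (A2 * B2) := by positivity
    linarith
  have key2 : κ ^ 3 * ((A1 * B1) * J) ≤ U ^ 10 * (A2 * B2) :=
    le_trans (mul_le_mul_of_nonneg_right hκ3 (by positivity)) h1
  refine ⟨hC, hJ, by positivity, ?_, ?_⟩
  · rw [div_mul_div_comm, ← mul_div_assoc, le_div_iff₀ (by positivity)]
    have e1 : J * (A1 * B1) = (κ ^ 3)⁻¹ * (κ ^ 3 * ((A1 * B1) * J)) := by
      field_simp
    rw [e1]
    calc (κ ^ 3)⁻¹ * (κ ^ 3 * ((A1 * B1) * J)) ≤ (κ ^ 3)⁻¹ * (U ^ 10 * (A2 * B2)) :=
          mul_le_mul_of_nonneg_left key2 (by positivity)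
      _ = _ := by ring
  · rw [div_mul_div_comm, div_le_iff₀ (by positivity)]
    have e1 : A2 * B2 = (κ ^ 3)⁻¹ * (κ ^ 3 * (A2 * B2)) := by
      field_simp
    rw [e1]
    calc (κ ^ 3)⁻¹ * (κ ^ 3 * (A2 * B2)) ≤ (κ ^ 3)⁻¹ * (U ^ 10 * ((A1 * B1) * J)) :=
          mul_le_mul_of_nonneg_left key (by positivity)
      _ = _ := by ring

end GD

end Pool.Agent.J6H18.GD
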