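import Pool.Agent.J6H18.GD.Ana

/-!
Conformal images of the disc with controlled distortion, and their two-point functions.
-/

set_option autoImplicit false

namespace Pool.Agent.J6H18.GD

open TH976 (Cmp E EH E_eq_EH E_pos EH_pos gH pull cayi UH Conf pull_conf)
open Complex Set Metric Filter Topology
open Pool.Agent.Y989.SD (disc mem_disc)

/-- distance to the boundary curve -/
noncomputable def bd (f : ℂ → ℂ) (z : ℂ) : ℝ := infDist z (f '' sphere 0 1)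

/-- `f` maps the closed disc onto a closed domain; `b` is the size of the derivative of the
inverse map. -/
structure DM (f : ℂ → ℂ) (b : ℂ → ℝ) (C : ℝ) : Prop where
  C1 : 1 ≤ C
  cont : ContinuousOn f disc
  diff : DifferentiableOn ℂ f (ball 0 1)
  up : ∀ ζ ∈ disc, ∀ ω ∈ disc, ‖ζ - ω‖ ≤ C * (‖f ζ - f ω‖ * (b (f ζ) + ‖f ζ - f ω‖))
  lo : ∀ ζ ∈ disc, ∀ ω ∈ disc, ‖f ζ - f ω‖ * (b (f ζ) + ‖f ζ - f ω‖) ≤ C * ‖ζ - ω‖
  blip : ∀ ζ ∈ disc, ∀ ω ∈ disc, b (f ζ) ≤ b (f ω) + ‖f ζ - f ω‖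
  sb : ∀ ζ ∈ disc, bd f (f ζ) ≤ b (f ζ)

theorem sphere_disc : sphere (0 : ℂ) 1 ⊆ disc := sphere_subset_closedBall

theorem ball_disc : ball (0 : ℂ) 1 ⊆ disc := ball_subset_closedBall

theorem bd_nonneg (f : ℂ → ℂ) (z : ℂ) : 0 ≤ bd f z := infDist_nonneg

theorem bd_le {f : ℂ → ℂ} {ω : ℂ} (hω : ‖ω‖ = 1) (z : ℂ) : bd f z ≤ ‖z - f ω‖ := by
  rw [← dist_eq_norm]
  exact infDist_le_dist_of_mem (mem_image_of_mem f (by simpa using hω))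

theorem bd_lip (f : ℂ → ℂ) (z w : ℂ) : bd f z ≤ bd f w + ‖z - w‖ := by
  rw [← dist_eq_norm]
  exact infDist_le_infDist_add_dist

namespace DM
variable {f : ℂ → ℂ} {b : ℂ → ℝ} {C : ℝ}

theorem C0 (h : DM f b C) : 0 < C := lt_of_lt_of_le one_pos h.C1

theorem inj (h : DM f b C) : InjOn f disc := by
  intro ζ hζ ω hω he
  have h1 := h.up ζ hζ ω hω
  rw [he, sub_self, norm_zero, zero_mul, mul_zero] at h1
  exact sub_eq_zero.mp (norm_le_zero_iff.mp h1)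

theorem b0 (h : DM f b C) {ζ : ℂ} (hζ : ζ ∈ disc) : 0 ≤ b (f ζ) :=
  (bd_nonneg f _).trans (h.sb ζ hζ)

theorem attain (h : DM f b C) (z : ℂ) : ∃ ω : ℂ, ‖ω‖ = 1 ∧ bd f z = ‖z - f ω‖ := by
  have hc : IsCompact (f '' sphere (0 : ℂ) 1) :=
    (isCompact_sphere 0 1).image_of_continuousOn (h.cont.mono sphere_disc)
  have hne : (f '' sphere (0 : ℂ) 1).Nonempty := ⟨f 1, mem_image_of_mem f (by simp)⟩
  obtain ⟨y, ⟨ω, hω, rfl⟩, hy⟩ := hc.exists_infDist_eq_dist hne z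
  exact ⟨ω, by simpa using hω, by rw [bd, hy, dist_eq_norm]⟩

theorem bd_pos (h : DM f b C) {ζ : ℂ} (hζ : ‖ζ‖ < 1) : 0 < bd f (f ζ) := by
  obtain ⟨ω, hω, he⟩ := h.attain (f ζ)
  rw [he, norm_pos_iff, sub_ne_zero]
  intro h1
  have := h.inj (mem_disc.mpr hζ.le) (mem_disc.mpr hω.le) h1
  rw [this, hω] at hζ
  exact lt_irrefl _ hζ

theorem b_pos (h : DM f b C) {ζ : ℂ} (hζ : ‖ζ‖ < 1) : 0 < b (f ζ) :=
  lt_of_lt_of_le (h.bd_pos hζ) (h.sb ζ (mem_disc.mpr hζ.le))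

/-- distances -/
theorem A1 (h : DM f b C) {ζ ω : ℂ} (hζ : ‖ζ‖ < 1) (hω : ω ∈ disc) (hne : ζ ≠ ω) :
    Cmp C (‖f ζ - f ω‖ * (b (f ζ) + ‖f ζ - f ω‖)) ‖ζ - ω‖ := by
  have hζ' := mem_disc.mpr hζ.le
  have h1 : 0 < ‖f ζ - f ω‖ := by
    rw [norm_pos_iff, sub_ne_zero]
    exact fun he => hne (h.inj hζ' hω he)
  have h2 : 0 < ‖ζ - ω‖ := norm_pos_iff.mpr (sub_ne_zero.mpr hne)
  have h3 := h.b_pos hζ
  exact ⟨h.C1, by positivity, h2, h.lo ζ hζ' ω hω, h.up ζ hζ' ω hω⟩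

/-- distance to the boundary -/
theorem A2 (h : DM f b C) {ζ : ℂ} (hζ : ‖ζ‖ < 1) :
    Cmp (2 * C) (bd f (f ζ) * b (f ζ)) (1 - ‖ζ‖) := by
  have hζ' := mem_disc.mpr hζ.le
  have C0 := h.C0
  have s0 := h.bd_pos hζ
  have b0 := h.b_pos hζ
  have sb := h.sb ζ hζ'
  have h1 : 0 < 1 - ‖ζ‖ := by linarith
  refine ⟨by linarith [h.C1], by positivity, h1, ?_, ?_⟩
  · -- the radial projection
    obtain ⟨ω, hω, hd⟩ : ∃ ω : ℂ, ‖ω‖ = 1 ∧ ‖ζ - ω‖ = 1 - ‖ζ‖ := by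
      by_cases h0 : ζ = 0
      · exact ⟨1, by simp, by simp [h0]⟩
      · have hn : 0 < ‖ζ‖ := norm_pos_iff.mpr h0
        refine ⟨((‖ζ‖⁻¹ : ℝ) : ℂ) * ζ, ?_, ?_⟩
        · rw [norm_mul, Complex.norm_real, Real.norm_eq_abs, abs_of_pos (by positivity),
            inv_mul_cancel₀ hn.ne']
        · have e : ζ - ((‖ζ‖⁻¹ : ℝ) : ℂ) * ζ = ((1 - ‖ζ‖⁻¹ : ℝ) : ℂ) * ζ := by
            push_cast
            ring
          have h3 : 1 ≤ ‖ζ‖⁻¹ := by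
            rw [one_le_inv₀ hn]
            exact hζ.le
          rw [e, norm_mul, Complex.norm_real, Real.norm_eq_abs, abs_of_nonpos (by linarith)]
          field_simp
          ring
    have h2 := h.lo ζ hζ' ω (mem_disc.mpr hω.le)
    have h3 := bd_le (f := f) hω (f ζ)
    rw [hd] at h2
    have h4 : bd f (f ζ) * b (f ζ) ≤ ‖f ζ - f ω‖ * (b (f ζ) + ‖f ζ - f ω‖) := by
      have := norm_nonneg (f ζ - f ω)
      nlinarith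
    nlinarith
  · obtain ⟨ω, hω, he⟩ := h.attain (f ζ)
    have h2 := h.up ζ hζ' ω (mem_disc.mpr hω.le)
    rw [← he] at h2
    have h3 : 1 - ‖ζ‖ ≤ ‖ζ - ω‖ := by
      have := norm_sub_norm_le ω ζ
      rw [norm_sub_rev, hω] at this
      exact this
    have h4 : bd f (f ζ) * (b (f ζ) + bd f (f ζ)) ≤ 2 * (bd f (f ζ) * b (f ζ)) := by nlinarith
    calc 1 - ‖ζ‖ ≤ C * (bd f (f ζ) * (b (f ζ) + bd f (f ζ))) := h3.trans h2
      _ ≤ C * (2 * (bd f (f ζ) * b (f ζ))) := mul_le_mul_of_nonneg_left h4 C0.le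
      _ = _ := by ring

theorem hasDeriv (h : DM f b C) {ζ : ℂ} (hζ : ‖ζ‖ < 1) : HasStrictDerivAt f (deriv f ζ) ζ := by
  have h1 : AnalyticAt ℂ f ζ := h.diff.analyticAt (isOpen_ball.mem_nhds (by simpa using hζ))
  exact h1.hasStrictDerivAt

/-- the derivative -/
theorem A3 (h : DM f b C) {ζ : ℂ} (hζ : ‖ζ‖ < 1) :
    1 ≤ C * (b (f ζ) * ‖deriv f ζ‖) ∧ b (f ζ) * ‖deriv f ζ‖ ≤ C := by
  have hζ' := mem_disc.mpr hζ.le
  have h1 := (h.hasDeriv hζ).hasDerivAt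
  have h2 : Tendsto (fun ω => ‖slope f ζ ω‖) (𝓝[≠] ζ) (𝓝 ‖deriv f ζ‖) :=
    (hasDerivAt_iff_tendsto_slope.mp h1).norm
  have h3 : Tendsto (fun ω => ‖f ζ - f ω‖) (𝓝[≠] ζ) (𝓝 0) := by
    have h4 : Tendsto (fun ω => ‖f ζ - f ω‖) (𝓝 ζ) (𝓝 ‖f ζ - f ζ‖) :=
      (tendsto_const_nhds.sub h1.continuousAt.tendsto).norm
    rw [sub_self, norm_zero] at h4
    exact h4.mono_left nhdsWithin_le_nhds
  have h5 : Tendsto (fun ω => C * ((b (f ζ) + ‖f ζ - f ω‖) * ‖slope f ζ ω‖)) (𝓝[≠] ζ)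
      (𝓝 (C * ((b (f ζ) + 0) * ‖deriv f ζ‖))) := ((tendsto_const_nhds.add h3).mul h2).const_mul C
  have h6 : Tendsto (fun ω => ((b (f ζ) + ‖f ζ - f ω‖) * ‖slope f ζ ω‖)) (𝓝[≠] ζ)
      (𝓝 ((b (f ζ) + 0) * ‖deriv f ζ‖)) := (tendsto_const_nhds.add h3).mul h2
  rw [add_zero] at h5 h6
  have h7 : ∀ᶠ ω in 𝓝[≠] ζ, ω ∈ disc ∧ ω ≠ ζ := by
    have h8 : ∀ᶠ ω in 𝓝 ζ, ω ∈ disc := by
      filter_upwards [isOpen_ball.mem_nhds (show ζ ∈ ball (0 : ℂ) 1 by simpa using hζ)] with ω hω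
      exact ball_disc hω
    exact (h8.filter_mono nhdsWithin_le_nhds).and self_mem_nhdsWithin
  have hs : ∀ ω, ω ≠ ζ → ‖slope f ζ ω‖ = ‖f ζ - f ω‖ / ‖ζ - ω‖ := by
    intro ω _
    rw [slope_def_field, norm_div, norm_sub_rev, norm_sub_rev ω]
  constructor
  · refine ge_of_tendsto h5 ?_
    filter_upwards [h7] with ω hω
    have h9 := h.up ζ hζ' ω hω.1
    have h10 : 0 < ‖ζ - ω‖ := norm_pos_iff.mpr (sub_ne_zero.mpr hω.2.symm)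
    rw [hs ω hω.2]
    have e : C * ((b (f ζ) + ‖f ζ - f ω‖) * (‖f ζ - f ω‖ / ‖ζ - ω‖)) =
        C * (‖f ζ - f ω‖ * (b (f ζ) + ‖f ζ - f ω‖)) / ‖ζ - ω‖ := by ring
    rw [e, le_div_iff₀ h10, one_mul]
    exact h9
  · refine le_of_tendsto h6 ?_
    filter_upwards [h7] with ω hω
    have h9 := h.lo ζ hζ' ω hω.1
    have h10 : 0 < ‖ζ - ω‖ := norm_pos_iff.mpr (sub_ne_zero.mpr hω.2.symm)
    rw [hs ω hω.2]
    have e : (b (f ζ) + ‖f ζ - f ω‖) * (‖f ζ - f ω‖ / ‖ζ - ω‖) =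
        (‖f ζ - f ω‖ * (b (f ζ) + ‖f ζ - f ω‖)) / ‖ζ - ω‖ := by ring
    rw [e, div_le_iff₀ h10]
    exact h9

theorem deriv_ne (h : DM f b C) {ζ : ℂ} (hζ : ‖ζ‖ < 1) : deriv f ζ ≠ 0 := by
  intro h0
  have := (h.A3 hζ).1
  rw [h0, norm_zero, mul_zero, mul_zero] at this
  linarith

theorem open_D (h : DM f b C) : IsOpen (f '' ball (0 : ℂ) 1) := by
  rw [isOpen_iff_mem_nhds]
  rintro z ⟨ζ, hζ, rfl⟩
  have hζ' : ‖ζ‖ < 1 := by simpa using hζ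
  have h1 := (h.hasDeriv hζ').map_nhds_eq (h.deriv_ne hζ')
  rw [← h1]
  exact image_mem_map (isOpen_ball.mem_nhds hζ)

/-- the inverse map -/
noncomputable def _root_.Pool.Agent.J6H18.GD.iv (f : ℂ → ℂ) : ℂ → ℂ := Function.invFunOn f disc

theorem iv_eq (h : DM f b C) {ζ : ℂ} (hζ : ζ ∈ disc) : iv f (f ζ) = ζ :=
  h.inj.leftInvOn_invFunOn hζ

theorem iv_deriv (h : DM f b C) {ζ : ℂ} (hζ : ‖ζ‖ < 1) :
    HasDerivAt (iv f) (deriv f ζ)⁻¹ (f ζ) := by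
  have hζ' := mem_disc.mpr hζ.le
  have hD : f '' ball (0 : ℂ) 1 ∈ 𝓝 (f ζ) :=
    h.open_D.mem_nhds (mem_image_of_mem f (by simpa using hζ))
  have e := h.iv_eq hζ'
  refine HasDerivAt.of_local_left_inverse ?_ (by rw [e]; exact (h.hasDeriv hζ).hasDerivAt)
    (h.deriv_ne hζ) ?_
  · -- continuity
    rw [ContinuousAt, tendsto_iff_norm_sub_tendsto_zero]
    have h1 : Tendsto (fun w : ℂ => C * (‖f ζ - w‖ * (b (f ζ) + ‖f ζ - w‖))) (𝓝 (f ζ)) (𝓝 0) := by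
      have h2 : Continuous fun w : ℂ => C * (‖f ζ - w‖ * (b (f ζ) + ‖f ζ - w‖)) := by fun_prop
      have h3 := h2.tendsto (f ζ)
      simpa using h3
    refine squeeze_zero' (Eventually.of_forall fun _ => norm_nonneg _) ?_ h1
    filter_upwards [hD] with w hw
    obtain ⟨ω, hω, rfl⟩ := hw
    have h4 := h.up ζ hζ' ω (ball_disc hω)
    rw [h.iv_eq (ball_disc hω), e, norm_sub_rev]
    exact h4
  · filter_upwards [hD] with w hw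
    obtain ⟨ω, hω, rfl⟩ := hw
    rw [h.iv_eq (ball_disc hω)]

theorem conf_iv (h : DM f b C) : Conf (f '' ball (0 : ℂ) 1) (ball 0 1) (iv f) := by
  refine ⟨?_, ?_, f, h.diff, fun ζ hζ => mem_image_of_mem f hζ, ?_, ?_⟩
  · rintro z ⟨ζ, hζ, rfl⟩
    exact (h.iv_deriv (by simpa using hζ)).differentiableAt.differentiableWithinAt
  · rintro z ⟨ζ, hζ, rfl⟩
    rw [h.iv_eq (ball_disc hζ)]
    exact hζ
  · rintro z ⟨ζ, hζ, rfl⟩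
    rw [h.iv_eq (ball_disc hζ)]
  · intro ζ hζ
    exact h.iv_eq (ball_disc hζ)

/-- the two-point function of the domain -/
theorem pull_eq (h : DM f b C) {u : ℂ → ℂ} (hu : Conf (f '' ball (0 : ℂ) 1) UH u) {ζ ω : ℂ}
    (hζ : ‖ζ‖ < 1) (hω : ‖ω‖ < 1) (hne : ζ ≠ ω) : pull u (f ζ) (f ω) =
      ‖deriv f ζ‖⁻¹ ^ (5 / 48 : ℝ) * ‖deriv f ω‖⁻¹ ^ (5 / 48 : ℝ) * gDs ζ ω := by
  have h1 := pull_conf h.open_D isOpen_ball hu conf_cayi h.conf_iv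
    (mem_image_of_mem f (show ζ ∈ ball (0 : ℂ) 1 by simpa using hζ))
    (mem_image_of_mem f (show ω ∈ ball (0 : ℂ) 1 by simpa using hω))
  rw [(h.iv_deriv hζ).deriv, (h.iv_deriv hω).deriv, h.iv_eq (mem_disc.mpr hζ.le),
    h.iv_eq (mem_disc.mpr hω.le), pull_cayi hζ hω hne, norm_inv, norm_inv] at h1
  exact h1

theorem A3' (h : DM f b C) {ζ : ℂ} (hζ : ‖ζ‖ < 1) : Cmp C (b (f ζ)) ‖deriv f ζ‖⁻¹ := by
  obtain ⟨h1, h2⟩ := h.A3 hζ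
  have h3 : 0 < ‖deriv f ζ‖ := norm_pos_iff.mpr (h.deriv_ne hζ)
  refine ⟨h.C1, h.b_pos hζ, inv_pos.mpr h3, ?_, ?_⟩
  · rw [← div_eq_mul_inv, le_div_iff₀ h3]
    exact h2
  · rw [inv_eq_one_div, div_le_iff₀ h3]
    linarith

/-- one-point covariance -/
theorem one_pt (h : DM f b C) {ζ : ℂ} (hζ : ‖ζ‖ < 1) {δ τ : ℝ} (hδ : 0 < δ)
    (hτ : Cmp C (δ * (b (f ζ) + δ)) τ) :
    Cmp (64 * C ^ 4) (E (bd f (f ζ)) (b (f ζ)) δ)
      (‖deriv f ζ‖⁻¹ ^ (5 / 48 : ℝ) * EH (1 - ‖ζ‖) τ) := by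
  have s0 := h.bd_pos hζ
  have sb := h.sb ζ (mem_disc.mpr hζ.le)
  have C1 := h.C1
  have h1 := E_T1 s0 sb hδ
  have h2 := (h.A3' hζ).rpow (a := 5 / 48) (by norm_num) (by norm_num)
  have h3 := EH_cmp (h.A2 hζ) (hτ.weaken (by linarith))
  exact (h1.trans (h2.mul h3)).weaken (le_of_eq (by ring))

/-- **The two-point function.** -/
theorem two_pt (h : DM f b C) {u : ℂ → ℂ} (hu : Conf (f '' ball (0 : ℂ) 1) UH u) {ζ ω : ℂ}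
    (hζ : ‖ζ‖ < 1) (hω : ‖ω‖ < 1) (hne : ζ ≠ ω) :
    Cmp (12 * (64 * C ^ 4) ^ 2) (E (bd f (f ζ)) (b (f ζ)) ‖f ζ - f ω‖ *
      E (bd f (f ω)) (b (f ω)) ‖f ζ - f ω‖) (pull u (f ζ) (f ω)) := by
  have hf : 0 < ‖f ζ - f ω‖ := by
    rw [norm_pos_iff, sub_ne_zero]
    exact fun he => hne (h.inj (mem_disc.mpr hζ.le) (mem_disc.mpr hω.le) he)
  have t1 := h.A1 hζ (mem_disc.mpr hω.le) hne
  have t2 := h.A1 hω (mem_disc.mpr hζ.le) (Ne.symm hne)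
  rw [norm_sub_rev (f ω), norm_sub_rev ω] at t2
  have h1 := (h.one_pt hζ hf t1).mul (h.one_pt hω hf t2)
  have h2 := gDs_cmp hζ hω hne
  have d1 : 0 < ‖deriv f ζ‖⁻¹ ^ (5 / 48 : ℝ) :=
    Real.rpow_pos_of_pos (inv_pos.mpr (norm_pos_iff.mpr (h.deriv_ne hζ))) _
  have d2 : 0 < ‖deriv f ω‖⁻¹ ^ (5 / 48 : ℝ) :=
    Real.rpow_pos_of_pos (inv_pos.mpr (norm_pos_iff.mpr (h.deriv_ne hω))) _
  have h3 := (Cmp.refl (mul_pos d1 d2)).mul h2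
  rw [h.pull_eq hu hζ hω hne]
  refine ((h1.congr rfl ?_).trans h3).weaken (le_of_eq (by ring))
  ring

end DM

end Pool.Agent.J6H18.GD
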