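import Pool.Agent.J6H18.GD.Smooth
import Pool.Agent.Y989.SD.Fin

/-!
The lattice approximation of a `C^(1,α)` Jordan domain is regular.
-/

set_option autoImplicit false

namespace Pool.Agent.J6H18.GD

open Finset H974 Pool.Agent.H160R2.CV H362P
open Pool.Agent.H160R2.CV.Quad Pool.Agent.H389R2.CD
open TH976 (sd sd_self sd_comm sd_tri sd_pos Ar Ar_incr Cmp fkg incr_and)
open H973 (ES mem_ES EV reach_mem mem_RE_ends mem_RE_of_ends BX mem_BX hline' vline')
open Pool.Agent.Y989.SD (Blk Win QB mem_QB XT VT HT Lp btT SmW pos TD disc cir S_GD GDc)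
open Pool.Agent.Y989.SD.WIN (btT_iff)

/-- a path of `V` from `T` to its complement leaves `T` -/
theorem exit_EV {V : Vtx → Prop} {T : Finset Vtx} {u w : Vtx} (h : Reach (EV V) u w) (hu : u ∈ T)
    (hw : w ∉ T) : ∃ b, V b ∧ b ∈ T ∧ ∃ y, y ∉ T ∧ Adj Set.univ b y := by
  have key : ∀ x, Reach (EV V) u x → x ∈ T ∨ ∃ b, V b ∧ b ∈ T ∧ ∃ y, y ∉ T ∧ Adj Set.univ b y := by
    intro x hx
    induction hx with
    | refl => exact Or.inl hu
    | @tail a b _ hs ih =>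
      rcases ih with ih | ih
      · by_cases hb : b ∈ T
        · exact Or.inl hb
        · right
          obtain ⟨e, he, hc⟩ := hs
          refine ⟨a, ?_, ih, b, hb, ⟨e, trivial, hc⟩⟩
          rcases hc with ⟨h1, h2⟩ | ⟨h1, h2⟩
          · rw [← h1]; exact he.1
          · rw [← h2]; exact he.2
      · exact Or.inr ih
  rcases key w h with h1 | h1
  · exact absurd h1 hw
  · exact h1

/-- two vertices are joined inside any ball which contains the second one -/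
theorem reach_ball (v w : Vtx) (s : ℕ) (h : sd v w ≤ s) :
    Reach (EV fun x => sd v x ≤ s) v w := by
  obtain ⟨v1, v2⟩ := v
  obtain ⟨w1, w2⟩ := w
  have h' := h
  unfold sd at h'
  simp only at h'
  have r1 : Reach (EV fun x => sd (v1, v2) x ≤ s) (v1, v2) (w1, v2) := by
    rcases le_total v1 w1 with h1 | h1
    · exact (hline' (a := v1) (b := w1) (c := v2) (d := v2) h1 le_rfl ⟨le_rfl, le_rfl⟩ le_rfl
        (fun k h2 h3 => by unfold sd; simp only; omega)).mono Set.inter_subset_left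
    · exact ((hline' (V := fun x => sd (v1, v2) x ≤ s) (a := w1) (b := v1) (c := v2) (d := v2) h1
        le_rfl ⟨le_rfl, le_rfl⟩ le_rfl
        (fun k h2 h3 => by unfold sd; simp only; omega)).mono Set.inter_subset_left).symm
  have r2 : Reach (EV fun x => sd (v1, v2) x ≤ s) (w1, v2) (w1, w2) := by
    rcases le_total v2 w2 with h1 | h1
    · exact (vline' (a := w1) (b := w1) (c := v2) (d := w2) h1 le_rfl ⟨le_rfl, le_rfl⟩ le_rfl
        (fun k h2 h3 => by unfold sd; simp only; omega)).mono Set.inter_subset_left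
    · exact ((vline' (V := fun x => sd (v1, v2) x ≤ s) (a := w1) (b := w1) (c := w2) (d := v2) h1
        le_rfl ⟨le_rfl, le_rfl⟩ le_rfl
        (fun k h2 h3 => by unfold sd; simp only; omega)).mono Set.inter_subset_left).symm
  exact r1.trans r2

theorem bt_near {T : Finset Vtx} {v : Vtx} (hv : v ∈ T) : ∃ b, btT T b ∧ sd v b ≤ dc T v := by
  obtain ⟨w, hw, hd⟩ := dc_spec T v
  obtain ⟨b, h1, h2, h3⟩ := exit_EV (reach_ball v w (dc T v) hd.le) hv hw
  exact ⟨b, btT_iff.mpr ⟨h2, h3⟩, h1⟩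

/-- lattice distance and distance -/
theorem sd_pos_le {ε : ℝ} (hε : 0 < ε) (u v : Vtx) : ε * (sd u v : ℝ) ≤ ‖pos ε u - pos ε v‖ := by
  obtain ⟨h1, h2⟩ := Pool.Agent.Y989.SD.AUP.pos_low hε u v
  have e1 : (((u.1 - v.1).natAbs : ℕ) : ℝ) = |(u.1 : ℝ) - v.1| := by
    rw [Nat.cast_natAbs]
    push_cast
    rfl
  have e2 : (((u.2 - v.2).natAbs : ℕ) : ℝ) = |(u.2 : ℝ) - v.2| := by
    rw [Nat.cast_natAbs]
    push_cast
    rfl
  unfold sd
  rw [Nat.cast_max, mul_max_of_nonneg _ _ hε.le, e1, e2]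
  exact max_le h1 h2

theorem pos_le_sd {ε : ℝ} (hε : 0 < ε) (u v : Vtx) :
    ‖pos ε u - pos ε v‖ ≤ 2 * (ε * (sd u v : ℝ)) := by
  have h := Pool.Agent.Y989.SD.AUP.pos_up hε u v
  have e1 : (((u.1 - v.1).natAbs : ℕ) : ℝ) = |(u.1 : ℝ) - v.1| := by
    rw [Nat.cast_natAbs]
    push_cast
    rfl
  have e2 : (((u.2 - v.2).natAbs : ℕ) : ℝ) = |(u.2 : ℝ) - v.2| := by
    rw [Nat.cast_natAbs]
    push_cast
    rfl
  have h1 : |(u.1 : ℝ) - v.1| ≤ (sd u v : ℝ) := by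
    rw [← e1]
    unfold sd
    exact_mod_cast le_max_left _ _
  have h2 : |(u.2 : ℝ) - v.2| ≤ (sd u v : ℝ) := by
    rw [← e2]
    unfold sd
    exact_mod_cast le_max_right _ _
  nlinarith [mul_le_mul_of_nonneg_left h1 hε.le, mul_le_mul_of_nonneg_left h2 hε.le]

theorem near_D {f : ℂ → ℂ} {ε ρ B α : ℝ} (hε : 0 < ε) (h : GDc f ε ρ B α) {v : Vtx}
    (hv : v ∈ TD f ε) : ∃ w, Near (TD f ε) v w ⌊ρ / ε⌋ B α := by
  obtain ⟨-, h2, h3⟩ := h
  obtain ⟨b, hb, hvb⟩ := bt_near hv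
  obtain ⟨θ, hθ⟩ := h3 b hb
  obtain ⟨w, hw, hwθ, hwin⟩ := h2 θ
  refine ⟨w, hwin, ?_⟩
  have h4 : ‖pos ε b - pos ε w‖ ≤ 3 * ε := by
    have e : pos ε b - pos ε w = (pos ε b - f (cir θ)) - (pos ε w - f (cir θ)) := by ring
    rw [e]
    refine (norm_sub_le _ _).trans ?_
    linarith
  have h5 := (sd_pos_le hε b w).trans h4
  have h6 : (sd b w : ℝ) ≤ 3 := by
    by_contra hcon
    push Not at hcon
    nlinarith
  have h7 : sd b w ≤ 3 := by exact_mod_cast h6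
  have h8 := sd_tri v b w
  omega

/-- every point of the domain is close to a vertex of the lattice domain -/
theorem exists_vtx {f : ℂ → ℂ} {ε ρ B α : ℝ} (hε : 0 < ε) (h : GDc f ε ρ B α)
    (hK : IsCompact (f '' disc)) (hint : ∀ w, ‖w‖ < 1 → f w ∈ interior (f '' disc)) {p : ℂ}
    (hp : p ∈ f '' disc) : ∃ v ∈ TD f ε, ‖pos ε v - p‖ ≤ 4 * ε := by
  obtain ⟨h1, h2, h3⟩ := h
  set v0 : Vtx := (⌊p.re / ε⌋, ⌊p.im / ε⌋) with hv0
  have hd : ‖pos ε v0 - p‖ ≤ 2 * ε := by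
    refine (Complex.norm_le_abs_re_add_abs_im _).trans ?_
    have key : ∀ x : ℝ, |ε * (⌊x / ε⌋ : ℝ) - x| ≤ ε := by
      intro x
      have g1 := Int.floor_le (x / ε)
      have g2 := Int.lt_floor_add_one (x / ε)
      rw [le_div_iff₀ hε] at g1
      rw [div_lt_iff₀ hε] at g2
      rw [abs_le]
      constructor <;> nlinarith
    have g1 := key p.re
    have g2 := key p.im
    have e1 : (pos ε v0 - p).re = ε * (⌊p.re / ε⌋ : ℝ) - p.re := rfl
    have e2 : (pos ε v0 - p).im = ε * (⌊p.im / ε⌋ : ℝ) - p.im := rfl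
    rw [e1, e2]
    linarith
  by_cases hm : pos ε v0 ∈ f '' disc
  · exact ⟨v0, (h1 v0).mpr hm, hd.trans (by linarith)⟩
  · obtain ⟨θ, hθ⟩ := Pool.Agent.Y989.SD.GD.seg hK hint hp hm
    obtain ⟨w, hw, hwθ, -⟩ := h2 θ
    refine ⟨w, hw, ?_⟩
    have e : pos ε w - p = (pos ε w - f (cir θ)) - (p - f (cir θ)) := by ring
    rw [e]
    refine (norm_sub_le _ _).trans ?_
    linarith

/-- chains in the lattice domain -/
theorem chn_D {f : ℂ → ℂ} {ρ B α H c : ℝ} (hH : 0 < H) (hc : 0 < c)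
    (hlip : ∀ z ∈ disc, ∀ w ∈ disc, ‖f z - f w‖ ≤ H * ‖z - w‖)
    (hK : IsCompact (f '' disc)) (hint : ∀ w, ‖w‖ < 1 → f w ∈ interior (f '' disc)) :
    ∃ M : ℕ, ∀ ε : ℝ, 0 < ε → ε ≤ c / 200 → GDc f ε ρ B α → Chn (TD f ε) ⌊c / ε⌋₊ M := by
  obtain ⟨m, hm⟩ := exists_nat_gt (16 * H / c)
  have hm0 : 0 < (m : ℝ) := lt_of_le_of_lt (by positivity) hm
  have hmn : 0 < m := by exact_mod_cast hm0
  refine ⟨2 * m, fun ε hε hε1 hG => ?_⟩
  intro u hu v hv
  obtain ⟨zu, hzu, hfu⟩ := (hG.1 u).mp hu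
  obtain ⟨zv, hzv, hfv⟩ := (hG.1 v).mp hv
  set Pt : ℕ → ℂ := fun j => if j ≤ m then (((m - j : ℕ) : ℝ) / m : ℝ) * zu else
    (((j - m : ℕ) : ℝ) / m : ℝ) * zv with hPt
  have hdisc : ∀ z : ℂ, z ∈ disc ↔ ‖z‖ ≤ 1 := fun z => Pool.Agent.Y989.SD.mem_disc
  rw [hdisc] at hzu hzv
  have hPt1 : ∀ j ≤ 2 * m, Pt j ∈ disc := by
    intro j hj
    rw [hdisc, hPt]
    simp only
    split_ifs with h
    · rw [norm_mul, Complex.norm_real, Real.norm_eq_abs, abs_of_nonneg (by positivity)]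
      have : ((m - j : ℕ) : ℝ) / m ≤ 1 := by
        rw [div_le_one hm0]
        exact_mod_cast Nat.sub_le m j
      calc ((m - j : ℕ) : ℝ) / m * ‖zu‖ ≤ 1 * 1 :=
            mul_le_mul this hzu (norm_nonneg _) zero_le_one
        _ = 1 := by norm_num
    · rw [norm_mul, Complex.norm_real, Real.norm_eq_abs, abs_of_nonneg (by positivity)]
      have : ((j - m : ℕ) : ℝ) / m ≤ 1 := by
        rw [div_le_one hm0]
        exact_mod_cast (by omega : j - m ≤ m)
      calc ((j - m : ℕ) : ℝ) / m * ‖zv‖ ≤ 1 * 1 :=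
            mul_le_mul this hzv (norm_nonneg _) zero_le_one
        _ = 1 := by norm_num
  have hstep : ∀ j < 2 * m, ‖Pt j - Pt (j + 1)‖ ≤ 1 / m := by
    intro j hj
    have key : ∀ (a b : ℝ) (z : ℂ), ‖z‖ ≤ 1 → |a - b| ≤ 1 / m → ‖(a : ℂ) * z - (b : ℂ) * z‖ ≤ 1 / m := by
      intro a b z hz hab
      rw [← sub_mul, norm_mul, ← Complex.ofReal_sub, Complex.norm_real, Real.norm_eq_abs]
      calc |a - b| * ‖z‖ ≤ (1 / m) * 1 := mul_le_mul hab hz (norm_nonneg _) (by positivity)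
        _ = 1 / m := mul_one _
    rcases Nat.lt_or_ge j m with h | h
    · have e1 : Pt j = ((((m - j : ℕ) : ℝ) / m : ℝ) : ℂ) * zu := by
        simp only [hPt]; rw [if_pos h.le]
      have e2 : Pt (j + 1) = ((((m - (j + 1) : ℕ) : ℝ) / m : ℝ) : ℂ) * zu := by
        simp only [hPt]; rw [if_pos (by omega)]
      rw [e1, e2]
      apply key _ _ _ hzu
      rw [← sub_div]
      have e3 : (((m - j : ℕ) : ℝ) - ((m - (j + 1) : ℕ) : ℝ)) = 1 := by
        have : m - j = (m - (j + 1)) + 1 := by omega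
        rw [this]
        push_cast
        ring
      rw [e3, abs_of_pos (by positivity)]
    · have e1 : Pt j = ((((j - m : ℕ) : ℝ) / m : ℝ) : ℂ) * zv := by
        rcases Nat.eq_or_lt_of_le h with h1 | h1
        · simp only [hPt]
          rw [if_pos h1.ge, ← h1]
          simp
        · simp only [hPt]
          rw [if_neg (by omega)]
      have e2 : Pt (j + 1) = ((((j + 1 - m : ℕ) : ℝ) / m : ℝ) : ℂ) * zv := by
        simp only [hPt]; rw [if_neg (by omega)]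
      rw [e1, e2]
      apply key _ _ _ hzv
      rw [← sub_div]
      have e3 : (((j - m : ℕ) : ℝ) - ((j + 1 - m : ℕ) : ℝ)) = -1 := by
        have : j + 1 - m = (j - m) + 1 := by omega
        rw [this]
        push_cast
        ring
      rw [e3, abs_div, abs_neg, abs_one, abs_of_pos hm0]
  have hex : ∀ j : ℕ, ∃ x ∈ TD f ε, (j ≤ 2 * m → ‖pos ε x - f (Pt j)‖ ≤ 4 * ε) ∧
      (j = 0 → x = u) ∧ (j = 2 * m → x = v) := by
    intro j
    by_cases h0 : j = 0
    · subst h0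
      refine ⟨u, hu, fun _ => ?_, fun _ => rfl, fun h => by omega⟩
      have e1 : Pt 0 = zu := by
        simp only [hPt]
        rw [if_pos (Nat.zero_le m), Nat.sub_zero, div_self hm0.ne']
        simp
      rw [e1, hfu, sub_self, norm_zero]
      positivity
    · by_cases h1 : j = 2 * m
      · subst h1
        refine ⟨v, hv, fun _ => ?_, fun h => absurd h h0, fun _ => rfl⟩
        have e1 : Pt (2 * m) = zv := by
          simp only [hPt]
          rw [if_neg (by omega)]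
          have : 2 * m - m = m := by omega
          rw [this, div_self hm0.ne']
          simp
        rw [e1, hfv, sub_self, norm_zero]
        positivity
      · by_cases h2 : j ≤ 2 * m
        · obtain ⟨x, hx, hx2⟩ := exists_vtx hε hG hK hint (Set.mem_image_of_mem f (hPt1 j h2))
          exact ⟨x, hx, fun _ => hx2, fun h => absurd h h0, fun h => absurd h h1⟩
        · exact ⟨u, hu, fun h => absurd h h2, fun h => absurd h h0, fun h => absurd h h1⟩
  choose x hxT hx1 hx2 hx3 using hex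
  refine ⟨x, hx2 0 rfl, hx3 _ rfl, hxT, ?_⟩
  intro j hj
  have h1 := hx1 j (by omega)
  have h2 := hx1 (j + 1) (by omega)
  have h3 := hlip _ (hPt1 j (by omega)) _ (hPt1 (j + 1) (by omega))
  have h4 : ‖f (Pt j) - f (Pt (j + 1))‖ ≤ H / m := by
    refine h3.trans ?_
    calc H * ‖Pt j - Pt (j + 1)‖ ≤ H * (1 / m) := mul_le_mul_of_nonneg_left (hstep j hj) hH.le
      _ = H / m := by ring
  have h5 : ‖pos ε (x j) - pos ε (x (j + 1))‖ ≤ H / m + 8 * ε := by
    have e : pos ε (x j) - pos ε (x (j + 1)) = (pos ε (x j) - f (Pt j)) +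
        (f (Pt j) - f (Pt (j + 1))) + -(pos ε (x (j + 1)) - f (Pt (j + 1))) := by ring
    rw [e]
    refine norm_add₃_le.trans ?_
    rw [norm_neg]
    linarith
  have h6 := (sd_pos_le hε (x j) (x (j + 1))).trans h5
  have h7 : H / m ≤ c / 16 := by
    rw [div_lt_iff₀ hc] at hm
    rw [div_le_iff₀ hm0]
    nlinarith
  apply Nat.le_floor
  rw [le_div_iff₀ hε]
  push_cast
  nlinarith

/-- **The lattice approximations of `C^(1,α)` Jordan domains are regular.** -/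
theorem gd_D (hA : ArS) {f g : ℂ → ℂ} {M α : ℝ} (hf : SmW f g M α) : ∃ c ε0 κ k : ℝ, 0 < c ∧
    0 < ε0 ∧ ∀ ε : ℝ, 0 < ε → ε ≤ ε0 → (∀ v : Vtx, v ∈ TD f ε ↔ pos ε v ∈ f '' disc) ∧
      GD (TD f ε) (eS (TD f ε) ⌊c / ε⌋₊) ⌊c / ε⌋₊ 500 κ k := by
  obtain ⟨l, H, hl, hH, hlip, -, -, hK, hint⟩ := Pool.Agent.Y989.SD.m_GA f g M α hf
  obtain ⟨ρ, B, ε0, hρ, hε0, hG⟩ := Pool.Agent.Y989.SD.m_GD f g M α hf
  set c : ℝ := ρ / 40000 with hc
  have hc0 : 0 < c := by positivity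
  obtain ⟨N, hN⟩ := chn_D (ρ := ρ) (B := B) (α := α) hH hc0 (fun z hz w hw => (hlip z hz w hw).2)
    hK hint
  obtain ⟨κ, k, hgd⟩ := gd_S hA (B := B) hf.al0 N
  refine ⟨c, min ε0 (c / 200), κ, k, hc0, lt_min hε0 (by positivity), fun ε hε hε1 => ?_⟩
  have hε2 : ε ≤ ε0 := hε1.trans (min_le_left _ _)
  have hε3 : ε ≤ c / 200 := hε1.trans (min_le_right _ _)
  have hGε : GDc f ε ρ B α := hG ε hε hε2
  refine ⟨hGε.1, hgd (TD f ε) ⌊ρ / ε⌋ ⌊c / ε⌋₊ ?_ ?_ (hN ε hε hε3 hGε)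
    (fun v hv => near_D hε hGε hv)⟩
  · apply Nat.le_floor
    rw [le_div_iff₀ hε]
    push_cast
    linarith
  · rw [Int.le_floor]
    have h1 : (⌊c / ε⌋₊ : ℝ) ≤ c / ε := Nat.floor_le (by positivity)
    push_cast
    rw [le_div_iff₀ hε] at h1 ⊢
    rw [hc] at h1
    nlinarith

end Pool.Agent.J6H18.GD
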