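import Pool.Agent.J6H18.GD.Base

/-!
Regular lattice domains: adding a point to a connected set of vertices.
-/

set_option autoImplicit false

namespace Pool.Agent.J6H18.GD

open Finset H974 Pool.Agent.H160R2.CV H362P
open Pool.Agent.H160R2.CV.Quad
open TH976 (sd sd_self sd_comm sd_tri sd_pos Ar Ar_incr Cmp fkg incr_and Near Diam)
open H973 (ES mem_ES EV reach_mem mem_RE_ends mem_RE_of_ends)
open Pool.Agent.Y989.SD (Blk)

/-- A regular lattice domain `T` with the arm profile `e`, up to the scale `L`: blocking clusters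
exist at every scale, any two macroscopic annuli are blocked by the same cluster, and the one-arm
probabilities are given by the profile. -/
structure GD (T : Finset Vtx) (e : Vtx → ℕ → ℝ) (L K : ℕ) (κ k : ℝ) : Prop where
  hL : 1 ≤ L
  hK : 1 ≤ K
  κ0 : 0 < κ
  κ1 : κ ≤ 1
  blk : ∀ v ∈ T, ∀ r : ℕ, 1 ≤ r → r ≤ L → κ ≤ Pr P (ES T) (BL T v r (K * r))
  mac : ∀ u ∈ T, ∀ v ∈ T, κ ≤ Pr P (ES T)
    (fun F => ∃ z, Bl T u L (K * L) z F ∧ Bl T v L (K * L) z F)
  reg : TH976.Reg (↑T : Set Vtx) e k
  one : ∀ v ∈ T, e v 1 = 1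
  top : ∀ v ∈ T, ∀ n : ℕ, L ≤ n → e v L ≤ k * e v n
  arm : ∀ v ∈ T, ∀ n : ℕ, 1 ≤ n → n ≤ (2 * K + 2) * L → Cmp k (aT T v n) (e v n)

theorem reg_up {D : Set Vtx} {e : Vtx → ℕ → ℝ} {k : ℝ} (h : TH976.Reg D e k) {v : Vtx}
    (hv : v ∈ D) (j : ℕ) : ∀ {n m : ℕ}, 1 ≤ n → 1 ≤ m → m ≤ 3 ^ j * n →
      e v n ≤ k ^ (j + 1) * e v m := by
  have k0 : 0 < k := lt_of_lt_of_le one_pos h.hk
  induction j with
  | zero =>
    intro n m hn hm hmn
    rw [zero_add, pow_one]
    exact h.anti v hv m n hm (by simpa using hmn)
  | succ j ih =>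
    intro n m hn hm hmn
    have h1 := ih (n := 3 * n) (by omega) hm (by
      calc m ≤ 3 ^ (j + 1) * n := hmn
        _ = 3 ^ j * (3 * n) := by ring)
    calc e v n ≤ k * e v (3 * n) := h.dbl v hv n hn
      _ ≤ k * (k ^ (j + 1) * e v m) := mul_le_mul_of_nonneg_left h1 k0.le
      _ = _ := by ring

/-- the comparison constant -/
noncomputable def UK (K : ℕ) (k : ℝ) : ℝ := k ^ (16 * K * K + 2)

namespace GD
variable {T : Finset Vtx} {e : Vtx → ℕ → ℝ} {L K : ℕ} {κ k : ℝ}

theorem k1 (g : GD T e L K κ k) : 1 ≤ k := g.reg.hk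

theorem U1 (g : GD T e L K κ k) : 1 ≤ UK K k := one_le_pow₀ g.k1

theorem kU (g : GD T e L K κ k) : k ≤ UK K k := by
  unfold UK
  calc k = k ^ 1 := (pow_one k).symm
    _ ≤ _ := pow_le_pow_right₀ g.k1 (by omega)

theorem pos (g : GD T e L K κ k) {v : Vtx} (hv : v ∈ T) {n : ℕ} (hn : 1 ≤ n) : 0 < e v n :=
  g.reg.pos v hv n hn

theorem near (g : GD T e L K κ k) {v : Vtx} (hv : v ∈ T) {n m : ℕ} (hn : 1 ≤ n) (hm : 1 ≤ m)
    (h : min m L ≤ 16 * K * K * n) : e v n ≤ UK K k * e v m := by
  have hL := g.hL
  have k0 : 0 < k := lt_of_lt_of_le one_pos g.k1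
  have h3 : 16 * K * K ≤ 3 ^ (16 * K * K) := (Nat.lt_pow_self (by norm_num)).le
  have h1 := reg_up g.reg (v := v) hv (16 * K * K) (n := n) (m := min m L) hn (by omega)
    (h.trans (Nat.mul_le_mul_right n h3))
  have h2 : e v (min m L) ≤ k * e v m := by
    rcases le_total m L with h4 | h4
    · rw [min_eq_left h4]
      have := g.pos hv hm
      nlinarith [g.k1]
    · rw [min_eq_right h4]
      exact g.top v hv m h4
  unfold UK
  calc e v n ≤ k ^ (16 * K * K + 1) * e v (min m L) := h1
    _ ≤ k ^ (16 * K * K + 1) * (k * e v m) := mul_le_mul_of_nonneg_left h2 (by positivity)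
    _ = _ := by ring

theorem anti (g : GD T e L K κ k) {v : Vtx} (hv : v ∈ T) {n m : ℕ} (hn : 1 ≤ n) (h : n ≤ m) :
    e v m ≤ UK K k * e v n := by
  have h1 := g.reg.anti v hv n m hn h
  exact h1.trans (mul_le_mul_of_nonneg_right g.kU (g.pos hv hn).le)

theorem a_le (g : GD T e L K κ k) {v : Vtx} (hv : v ∈ T) {n : ℕ} (hn : 1 ≤ n)
    (h : n ≤ (2 * K + 2) * L) : aT T v n ≤ UK K k * e v n :=
  (g.arm v hv n hn h).l.trans (mul_le_mul_of_nonneg_right g.kU (g.pos hv hn).le)

theorem e_le (g : GD T e L K κ k) {v : Vtx} (hv : v ∈ T) {n : ℕ} (hn : 1 ≤ n)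
    (h : n ≤ (2 * K + 2) * L) : e v n ≤ UK K k * aT T v n :=
  (g.arm v hv n hn h).r.trans (mul_le_mul_of_nonneg_right g.kU (aT_nonneg T v n))

/-- a cluster which connects the surroundings of two points at their distance -/
theorem zev (g : GD T e L K κ k) {x y : Vtx} (hx : x ∈ T) (hy : y ∈ T) {a : ℕ} (ha : 1 ≤ a)
    (hxy : sd y x = a) : ∃ (Z : Finset Edg → Prop) (N : ℕ), IncrE (ES T) Z ∧
      κ ≤ Pr P (ES T) Z ∧ 1 ≤ N ∧ N ≤ (2 * K + 2) * L ∧ K * min a L ≤ N ∧
      min N L ≤ 16 * K * K * min a L ∧ ∀ F ⊆ ES T, Z F → ∃ z, ∀ w, (w = x ∨ w = y) → ∀ u ∈ T,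
        ∀ v : Vtx, sd u w ≤ min a L → N ≤ sd v w → Reach (↑F) u v → Reach (↑F) z u := by
  have hK := g.hK
  have hL := g.hL
  rcases le_or_gt (2 * a) L with h | h
  · refine ⟨BL T x (2 * a) (K * (2 * a)), K * (2 * a) + a, BL_incr _ _ _ _ _,
      g.blk x hx (2 * a) (by omega) h, by omega, ?_, ?_, ?_, ?_⟩
    · nlinarith
    · rw [min_eq_left (by omega : a ≤ L)]
      nlinarith
    · rw [min_eq_left (by omega : a ≤ L)]
      have h1 : K * (2 * a) + a ≤ 16 * K * K * a := by
        have h2 : 1 * a ≤ K * a := Nat.mul_le_mul_right a hK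
        have h3 : 3 * K * a ≤ 16 * K * K * a := Nat.mul_le_mul_right a (by nlinarith)
        have h4 : K * (2 * a) = 2 * (K * a) := by ring
        have h5 : 3 * K * a = 3 * (K * a) := by ring
        omega
      omega
    · rintro F hF ⟨z, hz⟩
      refine ⟨z, ?_⟩
      rintro w (rfl | rfl) u hu v h1 h2 hr
      · exact hz.meet hF hu (by omega) (by omega) hr
      · have t1 := sd_tri u w x
        have t2 := sd_tri v x w
        have t3 := sd_comm x w
        exact hz.meet hF hu (by omega) (by omega) hr
  · refine ⟨fun F => ∃ z, Bl T x L (K * L) z F ∧ Bl T y L (K * L) z F, K * L, ?_,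
      g.mac x hx y hy, ?_, ?_, ?_, ?_, ?_⟩
    · rintro F G hFG - ⟨z, h1, h2⟩
      exact ⟨z, h1.mono hFG, h2.mono hFG⟩
    · nlinarith
    · nlinarith
    · exact Nat.mul_le_mul_left K (min_le_right _ _)
    · have h1 : L ≤ 2 * min a L := by omega
      have h2 : 2 * min a L ≤ 16 * K * K * min a L := by
        apply Nat.mul_le_mul_right
        nlinarith [Nat.mul_le_mul hK hK]
      omega
    · rintro F hF ⟨z, h1, h2⟩
      refine ⟨z, ?_⟩
      rintro w (rfl | rfl) u hu v h3 h4 hr
      · exact h1.meet hF hu (by omega) h4 hr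
      · exact h2.meet hF hu (by omega) h4 hr

/-- upper bound at the nearest point -/
theorem add_upper (g : GD T e L K κ k) {X : Finset Vtx} (hXV : ∀ u ∈ X, u ∈ T) {x y : Vtx}
    (hx : x ∈ T) {a D : ℕ} (hy : y ∈ X) (hxy : sd y x = a) (ha : 1 ≤ a) (hD : 1 ≤ D)
    (hX : ∀ u ∈ X, a ≤ sd u x) (hXD : ∀ u ∈ X, sd u y ≤ D) :
    κ ^ 2 * (e y D * Pr P (ES T) (fun F => Cn (insert x X) (↑F))) ≤
      UK K k ^ 6 * ((e x a * e y (max a D)) * Pr P (ES T) (fun F => Cn X (↑F))) := by
  have hyV := hXV y hy
  have hK := g.hK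
  have hL := g.hL
  have κ0 := g.κ0
  have κ1 := g.κ1
  have U1 := g.U1
  have U0 : 0 < UK K k := by linarith
  have pX : 0 ≤ Pr P (ES T) (fun F => Cn X (↑F)) := Pr_nonneg okP _ _
  have pI : 0 ≤ Pr P (ES T) (fun F => Cn (insert x X) (↑F)) := Pr_nonneg okP _ _
  have e1 := g.pos hx ha
  have e2 := g.pos hyV hD
  have e3 := g.pos hyV (n := max a D) (by omega)
  have hKK : 1 ≤ K * K := Nat.mul_le_mul hK hK
  have hκ2 : κ ^ 2 ≤ 1 := pow_le_one₀ κ0.le κ1
  rcases Nat.lt_or_ge a K with h3 | h3
  · -- small distances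
    have h1 : Pr P (ES T) (fun F => Cn (insert x X) (↑F)) ≤ Pr P (ES T) (fun F => Cn X (↑F)) :=
      Pr_mono okP (fun F _ hF u hu v hv => hF u (Finset.mem_insert_of_mem hu) v
        (Finset.mem_insert_of_mem hv))
    have h2 := g.near hx (n := 1) (m := a) le_rfl ha (by nlinarith [min_le_left a L])
    rw [g.one x hx] at h2
    have h4 := g.near hyV (n := D) (m := max a D) hD (by omega) (by
      have : max a D ≤ K * D := by
        apply max_le <;> nlinarith
      have h5 : K * D ≤ 16 * K * K * D := Nat.mul_le_mul_right D (by nlinarith)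
      have h6 := min_le_left (max a D) L
      omega)
    generalize Pr P (ES T) (fun F => Cn (insert x X) (↑F)) = pI' at *
    generalize Pr P (ES T) (fun F => Cn X (↑F)) = pX' at *
    generalize e x a = A at *
    generalize e y (max a D) = B at *
    generalize e y D = C at *
    generalize UK K k = U at *
    calc κ ^ 2 * (C * pI') ≤ 1 * (C * pX') := by
          apply mul_le_mul hκ2 (mul_le_mul_of_nonneg_left h1 e2.le) (by positivity) zero_le_one
      _ ≤ 1 * ((U * B) * pX') := by
          apply mul_le_mul_of_nonneg_left _ zero_le_one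
          exact mul_le_mul_of_nonneg_right h4 pX
      _ ≤ (U * A) * ((U * B) * pX') := mul_le_mul_of_nonneg_right h2 (by positivity)
      _ = U ^ 2 * ((A * B) * pX') := by ring
      _ ≤ U ^ 6 * ((A * B) * pX') :=
          mul_le_mul_of_nonneg_right (pow_le_pow_right₀ U1 (by norm_num)) (by positivity)
  · rcases le_or_gt (min a L) (16 * K * K * D) with hc | hc
    · -- the set is large
      set r := min (a / K) L with hr
      have hq : 1 ≤ a / K := (Nat.one_le_div_iff (by omega)).mpr h3
      have hr1 : 1 ≤ r := by omega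
      have hKr : K * r ≤ a := by
        calc K * r ≤ K * (a / K) := Nat.mul_le_mul_left K (min_le_left _ _)
          _ ≤ a := Nat.mul_div_le a K
      have hrL : r ≤ L := min_le_right _ _
      have h1 := dec_in (T := T) (X := X) hx (r := r) (R := K * r) hy hxy (by nlinarith) hKr hX
        κ0.le (g.blk x hx r hr1 hrL)
      have h2 := g.a_le hx hr1 (by nlinarith)
      have h4 := g.near hx (n := r) (m := a) hr1 ha (by
        have h5 : a < K * (a / K) + K := by
          have := Nat.div_add_mod a K
          have := Nat.mod_lt a (show 0 < K by omega)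
          omega
        have h6 : min a L ≤ 2 * K * r := by
          rcases le_total (a / K) L with h7 | h7
          · rw [hr, min_eq_left h7]
            nlinarith [min_le_left a L]
          · rw [hr, min_eq_right h7]
            nlinarith [min_le_right a L]
        have h8 : 2 * K * r ≤ 16 * K * K * r := by
          apply Nat.mul_le_mul_right
          nlinarith
        omega)
      have h5 := g.near hyV (n := D) (m := max a D) hD (by omega) (by
        have : D ≤ 16 * K * K * D := by
          have : 1 * D ≤ 16 * K * K * D := Nat.mul_le_mul_right D (by nlinarith)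
          omega
        omega)
      have a0 := aT_nonneg T x r
      generalize Pr P (ES T) (fun F => Cn (insert x X) (↑F)) = pI' at *
      generalize Pr P (ES T) (fun F => Cn X (↑F)) = pX' at *
      generalize e x a = A at *
      generalize e x r = A' at *
      generalize aT T x r = A'' at *
      generalize e y (max a D) = B at *
      generalize e y D = C at *
      generalize UK K k = U at *
      calc κ ^ 2 * (C * pI') = κ * (C * (κ * pI')) := by ring
        _ ≤ 1 * ((U * B) * (A'' * pX')) := by
            apply mul_le_mul κ1 _ (by positivity) zero_le_one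
            exact mul_le_mul h5 h1 (by positivity) (by positivity)
        _ ≤ 1 * ((U * B) * ((U * (U * A)) * pX')) := by
            apply mul_le_mul_of_nonneg_left _ zero_le_one
            apply mul_le_mul_of_nonneg_left _ (by positivity)
            apply mul_le_mul_of_nonneg_right _ pX
            exact h2.trans (mul_le_mul_of_nonneg_left h4 U0.le)
        _ = U ^ 3 * ((A * B) * pX') := by ring
        _ ≤ U ^ 6 * ((A * B) * pX') :=
            mul_le_mul_of_nonneg_right (pow_le_pow_right₀ U1 (by norm_num)) (by positivity)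
    · -- the set is small
      have hca : 16 * K * K * D < a := lt_of_lt_of_le hc (min_le_left _ _)
      have hcL : 16 * K * K * D < L := lt_of_lt_of_le hc (min_le_right _ _)
      have hD1 : D ≤ K * D := by nlinarith
      have hD2 : K * D ≤ K * (K * D) := by nlinarith
      have hD3 : 16 * K * K * D = 16 * (K * (K * D)) := by ring
      set n := min ((a - 1) / 2) L with hn
      have hn1 : 1 ≤ n := by omega
      have hmax : max a D = a := by omega
      have h1 := dec_out (T := T) hXV hx (a := a) (r := D) (R := K * D) (n := n) hy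
        (by rw [sd_comm]; exact hxy) hD1 (by omega) (by omega) hXD κ0.le
        (g.blk y hyV D hD (by omega))
      have hnL : n ≤ (2 * K + 2) * L := by
        have : L ≤ (2 * K + 2) * L := by nlinarith
        omega
      have h2 := g.a_le hx hn1 hnL
      have h3' := g.near hx (n := n) (m := a) hn1 ha (by
        have : 16 * n ≤ 16 * K * K * n := by
          apply Nat.mul_le_mul_right
          nlinarith
        omega)
      have h4 := xT_le (T := T) hyV (r := K * D) (R := K * (K * D)) (n := n) (κ := κ) (by omega)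
        (g.blk y hyV (K * D) (by omega) (by omega))
      have h5 := g.a_le hyV hn1 hnL
      have h6 := g.near hyV (n := n) (m := a) hn1 ha (by
        have : 16 * n ≤ 16 * K * K * n := by
          apply Nat.mul_le_mul_right
          nlinarith
        omega)
      have h7 := g.near hyV (n := D) (m := K * (K * D)) hD (by omega) (by
        rw [hD3]
        omega)
      have h8 := g.e_le hyV (n := K * (K * D)) (by omega) (by
        have : L ≤ (2 * K + 2) * L := by nlinarith
        omega)
      have b1 := aT_nonneg T y (K * (K * D))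
      have b2 := xT_nonneg T y (K * D) n
      have b3 := aT_nonneg T x n
      rw [hmax] at e3 ⊢
      generalize Pr P (ES T) (fun F => Cn (insert x X) (↑F)) = pI' at *
      generalize Pr P (ES T) (fun F => Cn X (↑F)) = pX' at *
      generalize e x a = A at *
      generalize e x n = A' at *
      generalize aT T x n = A'' at *
      generalize e y a = B at *
      generalize e y n = B' at *
      generalize aT T y n = B'' at *
      generalize e y (K * (K * D)) = C' at *
      generalize aT T y (K * (K * D)) = C'' at *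
      generalize xT T y (K * D) n = W at *
      generalize e y D = C at *
      generalize UK K k = U at *
      have q1 : κ * (C * W) ≤ U ^ 4 * B := by
        calc κ * (C * W) ≤ κ * ((U * (U * C'')) * W) := by
              apply mul_le_mul_of_nonneg_left _ κ0.le
              apply mul_le_mul_of_nonneg_right _ b2
              exact h7.trans (mul_le_mul_of_nonneg_left h8 U0.le)
          _ = U ^ 2 * (κ * (C'' * W)) := by ring
          _ ≤ U ^ 2 * (U * (U * B)) := by
              apply mul_le_mul_of_nonneg_left _ (by positivity)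
              exact h4.trans (h5.trans (mul_le_mul_of_nonneg_left h6 U0.le))
          _ = _ := by ring
      calc κ ^ 2 * (C * pI') = (κ * C) * (κ * pI') := by ring
        _ ≤ (κ * C) * (A'' * (W * pX')) := mul_le_mul_of_nonneg_left h1 (by positivity)
        _ = A'' * ((κ * (C * W)) * pX') := by ring
        _ ≤ (U * (U * A)) * ((U ^ 4 * B) * pX') := by
            apply mul_le_mul (h2.trans (mul_le_mul_of_nonneg_left h3' U0.le)) _ (by positivity)
              (by positivity)
            exact mul_le_mul_of_nonneg_right q1 pX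
        _ = _ := by ring

/-- lower bound at the nearest point -/
theorem add_lower (g : GD T e L K κ k) {X : Finset Vtx} (hXV : ∀ u ∈ X, u ∈ T) {x y z0 : Vtx}
    (hx : x ∈ T) {a D : ℕ} (hy : y ∈ X) (hz0 : z0 ∈ X) (hxy : sd y x = a) (ha : 1 ≤ a)
    (hD : 1 ≤ D) (hcase : D ≤ 1 ∨ D ≤ 2 * sd z0 y) :
    κ ^ 2 * ((e x a * e y (max a D)) * Pr P (ES T) (fun F => Cn X (↑F))) ≤
      UK K k ^ 6 * (e y D * Pr P (ES T) (fun F => Cn (insert x X) (↑F))) := by
  have hyV := hXV y hy
  have hK := g.hK
  have hL := g.hL
  have κ0 := g.κ0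
  have κ1 := g.κ1
  have U1 := g.U1
  have U0 : 0 < UK K k := by linarith
  have pX : 0 ≤ Pr P (ES T) (fun F => Cn X (↑F)) := Pr_nonneg okP _ _
  have pI : 0 ≤ Pr P (ES T) (fun F => Cn (insert x X) (↑F)) := Pr_nonneg okP _ _
  have e1 := g.pos hx ha
  have e2 := g.pos hyV hD
  have e3 := g.pos hyV (n := max a D) (by omega)
  have e4 := g.pos hyV ha
  have hKK : 1 ≤ K * K := Nat.mul_le_mul hK hK
  have hκ2 : κ ^ 2 ≤ 1 := pow_le_one₀ κ0.le κ1
  obtain ⟨Z, N, hZi, hZp, hN1, hNL, hKN, hNa, hZ⟩ := g.zev hx hyV ha hxy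
  have hm1 : 1 ≤ min a L := by omega
  have x1 := g.e_le hx hN1 hNL
  have x2 := g.near hx (n := a) (m := N) ha hN1 (hNa.trans
    (Nat.mul_le_mul_left _ (min_le_left _ _)))
  have y1 := g.e_le hyV hN1 hNL
  have y2 := g.near hyV (n := a) (m := N) ha hN1 (hNa.trans
    (Nat.mul_le_mul_left _ (min_le_left _ _)))
  have b1 := aT_nonneg T x N
  have b2 := aT_nonneg T y N
  by_cases hsm : min (min a D) L < 2 * K
  · -- bounded scales
    have key : e y (max a D) ≤ UK K k ^ 2 * (e y a * e y D) := by
      by_cases h : min a L < 2 * K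
      · have h1 := g.near hyV (n := 1) (m := a) le_rfl ha (by nlinarith)
        rw [g.one y hyV] at h1
        have h2 := g.anti hyV (n := D) (m := max a D) hD (le_max_right _ _)
        calc e y (max a D) ≤ UK K k * e y D := h2
          _ = 1 * (UK K k * e y D) := (one_mul _).symm
          _ ≤ (UK K k * e y a) * (UK K k * e y D) := mul_le_mul_of_nonneg_right h1 (by positivity)
          _ = _ := by ring
      · have h1 := g.near hyV (n := 1) (m := D) le_rfl hD (by
          have : min D L < 2 * K := by omega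
          nlinarith)
        rw [g.one y hyV] at h1
        have h2 := g.anti hyV (n := a) (m := max a D) ha (le_max_left _ _)
        calc e y (max a D) ≤ UK K k * e y a := h2
          _ = 1 * (UK K k * e y a) := (one_mul _).symm
          _ ≤ (UK K k * e y D) * (UK K k * e y a) := mul_le_mul_of_nonneg_right h1 (by positivity)
          _ = _ := by ring
    have i1 := fkg hZi (Ar_incr (ES T) x N) b1 hZp (le_refl (aT T x N))
    have i2 := fkg (incr_and hZi (Ar_incr (ES T) x N)) (Ar_incr (ES T) y N) b2 i1
      (le_refl (aT T y N))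
    have i3 := fkg (incr_and (incr_and hZi (Ar_incr (ES T) x N)) (Ar_incr (ES T) y N))
      (Cn_incr (ES T) X) pX i2 le_rfl
    have i4 : κ * aT T x N * aT T y N * Pr P (ES T) (fun F => Cn X (↑F)) ≤
        Pr P (ES T) (fun F => Cn (insert x X) (↑F)) := by
      refine i3.trans (Pr_mono okP ?_)
      rintro F hF ⟨⟨⟨k1, u, hu, hxu⟩, v, hv, hyv⟩, k5⟩
      obtain ⟨z, hz⟩ := hZ F hF k1
      have m1 := hz x (Or.inl rfl) x hx u (by rw [sd_self]; omega) hu hxu
      have m2 := hz y (Or.inr rfl) y hyV v (by rw [sd_self]; omega) hv hyv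
      exact Cn_insert k5 hy (m1.symm.trans m2)
    generalize Pr P (ES T) (fun F => Cn (insert x X) (↑F)) = pI' at *
    generalize Pr P (ES T) (fun F => Cn X (↑F)) = pX' at *
    generalize e x a = A at *
    generalize e x N = A' at *
    generalize aT T x N = A'' at *
    generalize e y a = B at *
    generalize e y N = B' at *
    generalize aT T y N = B'' at *
    generalize e y (max a D) = W at *
    generalize e y D = C at *
    generalize UK K k = U at *
    calc κ ^ 2 * ((A * W) * pX') ≤ κ * ((A * W) * pX') := by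
          apply mul_le_mul_of_nonneg_right _ (by positivity)
          nlinarith
      _ ≤ κ * (((U * (U * A'')) * (U ^ 2 * ((U * (U * B'')) * C))) * pX') := by
          apply mul_le_mul_of_nonneg_left _ κ0.le
          apply mul_le_mul_of_nonneg_right _ pX
          apply mul_le_mul (x2.trans (mul_le_mul_of_nonneg_left x1 U0.le)) _ e3.le (by positivity)
          refine key.trans (mul_le_mul_of_nonneg_left ?_ (by positivity))
          exact mul_le_mul_of_nonneg_right (y2.trans (mul_le_mul_of_nonneg_left y1 U0.le)) e2.le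
      _ = U ^ 6 * (C * (κ * A'' * B'' * pX')) := by ring
      _ ≤ _ := by
          apply mul_le_mul_of_nonneg_left _ (by positivity)
          exact mul_le_mul_of_nonneg_left i4 e2.le
  · push Not at hsm
    have hfar : D ≤ 2 * sd z0 y := by
      rcases hcase with h | h
      · omega
      · exact h
    set m := min (min a D) L with hm
    set q := m / (2 * K) with hq
    have hq1 : 1 ≤ q := (Nat.one_le_div_iff (by omega)).mpr hsm
    have hqm : 2 * K * q ≤ m := Nat.mul_div_le m (2 * K)
    have hqm2 : m < 2 * K * q + 2 * K := by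
      have h9 := Nat.div_add_mod m (2 * K)
      have h10 := Nat.mod_lt m (show 0 < 2 * K by omega)
      rw [← hq] at h9
      omega
    have hKq : K * q ≤ sd z0 y := by
      have : 2 * (K * q) ≤ D := by
        have : 2 * (K * q) = 2 * K * q := by ring
        omega
      omega
    have hqK : q ≤ K * q := by nlinarith
    have hqm' : 2 * (K * q) ≤ m := by
      have : 2 * (K * q) = 2 * K * q := by ring
      omega
    have hm4 : m ≤ 16 * K * K * q := by
      have h1 : 2 * K * q + 2 * K ≤ 4 * K * q := by nlinarith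
      have h2 : 4 * K * q ≤ 16 * K * K * q := by
        apply Nat.mul_le_mul_right
        nlinarith
      omega
    have hKqN : K * q ≤ N := by
      have : K * q ≤ min a L := by omega
      have : min a L ≤ K * min a L := by nlinarith
      omega
    have s1 := aT_split (T := T) hyV (r := q) (n := N) (by omega)
    have s2 := g.a_le hyV hq1 (by
      have : L ≤ (2 * K + 2) * L := by nlinarith
      omega)
    have b3 := xT_nonneg T y q N
    have b4 := aT_nonneg T y q
    have e5 := g.pos hyV hq1
    -- the crossing gives the ratio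
    have key : e y (max a D) ≤ UK K k ^ 4 * (xT T y q N * e y D) := by
      have t1 : e y a ≤ UK K k ^ 3 * (e y q * xT T y q N) := by
        calc e y a ≤ UK K k * (UK K k * aT T y N) := y2.trans (mul_le_mul_of_nonneg_left y1 U0.le)
          _ ≤ UK K k * (UK K k * ((UK K k * e y q) * xT T y q N)) := by
              apply mul_le_mul_of_nonneg_left _ U0.le
              apply mul_le_mul_of_nonneg_left _ U0.le
              exact s1.trans (mul_le_mul_of_nonneg_right s2 b3)
          _ = _ := by ring
      rcases le_total D a with h | h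
      · have t2 := g.near hyV (n := q) (m := D) hq1 hD (by
          have : min D L ≤ m := by omega
          omega)
        rw [max_eq_left h]
        calc e y a ≤ UK K k ^ 3 * (e y q * xT T y q N) := t1
          _ ≤ UK K k ^ 3 * ((UK K k * e y D) * xT T y q N) := by
              apply mul_le_mul_of_nonneg_left _ (by positivity)
              exact mul_le_mul_of_nonneg_right t2 b3
          _ = _ := by ring
      · have t2 := g.near hyV (n := q) (m := a) hq1 ha (by
          have : min a L ≤ m := by omega
          omega)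
        rw [max_eq_right h]
        have t3 : e y a * 1 ≤ e y a * (UK K k ^ 4 * xT T y q N) := by
          calc e y a * 1 = e y a := mul_one _
            _ ≤ UK K k ^ 3 * (e y q * xT T y q N) := t1
            _ ≤ UK K k ^ 3 * ((UK K k * e y a) * xT T y q N) := by
                apply mul_le_mul_of_nonneg_left _ (by positivity)
                exact mul_le_mul_of_nonneg_right t2 b3
            _ = _ := by ring
        have t4 := le_of_mul_le_mul_left t3 e4
        calc e y D = 1 * e y D := (one_mul _).symm
          _ ≤ (UK K k ^ 4 * xT T y q N) * e y D := mul_le_mul_of_nonneg_right t4 e2.le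
          _ = _ := by ring
    have i1 := fkg hZi (Ar_incr (ES T) x N) b1 hZp (le_refl (aT T x N))
    have n2 := incr_and hZi (Ar_incr (ES T) x N)
    have i2 := fkg n2 (BL_incr (ES T) T y q (K * q)) κ0.le i1 (g.blk y hyV q hq1 (by omega))
    have n3 := incr_and n2 (BL_incr (ES T) T y q (K * q))
    have i3 := fkg n3 (Cx_incr (ES T) T y q N) b3 i2 (le_refl (xT T y q N))
    have n4 := incr_and n3 (Cx_incr (ES T) T y q N)
    have i4 := fkg n4 (Cn_incr (ES T) X) pX i3 le_rfl
    have i5 : κ * aT T x N * κ * xT T y q N * Pr P (ES T) (fun F => Cn X (↑F)) ≤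
        Pr P (ES T) (fun F => Cn (insert x X) (↑F)) := by
      refine i4.trans (Pr_mono okP ?_)
      rintro F hF ⟨⟨⟨⟨k1, t, ht, hxt⟩, z', hz'⟩, ⟨u, hu0, w, hu, hw, huw⟩⟩, k5⟩
      obtain ⟨z, hz⟩ := hZ F hF k1
      have m1 := hz x (Or.inl rfl) x hx t (by rw [sd_self]; omega) ht hxt
      have m2 := hz y (Or.inr rfl) u hu0 w (by omega) hw huw
      have m3 := hz'.meet hF hu0 hu (by omega) huw
      have m4 := hz'.meet hF hyV (by rw [sd_self]; omega) hKq (k5 y hy z0 hz0)
      exact Cn_insert k5 hy ((m1.symm.trans m2).trans (m3.symm.trans m4))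
    generalize Pr P (ES T) (fun F => Cn (insert x X) (↑F)) = pI' at *
    generalize Pr P (ES T) (fun F => Cn X (↑F)) = pX' at *
    generalize e x a = A at *
    generalize e x N = A' at *
    generalize aT T x N = A'' at *
    generalize xT T y q N = W at *
    generalize e y (max a D) = B at *
    generalize e y D = C at *
    generalize UK K k = U at *
    calc κ ^ 2 * ((A * B) * pX')
        ≤ κ ^ 2 * (((U * (U * A'')) * (U ^ 4 * (W * C))) * pX') := by
          apply mul_le_mul_of_nonneg_left _ (by positivity)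
          apply mul_le_mul_of_nonneg_right _ pX
          exact mul_le_mul (x2.trans (mul_le_mul_of_nonneg_left x1 U0.le)) key e3.le
            (by positivity)
      _ = U ^ 6 * (C * (κ * A'' * κ * W * pX')) := by ring
      _ ≤ _ := by
          apply mul_le_mul_of_nonneg_left _ (by positivity)
          exact mul_le_mul_of_nonneg_left i5 e2.le

/-- adding a point -/
theorem add (g : GD T e L K κ k) {X : Finset Vtx} (hXV : ∀ u ∈ X, u ∈ T) {x y : Vtx}
    (hx : x ∈ T) (hxX : x ∉ X) (hy : y ∈ X) {a D : ℕ} (hn : Near x X a) (hd : Diam X D) :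
    κ ^ 2 * ((e x a * e y (max a (max D 1))) * Pr P (ES T) (fun F => Cn X (↑F))) ≤
      UK K k ^ 7 * (e y (max D 1) * Pr P (ES T) (fun F => Cn (insert x X) (↑F))) ∧
    κ ^ 2 * (e y (max D 1) * Pr P (ES T) (fun F => Cn (insert x X) (↑F))) ≤
      UK K k ^ 7 * ((e x a * e y (max a (max D 1))) * Pr P (ES T) (fun F => Cn X (↑F))) := by
  obtain ⟨⟨y0, hy0, hay⟩, hmin⟩ := hn
  obtain ⟨⟨p, hp, r, hr, hD⟩, hmax⟩ := hd
  have ha1 : 1 ≤ a := by
    rw [hay]
    apply sd_pos
    rintro rfl
    exact hxX hy0
  have hyx : sd y0 x = a := by rw [sd_comm]; exact hay.symm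
  set D' := max D 1 with hD'
  have hD1 : 1 ≤ D' := le_max_right _ _
  have hyV := hXV y hy
  have hy0V := hXV y0 hy0
  have hyy : sd y y0 ≤ D' := by
    have := hmax ⟨y, hy, y0, hy0, rfl⟩
    omega
  have r1 := g.reg.rat y hyV y0 hy0V D' (max a D') hyy hD1 (le_max_right a D')
  have r2 := g.reg.rat y0 hy0V y hyV D' (max a D') (by rw [sd_comm]; exact hyy) hD1
    (le_max_right a D')
  have a1 := g.pos hx ha1
  have u1 := g.pos hyV hD1
  have u2 := g.pos hy0V hD1
  have u3 := g.pos hyV (n := max a D') (by omega)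
  have u4 := g.pos hy0V (n := max a D') (by omega)
  have pX : 0 ≤ Pr P (ES T) (fun F => Cn X (↑F)) := Pr_nonneg okP _ _
  have pI : 0 ≤ Pr P (ES T) (fun F => Cn (insert x X) (↑F)) := Pr_nonneg okP _ _
  have κ0 := g.κ0
  have U1 := g.U1
  have kU := g.kU
  have k0 : 0 < k := lt_of_lt_of_le one_pos g.k1
  have U0 : 0 < UK K k := by linarith
  constructor
  · have hc : ∃ z0 ∈ X, D' ≤ 1 ∨ D' ≤ 2 * sd z0 y0 := by
      have h1 : D ≤ sd p y0 + sd r y0 := by
        rw [hD, sd_comm r y0]
        exact sd_tri p y0 r
      rcases Nat.lt_or_ge (sd p y0) (sd r y0) with h2 | h2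
      · exact ⟨r, hr, by omega⟩
      · exact ⟨p, hp, by omega⟩
    obtain ⟨z0, hz0, hc⟩ := hc
    have h := g.add_lower hXV hx hy0 hz0 hyx ha1 hD1 hc
    generalize Pr P (ES T) (fun F => Cn (insert x X) (↑F)) = pI' at *
    generalize Pr P (ES T) (fun F => Cn X (↑F)) = pX' at *
    generalize e x a = A at *
    generalize e y (max a D') = B at *
    generalize e y0 (max a D') = B' at *
    generalize e y D' = C at *
    generalize e y0 D' = C' at *
    generalize UK K k = U at *
    have : κ ^ 2 * ((A * B) * pX') * C' ≤ U ^ 7 * (C * pI') * C' := by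
      calc κ ^ 2 * ((A * B) * pX') * C' = κ ^ 2 * (A * pX') * (C' * B) := by ring
        _ ≤ κ ^ 2 * (A * pX') * (U * (B' * C)) := by
            apply mul_le_mul_of_nonneg_left _ (by positivity)
            exact r2.trans (mul_le_mul_of_nonneg_right kU (by positivity))
        _ = (U * C) * (κ ^ 2 * ((A * B') * pX')) := by ring
        _ ≤ (U * C) * (U ^ 6 * (C' * pI')) := mul_le_mul_of_nonneg_left h (by positivity)
        _ = _ := by ring
    exact le_of_mul_le_mul_right this u2
  · have h := g.add_upper hXV hx hy0 hyx ha1 hD1 (fun u hu => by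
      have := hmin ⟨u, hu, rfl⟩
      rw [sd_comm]
      exact this) (fun u hu => by
      have := hmax ⟨u, hu, y0, hy0, rfl⟩
      omega)
    generalize Pr P (ES T) (fun F => Cn (insert x X) (↑F)) = pI' at *
    generalize Pr P (ES T) (fun F => Cn X (↑F)) = pX' at *
    generalize e x a = A at *
    generalize e y (max a D') = B at *
    generalize e y0 (max a D') = B' at *
    generalize e y D' = C at *
    generalize e y0 D' = C' at *
    generalize UK K k = U at *
    have : κ ^ 2 * (C * pI') * B' ≤ U ^ 7 * ((A * B) * pX') * B' := by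
      calc κ ^ 2 * (C * pI') * B' = κ ^ 2 * pI' * (C * B') := by ring
        _ ≤ κ ^ 2 * pI' * (U * (B * C')) := by
            apply mul_le_mul_of_nonneg_left _ (by positivity)
            exact r1.trans (mul_le_mul_of_nonneg_right kU (by positivity))
        _ = (U * B) * (κ ^ 2 * (C' * pI')) := by ring
        _ ≤ (U * B) * (U ^ 6 * ((A * B') * pX')) := mul_le_mul_of_nonneg_left h (by positivity)
        _ = _ := by ring
    exact le_of_mul_le_mul_right this u4

/-- **Points can be added in a regular lattice domain.** -/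
theorem good (g : GD T e L K κ k) :
    TH976.Good (↑T : Set Vtx) e (κ ^ 2 * (UK K k ^ 7)⁻¹) := by
  have κ0 := g.κ0
  have U1 := g.U1
  have U0 : 0 < UK K k := by linarith
  have hc : 0 < κ ^ 2 * (UK K k ^ 7)⁻¹ := by positivity
  -- a box which contains the domain
  obtain ⟨m0, hm0⟩ : ∃ m0 : ℕ, ∀ m : ℕ, m0 ≤ m → TH976.bD (↑T : Set Vtx) m = ES T := by
    refine ⟨T.sup (fun v => max v.1.natAbs v.2.natAbs), fun m hm => ?_⟩
    ext ed
    rw [TH976.mem_bD, mem_ES]
    constructor
    · rintro ⟨-, h⟩
      exact h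
    · intro h
      refine ⟨?_, h⟩
      have h1 : max (src ed).1.natAbs (src ed).2.natAbs ≤ m :=
        (Finset.le_sup (f := fun v : Vtx => max v.1.natAbs v.2.natAbs) h.1).trans hm
      have h2 : max (tgt ed).1.natAbs (tgt ed).2.natAbs ≤ m :=
        (Finset.le_sup (f := fun v : Vtx => max v.1.natAbs v.2.natAbs) h.2).trans hm
      unfold boxE
      apply mem_RE_of_ends <;> unfold inR <;> omega
  refine TH976.good_of hc (fun v hv n hn => g.reg.pos v hv n hn) ?_
  intro X x y a d hX hx hxX hy hn hd
  refine ⟨m0, fun m hm => ?_⟩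
  rw [hm0 m hm]
  obtain ⟨h1, h2⟩ := g.add hX hx hxX hy hn hd
  constructor
  · rw [mul_right_comm, ← div_eq_mul_inv, div_le_iff₀ (by positivity)]
    refine h1.trans (le_of_eq ?_)
    ring
  · rw [mul_right_comm, ← div_eq_mul_inv, div_le_iff₀ (by positivity)]
    refine h2.trans (le_of_eq ?_)
    ring

end GD

end Pool.Agent.J6H18.GD
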