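import Pool.Agent.J6H18.GD.Disc
import Pool.Agent.TH976.Scal

/-!
The `k`-point functions, with arbitrary positions of the points.
-/

set_option autoImplicit false

namespace Pool.Agent.J6H18.GD

open Finset H974 Pool.Agent.H160R2.CV H362P MeasureTheory TH976
open Pool.Agent.H160R2.CV.Quad Pool.Agent.H389R2.CD

/-- **The `k`-point functions**, with an explicit constant and arbitrary positions. -/
theorem kpoint_gen {D : Set Vtx} {e : Vtx → ℕ → ℝ} {c k K : ℝ} {g : ℂ → ℂ → ℝ} (gd : Good D e c)
    (h1 : ∀ v ∈ D, e v 1 = 1) (hr : Reg D e k) (hK : 1 ≤ K) (n : ℕ) (x : ℕ → Vtx) (z : ℕ → ℂ)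
    (hn : 2 ≤ n) : (∀ i < n, x i ∈ D) → (∀ i < n, ∀ j < n, i ≠ j → x i ≠ x j) →
    (∀ i < n, ∀ j < n, i ≠ j → Cmp K (e (x i) (sd (x i) (x j)) * e (x j) (sd (x i) (x j)))
      (g (z i) (z j))) →
      Cmp ((k ^ 12 * (1 + c⁻¹) * (K * K * K)) ^ n) (PD D (Cn ((Finset.range n).image x)))
        (kFun g z n) := by
  have hc : 0 < c⁻¹ := inv_pos.mpr gd.1
  have hk := hr.hk
  have k0 : 0 < k := by linarith
  have K0 : 0 < K := by linarith
  set C1 : ℝ := k ^ 12 * (1 + c⁻¹) * (K * K * K) with hC1
  have hK3 : 1 ≤ K * K * K := Cmp.one_le_mul' (Cmp.one_le_mul' hK hK) hK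
  have hk12 : 1 ≤ k ^ 12 := one_le_pow₀ hk
  have hC1' : 1 ≤ C1 := Cmp.one_le_mul' (Cmp.one_le_mul' hk12 (by linarith)) hK3
  have hC10 : 0 < C1 := by linarith
  induction n, hn using Nat.le_induction with
  | base =>
    intro hD hd hg
    have x0 := hD 0 (by norm_num)
    have x1 := hD 1 (by norm_num)
    have h01 := hd 0 (by norm_num) 1 (by norm_num) (by norm_num)
    have t1 := (gd.two h1 x0 x1 h01).trans (hg 0 (by norm_num) 1 (by norm_num) (by norm_num))
    have e1 : (Finset.range 2).image x = {x 0, x 1} := by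
      ext v
      simp only [Finset.mem_image, Finset.mem_range, Finset.mem_insert, Finset.mem_singleton]
      constructor
      · rintro ⟨i, hi, rfl⟩
        interval_cases i
        · left; rfl
        · right; rfl
      · rintro (rfl | rfl)
        · exact ⟨0, by norm_num, rfl⟩
        · exact ⟨1, by norm_num, rfl⟩
    have e2 : kFun g z 2 = g (z 0) (z 1) := by
      unfold kFun
      rw [Finset.Ico_self, Finset.prod_empty, mul_one]
    rw [e1, e2]
    refine t1.weaken ?_
    have q1 : (1 + c⁻¹) * K ≤ C1 := by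
      calc (1 + c⁻¹) * K = 1 * ((1 + c⁻¹) * K) * 1 := by ring
        _ ≤ k ^ 12 * ((1 + c⁻¹) * K) * (K * K) := by
            apply mul_le_mul _ (Cmp.one_le_mul' hK hK) (by norm_num) (by positivity)
            exact mul_le_mul_of_nonneg_right hk12 (by positivity)
        _ = C1 := by rw [hC1]; ring
    calc (1 + c⁻¹) * K ≤ C1 := q1
      _ = C1 * 1 := (mul_one _).symm
      _ ≤ C1 * C1 := mul_le_mul_of_nonneg_left hC1' hC10.le
      _ = C1 ^ 2 := by ring
  | succ n hn ih =>
    intro hD hd hg
    have ih' := ih (fun i hi => hD i (by omega)) (fun i hi j hj hij => hd i (by omega) j (by omega) hij)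
      (fun i hi j hj hij => hg i (by omega) j (by omega) hij)
    set X : Finset Vtx := (Finset.range n).image x with hX
    have hXD : ∀ u ∈ X, u ∈ D := by
      intro u hu
      obtain ⟨i, hi, rfl⟩ := Finset.mem_image.mp hu
      exact hD i (by rw [Finset.mem_range] at hi; omega)
    have hcard : X.card = n := by
      rw [hX, Finset.card_image_of_injOn, Finset.card_range]
      intro i hi j hj hij
      by_contra hne
      rw [Finset.mem_coe, Finset.mem_range] at hi hj
      exact hd i (by omega) j (by omega) hne hij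
    have hxX : x n ∉ X := by
      intro hm
      obtain ⟨i, hi, hi'⟩ := Finset.mem_image.mp hm
      rw [Finset.mem_range] at hi
      exact hd i (by omega) n (by omega) (by omega) hi'
    have e1 : (Finset.range (n + 1)).image x = insert (x n) X := by
      rw [Finset.range_add_one, Finset.image_insert]
    have hxn := hD n (by omega)
    obtain ⟨f1, u, hu, v, hv, huv, f2⟩ := factor gd hr hXD (by omega) hxn hxX
    rw [e1]
    have e2 : kFun g z (n + 1) = kFun g z n *
        ⨆ p : {p : Fin n × Fin n // p.1 < p.2},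
        Real.sqrt (g (z n) (z p.1.1) * g (z n) (z p.1.2) /
          g (z p.1.1) (z p.1.2)) := by
      unfold kFun
      rw [Finset.prod_Ico_succ_top hn, mul_assoc]
    rw [e2]
    set S : ℝ := ⨆ p : {p : Fin n × Fin n // p.1 < p.2},
        Real.sqrt (g (z n) (z p.1.1) * g (z n) (z p.1.2) /
          g (z p.1.1) (z p.1.2)) with hS
    have hb : BddAbove (Set.range (fun p : {p : Fin n × Fin n // p.1 < p.2} =>
        Real.sqrt (g (z n) (z p.1.1) * g (z n) (z p.1.2) /
          g (z p.1.1) (z p.1.2)))) := (Set.finite_range _).bddAbove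
    have pX := ih'.hx
    -- comparison of one term
    have T : ∀ i j : ℕ, i < n → j < n → i ≠ j → Cmp (K * K * K) (Sf e (x n) (x i) (x j))
        (Real.sqrt (g (z n) (z i) * g (z n) (z j) /
          g (z i) (z j))) := by
      intro i j hi hj hij
      unfold Sf
      rw [Real.sqrt_eq_rpow, Real.sqrt_eq_rpow]
      exact (((hg n (by omega) i (by omega) (by omega)).mul
        (hg n (by omega) j (by omega) (by omega))).div (hg i (by omega) j (by omega) hij)).rpow
        (by norm_num) (by norm_num)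
    have : Nonempty {p : Fin n × Fin n // p.1 < p.2} :=
      ⟨⟨(⟨0, by omega⟩, ⟨1, by omega⟩), by
        show (⟨0, _⟩ : Fin n) < ⟨1, _⟩
        rw [Fin.mk_lt_mk]
        norm_num⟩⟩
    -- upper bound for the supremum
    have U : S * PD D (Cn X) ≤ C1 * PD D (Cn (insert (x n) X)) := by
      rw [← le_div_iff₀ pX, hS]
      apply ciSup_le
      rintro ⟨⟨⟨i, hi⟩, ⟨j, hj⟩⟩, hij⟩
      have hij' : i < j := hij
      rw [le_div_iff₀ pX]
      have t1 := (T i j hi hj (by omega)).r
      have t2 := f1 (x i) (Finset.mem_image_of_mem _ (Finset.mem_range.mpr hi)) (x j)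
        (Finset.mem_image_of_mem _ (Finset.mem_range.mpr hj))
        (hd i (by omega) j (by omega) (by omega))
      have t3 : Sf e (x n) (x i) (x j) * PD D (Cn X) ≤
        (k ^ 9 * (1 + c⁻¹)) * PD D (Cn (insert (x n) X)) := t2
      have p0 : 0 ≤ PD D (Cn (insert (x n) X)) := PD_nonneg _ _
      calc _ ≤ (K * K * K * Sf e (x n) (x i) (x j)) * PD D (Cn X) :=
            mul_le_mul_of_nonneg_right t1 pX.le
        _ = (K * K * K) * (Sf e (x n) (x i) (x j) * PD D (Cn X)) := by ring
        _ ≤ (K * K * K) * ((k ^ 9 * (1 + c⁻¹)) * PD D (Cn (insert (x n) X))) :=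
            mul_le_mul_of_nonneg_left t3 (by positivity)
        _ = (k ^ 9) * (((1 + c⁻¹) * (K * K * K)) * PD D (Cn (insert (x n) X))) := by ring
        _ ≤ (k ^ 12) * (((1 + c⁻¹) * (K * K * K)) * PD D (Cn (insert (x n) X))) := by
            apply mul_le_mul_of_nonneg_right _ (by positivity)
            exact pow_le_pow_right₀ hk (by norm_num)
        _ = _ := by rw [hC1]; ring
    -- lower bound for the supremum
    have L : PD D (Cn (insert (x n) X)) ≤ C1 * (S * PD D (Cn X)) := by
      obtain ⟨i, hi, rfl⟩ := Finset.mem_image.mp hu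
      obtain ⟨j, hj, rfl⟩ := Finset.mem_image.mp hv
      rw [Finset.mem_range] at hi hj
      have hij : i ≠ j := by
        rintro rfl
        exact huv rfl
      have f3 : PD D (Cn (insert (x n) X)) ≤ (k ^ 12 * (1 + c⁻¹)) *
        (Sf e (x n) (x i) (x j) * PD D (Cn X)) := f2
      have key : Sf e (x n) (x i) (x j) ≤ (K * K * K) * S := by
        rcases Nat.lt_or_ge i j with h | h
        · refine (T i j hi hj hij).l.trans (mul_le_mul_of_nonneg_left ?_ (by positivity))
          exact le_ciSup hb ⟨(⟨i, hi⟩, ⟨j, hj⟩), h⟩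
        · rw [Sf_symm]
          refine (T j i hj hi (Ne.symm hij)).l.trans (mul_le_mul_of_nonneg_left ?_ (by positivity))
          exact le_ciSup hb ⟨(⟨j, hj⟩, ⟨i, hi⟩), by
            show (⟨j, _⟩ : Fin n) < ⟨i, _⟩
            rw [Fin.mk_lt_mk]
            omega⟩
      calc _ ≤ _ := f3
        _ ≤ (k ^ 12 * (1 + c⁻¹)) * (((K * K * K) * S) * PD D (Cn X)) := by
            apply mul_le_mul_of_nonneg_left _ (by positivity)
            exact mul_le_mul_of_nonneg_right key pX.le
        _ = _ := by rw [hC1]; ring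
    -- positivity
    have hS0 : 0 < S := by
      have t := T 0 1 (by omega) (by omega) (by norm_num)
      refine lt_of_lt_of_le t.hy ?_
      exact le_ciSup hb ⟨(⟨0, by omega⟩, ⟨1, by omega⟩), by
        show (⟨0, _⟩ : Fin n) < ⟨1, _⟩
        rw [Fin.mk_lt_mk]
        norm_num⟩
    have hSX : 0 < S * PD D (Cn X) := mul_pos hS0 pX
    have hI : 0 < PD D (Cn (insert (x n) X)) := by
      by_contra hcon
      push Not at hcon
      have : S * PD D (Cn X) ≤ 0 :=
        U.trans (mul_nonpos_of_nonneg_of_nonpos hC10.le hcon)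
      linarith
    have t1 : Cmp C1 (PD D (Cn (insert (x n) X))) (S * PD D (Cn X)) := ⟨hC1', hI, hSX, L, U⟩
    have t2 := t1.trans ((Cmp.refl hS0).mul ih')
    exact (t2.congr rfl (mul_comm _ _)).weaken (le_of_eq (by ring))


end Pool.Agent.J6H18.GD
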