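import Pool.Agent.J6H18.GD.DM
import Pool.Agent.J6H18.GD.Cont

/-!
The `k`-point functions of a lattice domain.
-/

set_option autoImplicit false

namespace Pool.Agent.J6H18.GD

open TH976 (Cmp E EH E_eq_EH E_pos EH_pos gH pull cayi UH Conf pull_conf kFun kFun_cov PD sd sd_pos)
open Complex Set Metric Filter Topology H974 H973 H362P
open Pool.Agent.Y989.SD (disc mem_disc pos)

/-- the lattice domain `T` approximates `f '' disc` at mesh `ε`, and `e` is the arm profile -/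
structure LP (f : ℂ → ℂ) (b : ℂ → ℝ) (ε : ℝ) (T : Finset Vtx) (e : Vtx → ℕ → ℝ) (A K N : ℝ) :
    Prop where
  ε0 : 0 < ε
  A0 : 1 ≤ A
  mem : ∀ v : Vtx, v ∈ T ↔ pos ε v ∈ f '' disc
  diam : ∀ ζ ∈ disc, ∀ ω ∈ disc, ‖f ζ - f ω‖ ≤ N
  prof : ∀ v ∈ T, ∀ ζ : ℂ, ‖ζ‖ < 1 → ‖f ζ - pos ε v‖ ≤ A * ε → ε ≤ A * bd f (f ζ) →
    ∀ n : ℕ, 1 ≤ n → ε * n ≤ N → Cmp K (e v n) (E (bd f (f ζ) / ε) (b (f ζ) / ε) n)

theorem E_mesh {s b δ ε : ℝ} (hε : 0 < ε) (hδ : 0 < δ) :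
    E (s / ε) (b / ε) (δ / ε) = ε ^ (5 / 48 : ℝ) * E s b δ := by
  have h := E_scale (l := ε⁻¹) (s := s) (b := b) (n := δ) (inv_pos.mpr hε) hδ
  rw [inv_mul_eq_div, inv_mul_eq_div, inv_mul_eq_div] at h
  rw [h]
  congr 1
  rw [Real.rpow_neg (inv_nonneg.mpr hε.le), Real.inv_rpow hε.le, inv_inv]

theorem kFun_const {g : ℂ → ℂ → ℝ} {c : ℝ} (hc : 0 < c) {z : ℕ → ℂ} {k : ℕ} (hk : 2 ≤ k) :
    kFun (fun z w => c * c * g z w) z k = c ^ k * kFun g z k := by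
  have h := kFun_cov (g := fun z w => c * c * g z w) (g' := g) (J := fun _ => c) (φ := id) (z := z)
    hk (fun _ _ => hc) (fun _ _ _ _ _ => rfl)
  rw [h, Finset.prod_const, Finset.card_range]
  rfl

/-- the constant of the comparison of the two-point functions -/
noncomputable def K2 (A C K : ℝ) : ℝ :=
  K * (6 * A ^ 2) ^ 5 * (K * (6 * A ^ 2) ^ 5) * (12 * (64 * C ^ 4) ^ 2)

theorem K2_one {A C K : ℝ} (hA : 1 ≤ A) (hC : 1 ≤ C) (hK : 1 ≤ K) : 1 ≤ K2 A C K := by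
  unfold K2
  have h0 : 1 ≤ A ^ 2 := one_le_pow₀ hA
  have h1 : 1 ≤ (6 * A ^ 2) ^ 5 := one_le_pow₀ (by linarith)
  have h2 : 1 ≤ K * (6 * A ^ 2) ^ 5 := Cmp.one_le_mul' hK h1
  have h3 : 1 ≤ C ^ 4 := one_le_pow₀ hC
  have h4 : 1 ≤ (64 * C ^ 4) ^ 2 := one_le_pow₀ (by linarith)
  exact Cmp.one_le_mul' (Cmp.one_le_mul' h2 h2) (by linarith)

/-- two-point comparison -/
theorem two_lat {f : ℂ → ℂ} {b : ℂ → ℝ} {C ε A K N : ℝ} {T : Finset Vtx} {e : Vtx → ℕ → ℝ}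
    (h : DM f b C) (lp : LP f b ε T e A K N) {u : ℂ → ℂ} (hu : Conf (f '' ball (0 : ℂ) 1) UH u)
    {x y : Vtx} (hx : x ∈ T) (hy : y ∈ T) (hxy : x ≠ y) {ζ ω : ℂ} (hζ : ‖ζ‖ < 1) (hω : ‖ω‖ < 1)
    (h1 : ‖f ζ - pos ε x‖ ≤ A * ε) (h2 : ‖f ω - pos ε y‖ ≤ A * ε) (h3 : ε ≤ A * bd f (f ζ))
    (h4 : ε ≤ A * bd f (f ω)) (h5 : ε ≤ A * ‖f ζ - f ω‖) :
    Cmp (K2 A C K) (e x (sd x y) * e y (sd x y))
      (ε ^ (5 / 48 : ℝ) * ε ^ (5 / 48 : ℝ) * pull u (f ζ) (f ω)) := by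
  have ε0 := lp.ε0
  have A0 := lp.A0
  have n1 := sd_pos hxy
  have n1r : (1 : ℝ) ≤ (sd x y : ℝ) := by exact_mod_cast n1
  have hne : ζ ≠ ω := by
    rintro rfl
    rw [sub_self, norm_zero, mul_zero] at h5
    linarith
  have d1 := sd_pos_le ε0 x y
  have d2 := pos_le_sd ε0 x y
  have hN : ε * (sd x y : ℝ) ≤ N := by
    obtain ⟨a, ha, hxa⟩ := (lp.mem x).mp hx
    obtain ⟨b', hb, hyb⟩ := (lp.mem y).mp hy
    rw [← hxa, ← hyb] at d1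
    exact d1.trans (lp.diam a ha b' hb)
  have p1 := lp.prof x hx ζ hζ h1 h3 (sd x y) n1 hN
  have p2 := lp.prof y hy ω hω h2 h4 (sd x y) n1 hN
  set δ := ‖f ζ - f ω‖ with hδ
  have hδ0 : 0 < δ := by
    by_contra hneg
    push Not at hneg
    have : A * δ ≤ 0 := mul_nonpos_of_nonneg_of_nonpos (by linarith) hneg
    linarith
  have t1 : δ ≤ ‖pos ε x - pos ε y‖ + 2 * (A * ε) := by
    have e1 : f ζ - f ω = (f ζ - pos ε x) + (pos ε x - pos ε y) + -(f ω - pos ε y) := by ring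
    rw [hδ, e1]
    refine norm_add₃_le.trans ?_
    rw [norm_neg]
    linarith
  have t2 : ‖pos ε x - pos ε y‖ ≤ δ + 2 * (A * ε) := by
    have e1 : pos ε x - pos ε y = -(f ζ - pos ε x) + (f ζ - f ω) + (f ω - pos ε y) := by ring
    rw [e1]
    refine norm_add₃_le.trans ?_
    rw [norm_neg]
    linarith
  have hAA : 1 ≤ A ^ 2 := one_le_pow₀ A0
  have hAA' : A ≤ A ^ 2 := by nlinarith
  have c1' : Cmp (6 * A ^ 2) ((sd x y : ℕ) : ℝ) (δ / ε) := by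
    refine ⟨by linarith, by linarith, by positivity, ?_, ?_⟩
    · rw [← mul_div_assoc, le_div_iff₀ ε0]
      have q1 : 2 * (A * ε) ≤ 2 * (A ^ 2 * δ) := by
        have : A * ε ≤ A * (A * δ) := mul_le_mul_of_nonneg_left h5 (by linarith)
        nlinarith
      have q2 : δ ≤ A ^ 2 * δ := by nlinarith
      nlinarith
    · rw [div_le_iff₀ ε0]
      have q1 : 2 * (A * ε) ≤ 2 * (A * ε) * (sd x y : ℝ) := by
        nlinarith [mul_le_mul_of_nonneg_left n1r (show 0 ≤ A * ε by positivity)]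
      have q2 : 2 * (A * ε) * (sd x y : ℝ) ≤ 2 * (A ^ 2 * ε) * (sd x y : ℝ) := by
        apply mul_le_mul_of_nonneg_right _ (by linarith)
        have := mul_le_mul_of_nonneg_right hAA' ε0.le
        linarith
      have q3 : ε * (sd x y : ℝ) ≤ A ^ 2 * ε * (sd x y : ℝ) := by
        have : 0 ≤ ε * (sd x y : ℝ) := by positivity
        nlinarith
      nlinarith
  have s0 : 0 < bd f (f ζ) / ε := div_pos (h.bd_pos hζ) ε0
  have s0' : 0 < bd f (f ω) / ε := div_pos (h.bd_pos hω) ε0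
  have b0 : 0 < b (f ζ) / ε := div_pos (h.b_pos hζ) ε0
  have b0' : 0 < b (f ω) / ε := div_pos (h.b_pos hω) ε0
  have hA4 : (1 : ℝ) ≤ 6 * A ^ 2 := by linarith
  have q1 := p1.trans (E_cmp ((Cmp.refl s0).weaken hA4) ((Cmp.refl b0).weaken hA4) c1')
  have q2 := p2.trans (E_cmp ((Cmp.refl s0').weaken hA4) ((Cmp.refl b0').weaken hA4) c1')
  rw [E_mesh ε0 hδ0] at q1 q2
  have q3 := h.two_pt hu hζ hω hne
  rw [← hδ] at q3
  have m0 : 0 < ε ^ (5 / 48 : ℝ) := Real.rpow_pos_of_pos ε0 _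
  have q4 := (Cmp.refl (mul_pos m0 m0)).mul q3
  refine ((q1.mul q2).trans (q4.congr (by ring) rfl)).weaken (le_of_eq ?_)
  unfold K2
  ring

/-- **The `k`-point functions.** -/
theorem kpt {f : ℂ → ℂ} {b : ℂ → ℝ} {C ε A K N : ℝ} {T : Finset Vtx} {e : Vtx → ℕ → ℝ} {L Kc : ℕ}
    {κ k : ℝ} (h : DM f b C) (g : GD T e L Kc κ k) (hK : 1 ≤ K) (lp : LP f b ε T e A K N)
    {u : ℂ → ℂ} (hu : Conf (f '' ball (0 : ℂ) 1) UH u) {n : ℕ} (hn : 2 ≤ n) (x : ℕ → Vtx)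
    (ζ : ℕ → ℂ) (hx : ∀ i < n, x i ∈ T) (hd : ∀ i < n, ∀ j < n, i ≠ j → x i ≠ x j)
    (hζ : ∀ i < n, ‖ζ i‖ < 1) (h1 : ∀ i < n, ‖f (ζ i) - pos ε (x i)‖ ≤ A * ε)
    (h3 : ∀ i < n, ε ≤ A * bd f (f (ζ i)))
    (h5 : ∀ i < n, ∀ j < n, i ≠ j → ε ≤ A * ‖f (ζ i) - f (ζ j)‖) :
    Cmp ((k ^ 12 * (1 + (κ ^ 2 * (UK Kc k ^ 7)⁻¹)⁻¹) * (K2 A C K * K2 A C K * K2 A C K)) ^ n)
      (PD (↑T : Set Vtx) (Cn ((Finset.range n).image x)))
      ((ε ^ (5 / 48 : ℝ)) ^ n * kFun (pull u) (fun i => f (ζ i)) n) := by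
  have m0 : 0 < ε ^ (5 / 48 : ℝ) := Real.rpow_pos_of_pos lp.ε0 _
  have hK2 := K2_one lp.A0 h.C1 hK
  have key := kpoint_gen g.good (fun v hv => g.one v hv) g.reg hK2 n x (fun i => f (ζ i)) hn hx hd
    (g := fun z w => ε ^ (5 / 48 : ℝ) * ε ^ (5 / 48 : ℝ) * pull u z w)
    (fun i hi j hj hij => two_lat h lp hu (hx i hi) (hx j hj) (hd i hi j hj hij) (hζ i hi)
      (hζ j hj) (h1 i hi) (h1 j hj) (h3 i hi) (h3 j hj) (h5 i hi j hj hij))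
  rw [kFun_const m0 hn] at key
  exact key

end Pool.Agent.J6H18.GD
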