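import Pool.Agent.J6H18.GD.Ring
import Pool.Agent.Y989.SD.T_WIN

/-!
Symmetries, distance to the complement, regular profiles, comparison with the plane.
-/

set_option autoImplicit false

namespace Pool.Agent.J6H18.GD

open Finset H974 Pool.Agent.H160R2.CV H362P
open Pool.Agent.H160R2.CV.Quad Pool.Agent.H389R2.CD
open TH976 (sd sd_self sd_comm sd_tri sd_pos Ar Ar_incr Cmp fkg incr_and pr_TB pr_LR pr_true DH eH
  EH reg_H)
open H973 (ES mem_ES EV reach_mem mem_RE_ends mem_RE_of_ends dlt dlt_pos dlt_le hh_long)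
open Pool.Agent.Y989.SD (Blk)
open Pool.Agent.Y989.SD.WIN (tT mem_tT tT_img pr_tT reach_mp)

/-! ### symmetries -/

/-- the symmetry preserves the distance -/
def Iso (g : LSym) : Prop := ∀ u v : Vtx, sd (g.ψ u) (g.ψ v) = sd u v

theorem aT_sym {g : LSym} (hg : Iso g) (T : Finset Vtx) (v : Vtx) (n : ℕ) :
    aT T (g.ψ v) n = aT (tT g T) v n := by
  unfold aT
  have h1 := pr_tT g T (Ar (g.ψ v) n)
  refine h1.trans ?_
  apply Pr_congr
  intro F _
  constructor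
  · rintro ⟨w, h1, h2⟩
    obtain ⟨w, rfl⟩ := g.ψ.surjective w
    exact ⟨w, by rwa [hg] at h1, (reach_mp g F v w).mp h2⟩
  · rintro ⟨w, h1, h2⟩
    exact ⟨g.ψ w, by rwa [hg], (reach_mp g F v w).mpr h2⟩

theorem Bl_sym {g : LSym} (hg : Iso g) {T : Finset Vtx} {v z : Vtx} {r R : ℕ} {F : Finset Edg}
    (h : Bl (tT g T) v r R z F) : Bl T (g.ψ v) r R (g.ψ z) (g.mp F) := by
  intro u hu hu' w hw hw' hr
  obtain ⟨u, rfl⟩ := g.ψ.surjective u
  obtain ⟨w, rfl⟩ := g.ψ.surjective w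
  have g1 : sd (g.ψ u) (g.ψ v) ≤ r := hu'
  have g2 : R ≤ sd (g.ψ w) (g.ψ v) := hw'
  rw [hg] at g1 g2
  refine h u (mem_tT.mpr hu) g1 w (mem_tT.mpr hw) g2 ?_
  rw [← g.reach_iff]
  refine hr.mono ?_
  rintro e ⟨⟨he1, he2⟩, ⟨he3, he4⟩⟩
  refine ⟨g.φ.symm e, ?_, g.φ.apply_symm_apply e⟩
  have hc := g.compat (g.φ.symm e)
  rw [g.φ.apply_symm_apply] at hc
  have key : ∀ y : Vtx, g.ψ y ∈ T → ¬ Reach (↑(g.mp F) : Set Edg) (g.ψ z) (g.ψ y) →
      (y ∈ tT g T ∧ ¬ Reach (F : Set Edg) z y) := fun y h5 h6 =>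
    ⟨mem_tT.mpr h5, fun h7 => h6 ((reach_mp g F z y).mpr h7)⟩
  rcases hc with ⟨hc1, hc2⟩ | ⟨hc1, hc2⟩
  · rw [hc1] at he1 he2
    rw [hc2] at he3 he4
    exact ⟨key _ he1 he2, key _ he3 he4⟩
  · rw [hc1] at he1 he2
    rw [hc2] at he3 he4
    exact ⟨key _ he3 he4, key _ he1 he2⟩

theorem BL_sym {g : LSym} (hg : Iso g) (T : Finset Vtx) (v : Vtx) (r R : ℕ) :
    Pr P (ES (tT g T)) (BL (tT g T) v r R) ≤ Pr P (ES T) (BL T (g.ψ v) r R) := by
  have h1 := pr_tT g T (BL T (g.ψ v) r R)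
  refine le_trans ?_ h1.ge
  apply Pr_mono okP
  rintro F _ ⟨z, hz⟩
  exact ⟨g.ψ z, Bl_sym hg hz⟩

/-! ### distance to the complement -/

/-- distance to the complement of `T` -/
noncomputable def dc (T : Finset Vtx) (v : Vtx) : ℕ := sInf {n | ∃ w, w ∉ T ∧ sd v w = n}

theorem dc_spec (T : Finset Vtx) (v : Vtx) : ∃ w, w ∉ T ∧ sd v w = dc T v := by
  have h : {n | ∃ w, w ∉ T ∧ sd v w = n}.Nonempty := by
    obtain ⟨w, hw⟩ := Infinite.exists_notMem_finset T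
    exact ⟨sd v w, w, hw, rfl⟩
  exact Nat.sInf_mem h

theorem dc_le {T : Finset Vtx} {v w : Vtx} (hw : w ∉ T) : dc T v ≤ sd v w :=
  Nat.sInf_le ⟨w, hw, rfl⟩

theorem mem_of_dc {T : Finset Vtx} {v w : Vtx} (h : sd v w < dc T v) : w ∈ T := by
  by_contra hw
  have := dc_le (v := v) hw
  omega

theorem dc_pos {T : Finset Vtx} {v : Vtx} (hv : v ∈ T) : 1 ≤ dc T v := by
  obtain ⟨w, hw, h⟩ := dc_spec T v
  rw [← h]
  apply sd_pos
  rintro rfl
  exact hw hv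

theorem dc_lip (T : Finset Vtx) (u v : Vtx) : dc T u ≤ sd u v + dc T v := by
  obtain ⟨w, hw, h⟩ := dc_spec T v
  have h1 := dc_le (v := u) hw
  have h2 := sd_tri u v w
  omega

/-! ### profiles -/

theorem reg_pull {D : Set Vtx} {e : Vtx → ℕ → ℝ} {k : ℝ} (h : TH976.Reg D e k) {T : Finset Vtx}
    {φ : Vtx → Vtx} (hφ : ∀ v ∈ T, φ v ∈ D)
    (h1 : ∀ u ∈ T, ∀ v ∈ T, sd (φ u) (φ v) ≤ sd u v) {L : ℕ} (hL : 1 ≤ L) :
    TH976.Reg (↑T : Set Vtx) (fun v n => e (φ v) (min n L)) (k * k) := by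
  have hk := h.hk
  have k0 : 0 < k := by linarith
  have hkk : k ≤ k * k := by nlinarith
  refine ⟨Cmp.one_le_mul' hk hk, ?_, ?_, ?_, ?_⟩
  · intro v hv n hn
    exact h.pos _ (hφ v hv) _ (by omega)
  · intro v hv n m hn hnm
    have p := h.pos _ (hφ v hv) (min n L) (by omega)
    exact (h.anti _ (hφ v hv) (min n L) (min m L) (by omega) (by omega)).trans
      (mul_le_mul_of_nonneg_right hkk p.le)
  · intro v hv n hn
    have p := h.pos _ (hφ v hv) (min (3 * n) L) (by omega)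
    have h2 := h.dbl _ (hφ v hv) (min n L) (by omega)
    have h3 := h.anti _ (hφ v hv) (min (3 * n) L) (3 * min n L) (by omega) (by omega)
    calc e (φ v) (min n L) ≤ k * e (φ v) (3 * min n L) := h2
      _ ≤ k * (k * e (φ v) (min (3 * n) L)) := mul_le_mul_of_nonneg_left h3 k0.le
      _ = _ := by ring
  · intro u hu v hv r n huv hr hrn
    have p1 := h.pos _ (hφ u hu) (min n L) (by omega)
    have p2 := h.pos _ (hφ v hv) (min r L) (by omega)
    rcases le_or_gt r L with hrL | hrL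
    · have h2 := h.rat _ (hφ u hu) _ (hφ v hv) (min r L) (min n L) (by
        rw [min_eq_left hrL]
        exact (h1 u hu v hv).trans huv) (by omega) (by omega)
      exact h2.trans (mul_le_mul_of_nonneg_right hkk (mul_pos p1 p2).le)
    · have e1 : min r L = L := min_eq_right hrL.le
      have e2 : min n L = L := min_eq_right (hrL.le.trans hrn)
      rw [e2] at p1 ⊢
      rw [e1] at p2 ⊢
      have : 1 ≤ k * k := Cmp.one_le_mul' hk hk
      nlinarith [mul_pos p1 p2]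

/-- the profile of a domain without corners -/
noncomputable def eS (T : Finset Vtx) (L : ℕ) (v : Vtx) (n : ℕ) : ℝ :=
  eH (0, (dc T v : ℤ)) (min n L)

theorem reg_S (hA : ArS) : ∃ k : ℝ, 1 ≤ k ∧ ∀ (T : Finset Vtx) (L : ℕ), 1 ≤ L →
    TH976.Reg (↑T : Set Vtx) (eS T L) k := by
  obtain ⟨k, h⟩ := reg_H hA
  refine ⟨k * k, Cmp.one_le_mul' h.hk h.hk, fun T L hL => ?_⟩
  refine reg_pull h (φ := fun v => (0, (dc T v : ℤ))) ?_ ?_ hL
  · intro v hv
    have := dc_pos hv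
    show (1 : ℤ) ≤ (dc T v : ℤ)
    omega
  · intro u _ v _
    have h1 := dc_lip T u v
    have h2 := dc_lip T v u
    have h3 := sd_comm u v
    show max (((0 : ℤ) - 0).natAbs) (((dc T u : ℤ) - (dc T v : ℤ)).natAbs) ≤ sd u v
    omega

/-! ### comparison with the plane -/

theorem aT_le_ar (T : Finset Vtx) (c : Vtx) (n : ℕ) : aT T c n ≤ ar n := by
  refine le_trans (Pr_mono okP (B := LA c n) ?_) (pr_LA (ES T) c n)
  rintro F _ ⟨v, h1, h2⟩
  exact LA_of_reach (u := v) h1 h2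

theorem ball_sub {T : Finset Vtx} {c : Vtx} {n : ℕ} (h : ∀ v, sd v c ≤ n → v ∈ T) :
    RE (c.1 - n) (c.1 + n) (c.2 - n) (c.2 + n) ⊆ ES T := by
  intro e he
  obtain ⟨g1, g2⟩ := mem_RE_ends he
  unfold inR at g1 g2
  rw [mem_ES]
  constructor
  · apply h; unfold sd; omega
  · apply h; unfold sd; omega

theorem ar_le_aT {T : Finset Vtx} {c : Vtx} {n : ℕ} (h : ∀ v, sd v c ≤ n → v ∈ T) :
    ar n ≤ aT T c n := by
  rw [← TwoAux.pr_QQ (ball_sub h)]
  exact Pr_mono okP (fun F _ h => TwoAux.far_of_QQ h)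

/-- blocking clusters in a ball contained in the domain -/
theorem pr_BLin {T : Finset Vtx} {c : Vtx} {R : ℕ} (hR : 1 ≤ R)
    (h : ∀ v, sd v c ≤ 3 * R → v ∈ T) : dlt ^ 4 ≤ Pr P (ES T) (BL T c R (3 * R)) := by
  refine pr_BL hR (a0 := c.1 - 3 * R) (b0 := c.2 - 3 * R) ?_ (h c (by rw [sd_self]; omega))
  intro v hv
  refine ⟨fun _ => ?_, fun _ => h v hv⟩
  unfold sd at hv
  omega

end Pool.Agent.J6H18.GD
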