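import Pool.Agent.J6H18.GD.Good

/-!
Blocking clusters from crossings of rectangles; chains of blocking clusters; long crossings.
-/

set_option autoImplicit false

namespace Pool.Agent.J6H18.GD

open Finset H974 Pool.Agent.H160R2.CV H362P
open Pool.Agent.H160R2.CV.Quad
open TH976 (sd sd_self sd_comm sd_tri sd_pos Ar Ar_incr Cmp fkg incr_and pr_TB pr_LR pr_true)
open H973 (ES mem_ES EV reach_mem mem_RE_ends mem_RE_of_ends dlt dlt_pos dlt_le hh_long)
open Pool.Agent.Y989.SD (Blk)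

/-- in the ball of radius `3 R` around `c`, the set `T` is a quadrant with corner `(a0, b0)` -/
def Lq (T : Finset Vtx) (c : Vtx) (R : ℕ) (a0 b0 : ℤ) : Prop :=
  ∀ v : Vtx, sd v c ≤ 3 * R → (v ∈ T ↔ a0 ≤ v.1 ∧ b0 ≤ v.2)

/-- crossings around `c` at distances between `R` and `3 R`, in the quadrant with corner
`(a0, b0)` -/
def CG (a0 b0 : ℤ) (c : Vtx) (R : ℕ) (F : Finset Edg) : Prop :=
  (TBc (c.1 + R) (c.1 + 3 * R) (max b0 (c.2 - 3 * R)) (c.2 + 3 * R) F ∧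
    LRc (max a0 (c.1 - 3 * R)) (c.1 + 3 * R) (c.2 + R) (c.2 + 3 * R) F) ∧
  ((a0 ≤ c.1 - 3 * R → TBc (c.1 - 3 * R) (c.1 - R) (max b0 (c.2 - 3 * R)) (c.2 + 3 * R) F) ∧
    (b0 ≤ c.2 - 3 * R → LRc (max a0 (c.1 - 3 * R)) (c.1 + 3 * R) (c.2 - 3 * R) (c.2 - R) F))

theorem CG.mono {a0 b0 : ℤ} {c : Vtx} {R : ℕ} {F G : Finset Edg} (h : F ⊆ G)
    (hF : CG a0 b0 c R F) : CG a0 b0 c R G :=
  ⟨⟨hF.1.1.mono h, hF.1.2.mono h⟩, ⟨fun k => (hF.2.1 k).mono h, fun k => (hF.2.2 k).mono h⟩⟩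

theorem CG_incr (S : Finset Edg) (a0 b0 : ℤ) (c : Vtx) (R : ℕ) : IncrE S (CG a0 b0 c R) :=
  fun _ _ h _ hF => hF.mono h

theorem CG_meet {T : Finset Vtx} {c : Vtx} {R : ℕ} (hR : 1 ≤ R) {a0 b0 : ℤ}
    (hT : Lq T c R a0 b0) (hc : c ∈ T) {F : Finset Edg} (h : CG a0 b0 c R F) :
    ∃ z : Vtx, ∀ G : Set Edg, ↑F ⊆ G → (∀ e ∈ G, e ∈ ES T) → ∀ u v : Vtx, u ∈ T → sd u c ≤ R →
      3 * R ≤ sd v c → Reach G u v → Reach G u z := by
  obtain ⟨⟨⟨xr, xr', hxr, hxr', hr⟩, ⟨yt, yt', hyt, hyt', ht⟩⟩, hl, hb⟩ := h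
  have hcq := (hT c (by rw [sd_self]; omega)).mp hc
  obtain ⟨c1, c2⟩ := c
  obtain ⟨hc1, hc2⟩ := hcq
  simp only at hc1 hc2 hr ht hl hb hxr hxr' hyt hyt'
  have hR' : (1 : ℤ) ≤ R := by exact_mod_cast hR
  refine ⟨(xr, max b0 (c2 - 3 * (R : ℤ))), ?_⟩
  intro G hFG hG u v huT huc hvc huv
  have hr' : Reach (G ∩ ↑(RE (c1 + R) (c1 + 3 * R) (max b0 (c2 - 3 * R)) (c2 + 3 * R)))
      (xr, max b0 (c2 - 3 * (R : ℤ))) (xr', c2 + 3 * R) :=
    hr.mono (Set.inter_subset_inter hFG (by exact_mod_cast TBE_subset_RE))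
  have ht' : Reach (G ∩ ↑(RE (max a0 (c1 - 3 * R)) (c1 + 3 * R) (c2 + R) (c2 + 3 * R)))
      (max a0 (c1 - 3 * (R : ℤ)), yt) (c1 + 3 * R, yt') :=
    ht.mono (Set.inter_subset_inter hFG (by exact_mod_cast LRE_subset_RE))
  -- top and right
  have mTR : Reach (G ∩ ↑(RE (max a0 (c1 - 3 * R)) (c1 + 3 * R) (max b0 (c2 - 3 * R))
      (c2 + 3 * R))) (max a0 (c1 - 3 * (R : ℤ)), yt) (xr, max b0 (c2 - 3 * (R : ℤ))) :=
    cross_meet (a := c1 + R) (b := c1 + 3 * R) (c := c2 + R) (d := c2 + 3 * R) (by omega)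
      (by omega) le_rfl (by omega) (by omega) le_rfl ht' (by simp only; omega)
      (by simp only; omega) hr' (by simp only; omega) (by simp only; omega)
  have hsd := huc
  unfold sd at huc hvc
  simp only at huc hvc
  obtain ⟨w, h1, h2, h3⟩ := first_exit (a := c1 - 3 * R) (b := c1 + 3 * R) (c := c2 - 3 * R)
    (d := c2 + 3 * R) (by unfold inR; omega) huv (by omega)
  have hq : ∀ x : Vtx, x ∈ T → inR (c1 - 3 * R) (c1 + 3 * R) (c2 - 3 * R) (c2 + 3 * R) x →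
      a0 ≤ x.1 ∧ b0 ≤ x.2 := by
    intro x hx hx2
    refine (hT x ?_).mp hx
    unfold inR at hx2
    unfold sd
    simp only
    omega
  have hB : G ∩ ↑(RE (c1 - 3 * R) (c1 + 3 * R) (c2 - 3 * R) (c2 + 3 * R)) ⊆
      G ∩ ↑(RE (max a0 (c1 - 3 * R)) (c1 + 3 * R) (max b0 (c2 - 3 * R)) (c2 + 3 * R)) := by
    rintro e ⟨k1, k2⟩
    refine ⟨k1, ?_⟩
    have g1 := mem_ES.mp (hG e k1)
    rw [Finset.mem_coe] at k2
    obtain ⟨g2, g3⟩ := mem_RE_ends k2
    have g4 := hq _ g1.1 g2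
    have g5 := hq _ g1.2 g3
    unfold inR at g2 g3
    rw [Finset.mem_coe]
    apply mem_RE_of_ends <;> unfold inR <;> omega
  have hP := h3.mono hB
  have hwT : w ∈ T := reach_mem (fun e he => hG e he.1) huT h3
  have hw := hq w hwT h1
  unfold inR at h1
  rcases h2 with h2 | h2 | h2 | h2
  · -- left
    have h3R : a0 ≤ c1 - 3 * R := by omega
    obtain ⟨xl, xl', hxl, hxl', hl1⟩ := hl h3R
    have hl' : Reach (G ∩ ↑(RE (c1 - 3 * R) (c1 - R) (max b0 (c2 - 3 * R)) (c2 + 3 * R)))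
        (xl, max b0 (c2 - 3 * (R : ℤ))) (xl', c2 + 3 * R) :=
      hl1.mono (Set.inter_subset_inter hFG (by exact_mod_cast TBE_subset_RE))
    have mTL : Reach (G ∩ ↑(RE (max a0 (c1 - 3 * R)) (c1 + 3 * R) (max b0 (c2 - 3 * R))
        (c2 + 3 * R))) (max a0 (c1 - 3 * (R : ℤ)), yt) (xl, max b0 (c2 - 3 * (R : ℤ))) :=
      cross_meet (a := c1 - 3 * R) (b := c1 - R) (c := c2 + R) (d := c2 + 3 * R) (by omega)
        (by omega) (by omega) (by omega) (by omega) le_rfl ht' (by simp only; omega)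
        (by simp only; omega) hl' (by simp only; omega) (by simp only; omega)
    have m : Reach (G ∩ ↑(RE (max a0 (c1 - 3 * R)) (c1 + 3 * R) (max b0 (c2 - 3 * R))
        (c2 + 3 * R))) w (xl, max b0 (c2 - 3 * (R : ℤ))) :=
      cross_meet (a := c1 - 3 * R) (b := c1 - R) (c := max b0 (c2 - 3 * R)) (d := c2 + 3 * R)
        (by omega) (by omega) (by omega) le_rfl (by omega) le_rfl hP.symm (by omega)
        (by omega) hl' (by simp only; omega) (by simp only; omega)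
    exact (hP.trans (m.trans (mTL.symm.trans mTR))).mono Set.inter_subset_left
  · -- right
    exact (cross_meet (a := c1 + R) (b := c1 + 3 * R) (c := max b0 (c2 - 3 * R))
      (d := c2 + 3 * R) (by omega) (by omega) le_rfl le_rfl (by omega) le_rfl hP (by omega)
      h2.ge hr' (by simp only; omega) (by simp only; omega)).mono Set.inter_subset_left
  · -- bottom
    have h3R : b0 ≤ c2 - 3 * R := by omega
    obtain ⟨yb, yb', hyb, hyb', hb1⟩ := hb h3R
    have hb' : Reach (G ∩ ↑(RE (max a0 (c1 - 3 * R)) (c1 + 3 * R) (c2 - 3 * R) (c2 - R)))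
        (max a0 (c1 - 3 * (R : ℤ)), yb) (c1 + 3 * R, yb') :=
      hb1.mono (Set.inter_subset_inter hFG (by exact_mod_cast LRE_subset_RE))
    have mBR : Reach (G ∩ ↑(RE (max a0 (c1 - 3 * R)) (c1 + 3 * R) (max b0 (c2 - 3 * R))
        (c2 + 3 * R))) (max a0 (c1 - 3 * (R : ℤ)), yb) (xr, max b0 (c2 - 3 * (R : ℤ))) :=
      cross_meet (a := c1 + R) (b := c1 + 3 * R) (c := c2 - 3 * R) (d := c2 - R) (by omega)
        (by omega) le_rfl (by omega) (by omega) (by omega) hb' (by simp only; omega)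
        (by simp only; omega) hr' (by simp only; omega) (by simp only; omega)
    have m : Reach (G ∩ ↑(RE (max a0 (c1 - 3 * R)) (c1 + 3 * R) (max b0 (c2 - 3 * R))
        (c2 + 3 * R))) (max a0 (c1 - 3 * (R : ℤ)), yb) w :=
      cross_meet (a := max a0 (c1 - 3 * R)) (b := c1 + 3 * R) (c := c2 - 3 * R) (d := c2 - R)
        le_rfl (by omega) le_rfl (by omega) (by omega) (by omega) hb' (by simp only; omega)
        (by simp only; omega) hP.symm (by omega) (by omega)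
    exact (hP.trans (m.symm.trans mBR)).mono Set.inter_subset_left
  · -- top
    have m : Reach (G ∩ ↑(RE (max a0 (c1 - 3 * R)) (c1 + 3 * R) (max b0 (c2 - 3 * R))
        (c2 + 3 * R))) (max a0 (c1 - 3 * (R : ℤ)), yt) u :=
      cross_meet (a := max a0 (c1 - 3 * R)) (b := c1 + 3 * R) (c := c2 + R) (d := c2 + 3 * R)
        le_rfl (by omega) le_rfl (by omega) (by omega) le_rfl ht' (by simp only; omega)
        (by simp only; omega) hP (by omega) (by omega)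
    exact (m.symm.trans mTR).mono Set.inter_subset_left

/-- a path between different vertices starts in the set -/
theorem EV_start {V : Vtx → Prop} {u w : Vtx} (h : Reach (EV V) u w) (hne : u ≠ w) : V u := by
  have key : ∀ x, Reach (EV V) u x → u = x ∨ V u := by
    intro x hx
    induction hx with
    | refl => exact Or.inl rfl
    | tail _ hs ih =>
      rcases ih with rfl | ih
      · obtain ⟨e, he, hc⟩ := hs
        rcases hc with ⟨h1, h2⟩ | ⟨h1, h2⟩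
        · right; rw [← h1]; exact he.1
        · right; rw [← h2]; exact he.2
      · exact Or.inr ih
  rcases key w h with h1 | h1
  · exact absurd h1 hne
  · exact h1

/-- a vertex which attracts all the crossing paths of all the larger configurations gives a
blocking cluster -/
theorem Bl_of {T : Finset Vtx} {c : Vtx} {r R : ℕ} (hrR : r < R) {F : Finset Edg} (hF : F ⊆ ES T)
    {z : Vtx}
    (h : ∀ G : Set Edg, ↑F ⊆ G → (∀ e ∈ G, e ∈ ES T) → ∀ u v : Vtx, u ∈ T → sd u c ≤ r →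
      R ≤ sd v c → Reach G u v → Reach G u z) : Bl T c r R z F := by
  intro u hu hA w hw hB hr
  have hA' : sd u c ≤ r := hA
  have hB' : R ≤ sd w c := hB
  have hne : u ≠ w := by
    rintro rfl
    omega
  have hu2 := (EV_start hr hne).2
  have h1 := h (↑F ∪ EV fun y => y ∈ T ∧ ¬ Reach (F : Set Edg) z y) Set.subset_union_left (by
    rintro e (he | he)
    · exact hF (Finset.mem_coe.mp he)
    · rw [mem_ES]
      exact ⟨he.1.1, he.2.1⟩) u w hu hA' hB' (hr.mono Set.subset_union_right)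
  have key : ∀ x, Reach (↑F ∪ EV fun y => y ∈ T ∧ ¬ Reach (F : Set Edg) z y) u x →
      ¬ Reach (F : Set Edg) z x := by
    intro x hx
    induction hx with
    | refl => exact hu2
    | @tail a b _ hs ih =>
      obtain ⟨e, he, hc⟩ := hs
      rcases he with he | he
      · intro hzb
        apply ih
        have : Adj (↑F : Set Edg) a b := ⟨e, he, hc⟩
        exact hzb.trans this.reach.symm
      · rcases hc with ⟨h3, h4⟩ | ⟨h3, h4⟩
        · rw [← h4]; exact he.2.2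
        · rw [← h3]; exact he.1.2
  exact key z h1 (Reach.refl _ _)

theorem CG_BL {T : Finset Vtx} {c : Vtx} {R : ℕ} (hR : 1 ≤ R) {a0 b0 : ℤ}
    (hT : Lq T c R a0 b0) (hc : c ∈ T) {F : Finset Edg} (hF : F ⊆ ES T) (h : CG a0 b0 c R F) :
    BL T c R (3 * R) F := by
  obtain ⟨z, hz⟩ := CG_meet hR hT hc h
  exact ⟨z, Bl_of (by omega) hF hz⟩

theorem pr_CG {T : Finset Vtx} {c : Vtx} {R : ℕ} (hR : 1 ≤ R) {a0 b0 : ℤ}
    (hT : Lq T c R a0 b0) (hc : c ∈ T) : dlt ^ 4 ≤ Pr P (ES T) (CG a0 b0 c R) := by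
  have hcq := (hT c (by rw [sd_self]; omega)).mp hc
  obtain ⟨c1, c2⟩ := c
  obtain ⟨hc1, hc2⟩ := hcq
  simp only at hc1 hc2
  have hR' : (1 : ℤ) ≤ R := by exact_mod_cast hR
  have hsub : ∀ {a b c d : ℤ}, max a0 (c1 - 3 * R) ≤ a → b ≤ c1 + 3 * R →
      max b0 (c2 - 3 * R) ≤ c → d ≤ c2 + 3 * R → RE a b c d ⊆ ES T := by
    intro a b c d h1 h2 h3 h4 e he
    obtain ⟨g1, g2⟩ := mem_RE_ends he
    unfold inR at g1 g2
    rw [mem_ES]
    constructor
    · rw [hT _ (by unfold sd; simp only; omega)]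
      omega
    · rw [hT _ (by unfold sd; simp only; omega)]
      omega
  have hd0 := dlt_pos.le
  have p1 : dlt ≤ Pr P (ES T) (TBc (c1 + R) (c1 + 3 * R) (max b0 (c2 - 3 * R)) (c2 + 3 * R)) :=
    pr_TB (m := R) (hsub (by omega) (by omega) (by omega) (by omega)) (by omega) (by omega)
      (by omega) (by omega)
  have p2 : dlt ≤ Pr P (ES T) (LRc (max a0 (c1 - 3 * R)) (c1 + 3 * R) (c2 + R) (c2 + 3 * R)) :=
    pr_LR (m := R) (hsub (by omega) (by omega) (by omega) (by omega)) (by omega) (by omega)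
      (by omega) (by omega)
  have p3 : dlt ≤ Pr P (ES T) (fun F => a0 ≤ c1 - 3 * R →
      TBc (c1 - 3 * R) (c1 - R) (max b0 (c2 - 3 * R)) (c2 + 3 * R) F) := by
    by_cases h : a0 ≤ c1 - 3 * R
    · refine (pr_TB (m := R) (a := c1 - 3 * R) (b := c1 - R) (c := max b0 (c2 - 3 * R))
        (d := c2 + 3 * R) (hsub (by omega) (by omega) (by omega) (by omega)) (by omega)
        (by omega) (by omega) (by omega)).trans ?_
      exact Pr_mono okP (fun F _ hF _ => hF)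
    · rw [pr_true (ES T) (fun F hF => absurd hF h)]
      exact dlt_le
  have p4 : dlt ≤ Pr P (ES T) (fun F => b0 ≤ c2 - 3 * R →
      LRc (max a0 (c1 - 3 * R)) (c1 + 3 * R) (c2 - 3 * R) (c2 - R) F) := by
    by_cases h : b0 ≤ c2 - 3 * R
    · refine (pr_LR (m := R) (a := max a0 (c1 - 3 * R)) (b := c1 + 3 * R) (c := c2 - 3 * R)
        (d := c2 - R) (hsub (by omega) (by omega) (by omega) (by omega)) (by omega)
        (by omega) (by omega) (by omega)).trans ?_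
      exact Pr_mono okP (fun F _ hF _ => hF)
    · rw [pr_true (ES T) (fun F hF => absurd hF h)]
      exact dlt_le
  have i1 : IncrE (ES T) (TBc (c1 + R) (c1 + 3 * R) (max b0 (c2 - 3 * R)) (c2 + 3 * R)) :=
    TBc_incr _ _ _ _ _
  have i2 : IncrE (ES T) (LRc (max a0 (c1 - 3 * R)) (c1 + 3 * R) (c2 + R) (c2 + 3 * R)) :=
    LRc_incr _ _ _ _ _
  have i3 : IncrE (ES T) (fun F => a0 ≤ c1 - 3 * R →
      TBc (c1 - 3 * R) (c1 - R) (max b0 (c2 - 3 * R)) (c2 + 3 * R) F) :=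
    fun _ _ h _ hF k => (hF k).mono h
  have i4 : IncrE (ES T) (fun F => b0 ≤ c2 - 3 * R →
      LRc (max a0 (c1 - 3 * R)) (c1 + 3 * R) (c2 - 3 * R) (c2 - R) F) :=
    fun _ _ h _ hF k => (hF k).mono h
  have q1 := fkg i1 i2 hd0 p1 p2
  have q2 := fkg i3 i4 hd0 p3 p4
  have q3 := fkg (incr_and i1 i2) (incr_and i3 i4) (mul_nonneg hd0 hd0) q1 q2
  calc dlt ^ 4 = dlt * dlt * (dlt * dlt) := by ring
    _ ≤ _ := q3

/-- blocking clusters where the domain looks like a quadrant -/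
theorem pr_BL {T : Finset Vtx} {c : Vtx} {R : ℕ} (hR : 1 ≤ R) {a0 b0 : ℤ}
    (hT : Lq T c R a0 b0) (hc : c ∈ T) : dlt ^ 4 ≤ Pr P (ES T) (BL T c R (3 * R)) :=
  (pr_CG hR hT hc).trans (Pr_mono okP fun _ hF h => CG_BL hR hT hc hF h)

/-! ### chains -/

theorem step {T : Finset Vtx} {F : Finset Edg} (hF : F ⊆ ES T) {v v' z z' : Vtx} {N K : ℕ}
    (hN : 8 ≤ N) (h1 : 8 * sd v v' ≤ N) (hz : Bl T v N (K * N) z F)
    (hz' : Bl T v' N (K * N) z' F) (hX : Cx T v (N / 2) ((K + 2) * N) F) :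
    Reach (F : Set Edg) z z' := by
  obtain ⟨u, hu, w, hu2, hw2, hr⟩ := hX
  have hKN : (K + 2) * N = K * N + 2 * N := by ring
  have t1 := sd_tri u v v'
  have t2 := sd_tri w v' v
  have t3 := sd_comm v v'
  have e1 : Reach (F : Set Edg) z u := hz.meet hF hu (by omega) (by omega) hr
  have e2 : Reach (F : Set Edg) z' u := hz'.meet hF hu (by omega) (by omega) hr
  exact e1.trans e2.symm

theorem Bl.congr {T : Finset Vtx} {c : Vtx} {r R : ℕ} {z z' : Vtx} {F : Finset Edg}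
    (hb : Bl T c r R z F) (h : Reach (F : Set Edg) z z') : Bl T c r R z' F :=
  Pool.Agent.Y989.SD.CHN.Blk.congr hb h

/-- any two vertices of the domain are joined by a chain of `M` steps of length at most `N / 8` -/
def Chn (T : Finset Vtx) (N M : ℕ) : Prop := ∀ u ∈ T, ∀ v ∈ T, ∃ x : ℕ → Vtx, x 0 = u ∧ x M = v ∧
  (∀ j, x j ∈ T) ∧ ∀ j < M, 8 * sd (x j) (x (j + 1)) ≤ N

theorem mac_of {T : Finset Vtx} {N K M : ℕ} {c : ℝ} (hN : 8 ≤ N) (hc : 0 ≤ c)
    (hch : Chn T N M) (h1 : ∀ v ∈ T, c ≤ Pr P (ES T) (BL T v N (K * N)))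
    (h2 : ∀ v ∈ T, c ≤ xT T v (N / 2) ((K + 2) * N)) {u v : Vtx} (hu : u ∈ T) (hv : v ∈ T) :
    (c * c) ^ (M + 1) ≤ Pr P (ES T) (fun F => ∃ z, Bl T u N (K * N) z F ∧ Bl T v N (K * N) z F) := by
  obtain ⟨x, hx0, hxM, hxT, hxs⟩ := hch u hu v hv
  set A : ℕ → Finset Edg → Prop := fun j F =>
    BL T (x j) N (K * N) F ∧ Cx T (x j) (N / 2) ((K + 2) * N) F with hA
  have hAi : ∀ j, IncrE (ES T) (A j) := fun j =>
    incr_and (BL_incr _ _ _ _ _) (Cx_incr _ _ _ _ _)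
  have hAp : ∀ j, c * c ≤ Pr P (ES T) (A j) := fun j =>
    fkg (BL_incr _ _ _ _ _) (Cx_incr _ _ _ _ _) hc (h1 _ (hxT j)) (h2 _ (hxT j))
  refine (Pool.Agent.Y989.SD.CHN.harris_fin okP A hAi (mul_nonneg hc hc) (M + 1)
    (fun j _ => hAp j)).trans ?_
  refine Pr_mono okP ?_
  intro F hF hAF
  obtain ⟨z, hz⟩ := (hAF 0 (by omega)).1
  have hall : ∀ j, j < M + 1 → Bl T (x j) N (K * N) z F := by
    intro j
    induction j with
    | zero => exact fun _ => hz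
    | succ j ih =>
      intro hj
      have g1 := ih (by omega)
      obtain ⟨z', g2⟩ := (hAF (j + 1) hj).1
      have g3 := step hF hN (hxs j (by omega)) g1 g2 (hAF j (by omega)).2
      exact g2.congr g3.symm
  refine ⟨z, ?_, ?_⟩
  · rw [← hx0]
    exact hall 0 (by omega)
  · rw [← hxM]
    exact hall M (by omega)

/-- Construction of a regular lattice domain from the local properties and chains. -/
theorem GD.of_chain {T : Finset Vtx} {e : Vtx → ℕ → ℝ} {L K M : ℕ} {κ k : ℝ} (hL : 8 ≤ L)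
    (hK : 1 ≤ K) (κ0 : 0 < κ) (κ1 : κ ≤ 1)
    (blk : ∀ v ∈ T, ∀ r : ℕ, 1 ≤ r → r ≤ L → κ ≤ Pr P (ES T) (BL T v r (K * r)))
    (hch : Chn T L M) (reg : TH976.Reg (↑T : Set Vtx) e k) (one : ∀ v ∈ T, e v 1 = 1)
    (top : ∀ v ∈ T, ∀ n : ℕ, L ≤ n → e v L ≤ k * e v n)
    (arm : ∀ v ∈ T, ∀ n : ℕ, 1 ≤ n → n ≤ (2 * K + 2) * L → Cmp k (aT T v n) (e v n)) :
    GD T e L K (((κ * (k ^ 5)⁻¹) * (κ * (k ^ 5)⁻¹)) ^ (M + 1)) k := by
  have hk := reg.hk
  have k0 : 0 < k := by linarith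
  have hk5 : 1 ≤ k ^ 5 := one_le_pow₀ hk
  have hki : (k ^ 5)⁻¹ ≤ 1 := inv_le_one_of_one_le₀ hk5
  have hki0 : 0 < (k ^ 5)⁻¹ := by positivity
  have hc0 : 0 < κ * (k ^ 5)⁻¹ := by positivity
  have hc1 : κ * (k ^ 5)⁻¹ ≤ κ := by nlinarith
  have hc2 : κ * (k ^ 5)⁻¹ ≤ (k ^ 5)⁻¹ := by nlinarith
  have hc3 : κ * (k ^ 5)⁻¹ ≤ 1 := hc1.trans κ1
  have hcc : κ * (k ^ 5)⁻¹ * (κ * (k ^ 5)⁻¹) ≤ κ := by nlinarith
  have hcc1 : κ * (k ^ 5)⁻¹ * (κ * (k ^ 5)⁻¹) ≤ 1 := hcc.trans κ1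
  have hpow : (κ * (k ^ 5)⁻¹ * (κ * (k ^ 5)⁻¹)) ^ (M + 1) ≤ κ := by
    calc (κ * (k ^ 5)⁻¹ * (κ * (k ^ 5)⁻¹)) ^ (M + 1) ≤ (κ * (k ^ 5)⁻¹ * (κ * (k ^ 5)⁻¹)) ^ 1 :=
          pow_le_pow_of_le_one (by positivity) hcc1 (by omega)
      _ ≤ κ := by rw [pow_one]; exact hcc
  -- crossings of annuli
  have hx : ∀ v ∈ T, κ * (k ^ 5)⁻¹ ≤ xT T v (L / 2) ((K + 2) * L) := by
    intro v hv
    refine hc2.trans ?_
    have hn : (K + 2) * L ≤ (2 * K + 2) * L := Nat.mul_le_mul_right L (by omega)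
    have hn2 : L ≤ (K + 2) * L := by nlinarith
    have hr : L / 2 ≤ (2 * K + 2) * L := by
      have : L ≤ (2 * K + 2) * L := by nlinarith
      omega
    have a1 := arm v hv ((K + 2) * L) (by omega) hn
    have a2 := arm v hv (L / 2) (by omega) hr
    have a3 := aT_split (T := T) hv (r := L / 2) (n := (K + 2) * L) (by omega)
    have a4 := reg_up reg (v := v) hv 1 (n := L / 2) (m := L) (by omega) (by omega) (by omega)
    have a5 := top v hv ((K + 2) * L) hn2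
    have p1 := reg.pos v hv (L / 2) (by omega)
    have p2 := reg.pos v hv ((K + 2) * L) (by omega)
    have p3 := xT_nonneg T v (L / 2) ((K + 2) * L)
    have b1 := a1.r
    have b2 := a2.l
    generalize e v (L / 2) = E1 at *
    generalize e v ((K + 2) * L) = E2 at *
    generalize e v L = E3 at *
    generalize aT T v (L / 2) = A1 at *
    generalize aT T v ((K + 2) * L) = A2 at *
    generalize xT T v (L / 2) ((K + 2) * L) = X at *
    have h4 : E1 ≤ k ^ 3 * E2 := by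
      calc E1 ≤ k ^ (1 + 1) * E3 := a4
        _ ≤ k ^ (1 + 1) * (k * E2) := mul_le_mul_of_nonneg_left a5 (by positivity)
        _ = _ := by ring
    have h5 : E2 ≤ (k ^ 5 * X) * E2 := by
      calc E2 ≤ k * A2 := b1
        _ ≤ k * (A1 * X) := mul_le_mul_of_nonneg_left a3 k0.le
        _ ≤ k * ((k * (k ^ 3 * E2)) * X) := by
            apply mul_le_mul_of_nonneg_left _ k0.le
            apply mul_le_mul_of_nonneg_right _ p3
            exact b2.trans (mul_le_mul_of_nonneg_left h4 k0.le)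
        _ = _ := by ring
    have h6 : 1 ≤ k ^ 5 * X := by
      by_contra hcon
      push Not at hcon
      nlinarith
    rw [inv_eq_one_div, div_le_iff₀ (by positivity)]
    linarith
  refine ⟨by omega, hK, by positivity, hpow.trans κ1, ?_, ?_, reg, one, top, arm⟩
  · intro v hv r hr hrL
    exact hpow.trans (blk v hv r hr hrL)
  · intro u hu v hv
    exact mac_of hL hc0.le hch (fun v hv => hc1.trans (blk v hv L (by omega) le_rfl)) hx hu hv

/-! ### long crossings -/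

theorem pr_TBlong {a b c d : ℤ} {S : Finset Edg} (hS : RE a b c d ⊆ S) (q : ℕ) {m : ℤ}
    (hm : 0 < m) (h1 : 0 < d - c) (h2 : d - c ≤ (8 + 6 * (q : ℤ)) * m) (h3 : 2 * m ≤ b - a) :
    (1 / 2 : ℝ) ^ (48 * (q + 1)) ≤ Pr P S (TBc a b c d) := by
  have e : Pr P S (TBc a b c d) = hh (1 / 2) (d - c) (b - a) :=
    pr_TBc (1 / 2) (TBE_subset_RE.trans hS)
  rw [e]
  exact (hh_long q hm).trans (hh_mono (by norm_num) (by norm_num) h1 h2 h3)

end Pool.Agent.J6H18.GD
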