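import Pool.Agent.J6H18.GD.SmLP

/-!
Smooth Jordan domains: the `k`-point functions.
-/

set_option autoImplicit false

namespace Pool.Agent.J6H18.GD

open TH976 (Cmp E EH E_eq_EH E_pos EH_pos gH pull cayi UH Conf pull_conf kFun kFun_cov PD
  sd sd_pos)
open Complex Set Metric Filter Topology H974 H973 H362P
open Pool.Agent.Y989.SD (disc mem_disc pos TD SmW)
open Pool.Agent.H389R2.CD (ArS)

theorem f_iv {f : ℂ → ℂ} {b : ℂ → ℝ} {C : ℝ} (h : DM f b C) {z : ℂ} (hz : z ∈ f '' disc) :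
    f (iv f z) = z := by
  obtain ⟨ζ, hζ, rfl⟩ := hz
  rw [h.iv_eq hζ]

theorem iv_disc {f : ℂ → ℂ} {b : ℂ → ℝ} {C : ℝ} (h : DM f b C) {z : ℂ} (hz : z ∈ f '' disc) :
    iv f z ∈ disc := by
  obtain ⟨ζ, hζ, rfl⟩ := hz
  rw [h.iv_eq hζ]
  exact hζ

theorem iv_ball {f : ℂ → ℂ} {b : ℂ → ℝ} {C : ℝ} (h : DM f b C) {z : ℂ}
    (hz : z ∈ f '' ball (0 : ℂ) 1) : ‖iv f z‖ < 1 := by
  obtain ⟨ζ, hζ, rfl⟩ := hz
  rw [h.iv_eq (ball_disc hζ)]
  simpa using hζ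

/-- a conformal map onto the half-plane exists -/
theorem exists_u {f : ℂ → ℂ} {b : ℂ → ℝ} {C : ℝ} (h : DM f b C) :
    ∃ u, Conf (f '' ball (0 : ℂ) 1) UH u := ⟨_, h.conf_iv.comp conf_cayi⟩

theorem bd_of {f : ℂ → ℂ} {b : ℂ → ℝ} {C : ℝ} (h : DM f b C) {z : ℂ} {A ε : ℝ}
    (hz : ∀ w : ℂ, ‖w‖ = 1 → ε ≤ A * ‖z - f w‖) : ε ≤ A * bd f z := by
  obtain ⟨ω, hω, he⟩ := h.attain z
  rw [he]
  exact hz ω hω

/-- the `k`-point functions, general form -/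
theorem kpt_z {f : ℂ → ℂ} {b : ℂ → ℝ} {C ε A K N : ℝ} {T : Finset Vtx} {e : Vtx → ℕ → ℝ} {L Kc : ℕ}
    {κ k : ℝ} (h : DM f b C) (g : GD T e L Kc κ k) (hK : 1 ≤ K) (lp : LP f b ε T e A K N)
    {u : ℂ → ℂ} (hu : Conf (f '' ball (0 : ℂ) 1) UH u) {n : ℕ} (hn : 2 ≤ n) (x : ℕ → Vtx)
    (z : ℕ → ℂ) (hx : ∀ i < n, pos ε (x i) ∈ f '' disc)
    (hd : ∀ i < n, ∀ j < n, i ≠ j → x i ≠ x j) (hz : ∀ i < n, z i ∈ f '' ball (0 : ℂ) 1)
    (h1 : ∀ i < n, ‖z i - pos ε (x i)‖ ≤ A * ε)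
    (h3 : ∀ i < n, ∀ w : ℂ, ‖w‖ = 1 → ε ≤ A * ‖z i - f w‖)
    (h5 : ∀ i < n, ∀ j < n, i ≠ j → ε ≤ A * ‖z i - z j‖) :
    Cmp ((k ^ 12 * (1 + (κ ^ 2 * (UK Kc k ^ 7)⁻¹)⁻¹) * (K2 A C K * K2 A C K * K2 A C K)) ^ n)
      (PD (↑T : Set Vtx) (Cn ((Finset.range n).image x)))
      ((ε ^ (5 / 48 : ℝ)) ^ n * kFun (pull u) z n) := by
  have e1 : ∀ i < n, f (iv f (z i)) = z i := fun i hi => f_iv h (image_mono ball_disc (hz i hi))
  have key := kpt h g hK lp hu hn x (fun i => iv f (z i)) (fun i hi => (lp.mem _).mpr (hx i hi)) hd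
    (fun i hi => iv_ball h (hz i hi))
    (fun i hi => by
      show ‖f (iv f (z i)) - _‖ ≤ _
      rw [e1 i hi]
      exact h1 i hi)
    (fun i hi => by
      show ε ≤ A * bd f (f (iv f (z i)))
      rw [e1 i hi]
      exact bd_of h (h3 i hi))
    (fun i hi j hj hij => by
      show ε ≤ A * ‖f (iv f (z i)) - f (iv f (z j))‖
      rw [e1 i hi, e1 j hj]
      exact h5 i hi j hj hij)
  have e2 := kFun_cov (g := pull u) (g' := pull u) (J := fun _ => 1) (φ := fun y => f (iv f y))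
    (z := z) hn (fun _ _ => one_pos) (fun i hi j hj _ => by
      show _ = 1 * 1 * pull u (f (iv f (z i))) (f (iv f (z j)))
      rw [e1 i hi, e1 j hj, one_mul, one_mul])
  rw [Finset.prod_const_one, one_mul] at e2
  rw [e2]
  exact key

theorem kpt_S (hA : ArS) {f g : ℂ → ℂ} {M α : ℝ} (hf : SmW f g M α)
    (hd : DifferentiableOn ℂ f (ball 0 1)) {A : ℝ} (hA1 : 1 ≤ A) :
    ∃ C ε0 : ℝ, 1 ≤ C ∧ 0 < ε0 ∧ ∀ ε : ℝ, 0 < ε → ε ≤ ε0 →
      (∀ v, v ∈ TD f ε ↔ pos ε v ∈ f '' disc) ∧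
      ∀ u, Conf (f '' ball (0 : ℂ) 1) UH u → ∀ (n : ℕ) (x : ℕ → Vtx) (z : ℕ → ℂ), 2 ≤ n →
      (∀ i < n, pos ε (x i) ∈ f '' disc) → (∀ i < n, ∀ j < n, i ≠ j → x i ≠ x j) →
      (∀ i < n, z i ∈ f '' ball (0 : ℂ) 1) → (∀ i < n, ‖z i - pos ε (x i)‖ ≤ A * ε) →
      (∀ i < n, ∀ w : ℂ, ‖w‖ = 1 → ε ≤ A * ‖z i - f w‖) →
      (∀ i < n, ∀ j < n, i ≠ j → ε ≤ A * ‖z i - z j‖) →
      Cmp (C ^ n) (PD (↑(TD f ε) : Set Vtx) (Cn ((Finset.range n).image x)))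
        ((ε ^ (5 / 48 : ℝ)) ^ n * kFun (pull u) z n) := by
  obtain ⟨b0, C, N, K, ε0, κ, k, hε0, hdm, hK, hall⟩ := lp_S hA hf hd hA1
  obtain ⟨L0, e0, g0, lp0⟩ := hall ε0 hε0 le_rfl
  refine ⟨max 1 (k ^ 12 * (1 + (κ ^ 2 * (UK 500 k ^ 7)⁻¹)⁻¹) *
    (K2 A C K * K2 A C K * K2 A C K)), ε0, le_max_left _ _, hε0, fun ε hε hε1 => ?_⟩
  obtain ⟨L, e, g, lp⟩ := hall ε hε hε1
  refine ⟨lp.mem, fun u hu n x z hn hx hd' hz h1 h3 h5 => ?_⟩
  refine (kpt_z hdm g hK lp hu hn x z hx hd' hz h1 h3 h5).weaken ?_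
  apply pow_le_pow_left₀ _ (le_max_right _ _)
  have k1 := g0.k1
  have κ0 := g0.κ0
  have hK2 := K2_one hA1 hdm.C1 hK
  have hU : 0 < UK 500 k := lt_of_lt_of_le one_pos g0.U1
  positivity

/-- points inside the domain close to the vertices -/
theorem retr {f : ℂ → ℂ} {b0 C : ℝ} (h : DM f (fun _ => b0) C) (hb : 0 < b0)
    (hN : ∀ ζ ∈ disc, ∀ ω ∈ disc, ‖f ζ - f ω‖ ≤ b0) : ∃ A : ℝ, 1 ≤ A ∧
    ∀ ε : ℝ, 0 < ε → ε ≤ 1 / 2 → ∃ r : Vtx → ℂ, ∀ v, pos ε v ∈ f '' disc →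
      (r v ∈ f '' ball (0 : ℂ) 1 ∧ ‖r v - pos ε v‖ ≤ A * ε ∧
        ∀ w : ℂ, ‖w‖ = 1 → ε ≤ A * ‖r v - f w‖) ∧
      ∀ w, pos ε w ∈ f '' disc → v ≠ w → ε ≤ A * ‖r v - r w‖ := by
  have C1 := h.C1
  have C0 := h.C0
  set A : ℝ := 1 + C / b0 + 2 * C * b0 + 4 * C * C with hA
  have i1 : 0 < C / b0 := by positivity
  have i2 : 0 < 2 * C * b0 := by positivity
  have i3 : 0 < 4 * C * C := by positivity
  refine ⟨A, by linarith, fun ε hε hε2 => ⟨fun v => f (((1 - ε : ℝ) : ℂ) * iv f (pos ε v)), ?_⟩⟩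
  have key : ∀ v, pos ε v ∈ f '' disc → iv f (pos ε v) ∈ disc ∧
      f (iv f (pos ε v)) = pos ε v ∧ ‖((1 - ε : ℝ) : ℂ) * iv f (pos ε v)‖ ≤ 1 - ε := by
    intro v hv
    have h1 := iv_disc h hv
    refine ⟨h1, f_iv h hv, ?_⟩
    rw [norm_mul, Complex.norm_real, Real.norm_eq_abs, abs_of_pos (by linarith)]
    have := mem_disc.mp h1
    nlinarith [norm_nonneg (iv f (pos ε v))]
  intro v hv
  obtain ⟨v1, v2, v3⟩ := key v hv
  set a := iv f (pos ε v) with ha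
  set a' : ℂ := ((1 - ε : ℝ) : ℂ) * a with ha'
  have hn : ‖a'‖ < 1 := by linarith
  refine ⟨⟨mem_image_of_mem f (mem_ball_zero_iff.mpr hn), ?_, ?_⟩, ?_⟩
  · have h1 := h.lo a' (mem_disc.mpr hn.le) a v1
    have h2 : ‖a' - a‖ ≤ ε := by
      have e : a' - a = -((ε : ℂ) * a) := by
        rw [ha']
        push_cast
        ring
      rw [e, norm_neg, norm_mul, Complex.norm_real, Real.norm_eq_abs, abs_of_pos hε]
      have := mem_disc.mp v1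
      nlinarith
    rw [v2] at h1
    have h3 : ‖f a' - pos ε v‖ * b0 ≤ C * ε := by
      have h4 := norm_nonneg (f a' - pos ε v)
      have h5 : C * ‖a' - a‖ ≤ C * ε := mul_le_mul_of_nonneg_left h2 C0.le
      nlinarith
    have h6 : ‖f a' - pos ε v‖ ≤ C / b0 * ε := by
      rw [div_mul_eq_mul_div, le_div_iff₀ hb]
      exact h3
    refine h6.trans (mul_le_mul_of_nonneg_right (by linarith) hε.le)
  · intro w hw
    have h1 := (h.A2 hn).r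
    have h2 := bd_le (f := f) hw (f a')
    have h3 : ε ≤ 2 * C * (bd f (f a') * b0) := by linarith
    have h4 : 2 * C * (bd f (f a') * b0) ≤ (2 * C * b0) * ‖f a' - f w‖ := by
      have := mul_le_mul_of_nonneg_left h2 i2.le
      linarith
    refine (h3.trans h4).trans (mul_le_mul_of_nonneg_right (by linarith) (norm_nonneg _))
  · intro w hw hvw
    obtain ⟨w1, w2, w3⟩ := key w hw
    set c := iv f (pos ε w) with hc
    set c' : ℂ := ((1 - ε : ℝ) : ℂ) * c with hc'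
    have hn' : ‖c'‖ < 1 := by linarith
    have h1 := h.lo a v1 c w1
    have h2 := h.up a' (mem_disc.mpr hn.le) c' (mem_disc.mpr hn'.le)
    have h3 : ‖a' - c'‖ = (1 - ε) * ‖a - c‖ := by
      rw [ha', hc', ← mul_sub, norm_mul, Complex.norm_real, Real.norm_eq_abs,
        abs_of_pos (by linarith)]
    have h4 : ε ≤ ‖pos ε v - pos ε w‖ := by
      have g1 := pos_le_sd hε v w
      have g2 := sd_pos hvw
      have g3 := sd_pos_le hε v w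
      have g4 : (1 : ℝ) ≤ (sd v w : ℝ) := by exact_mod_cast g2
      nlinarith
    rw [v2, w2] at h1
    have h5 := hN a' (mem_disc.mpr hn.le) c' (mem_disc.mpr hn'.le)
    have n0 := norm_nonneg (f a' - f c')
    have n1 := norm_nonneg (a - c)
    -- `ε b0 ≤ C ‖a - c‖ ≤ 2 C ‖a' - c'‖ ≤ 2 C² δ (2 b0)`
    have h6 : ε * b0 ≤ C * ‖a - c‖ := by nlinarith
    have h7 : ‖a - c‖ ≤ 2 * ‖a' - c'‖ := by nlinarith
    have h8 : ‖f a' - f c'‖ * (b0 + ‖f a' - f c'‖) ≤ ‖f a' - f c'‖ * (2 * b0) :=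
      mul_le_mul_of_nonneg_left (by linarith) n0
    have h9 : ε * b0 ≤ 4 * C * C * ‖f a' - f c'‖ * b0 := by
      calc ε * b0 ≤ C * ‖a - c‖ := h6
        _ ≤ C * (2 * ‖a' - c'‖) := mul_le_mul_of_nonneg_left h7 C0.le
        _ ≤ C * (2 * (C * (‖f a' - f c'‖ * (b0 + ‖f a' - f c'‖)))) := by
            apply mul_le_mul_of_nonneg_left _ C0.le
            linarith
        _ ≤ C * (2 * (C * (‖f a' - f c'‖ * (2 * b0)))) := by
            apply mul_le_mul_of_nonneg_left _ C0.le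
            have := mul_le_mul_of_nonneg_left h8 C0.le
            linarith
        _ = _ := by ring
    have h10 : ε ≤ 4 * C * C * ‖f a' - f c'‖ := le_of_mul_le_mul_right h9 hb
    exact h10.trans (mul_le_mul_of_nonneg_right (by linarith) n0)

/-- exact covariance -/
theorem kFun_conf {D D' : Set ℂ} (hD : IsOpen D) (hD' : IsOpen D') {u u' φ : ℂ → ℂ}
    (hu : Conf D UH u) (hu' : Conf D' UH u') (h : Conf D D' φ) {n : ℕ} (hn : 2 ≤ n) {z : ℕ → ℂ}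
    (hz : ∀ i < n, z i ∈ D) : kFun (pull u) z n =
      (∏ i ∈ Finset.range n, ‖deriv φ (z i)‖ ^ (5 / 48 : ℝ)) *
        kFun (pull u') (fun i => φ (z i)) n := by
  refine kFun_cov (J := fun y => ‖deriv φ y‖ ^ (5 / 48 : ℝ)) (φ := φ) hn ?_ ?_
  · intro i hi
    have := norm_pos_iff.mpr (h.deriv_ne hD hD' (hz i hi))
    positivity
  · intro i hi j hj _
    exact pull_conf hD hD' hu hu' h (hz i hi) (hz j hj)

end Pool.Agent.J6H18.GD
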