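import Pool.Agent.J6H18.GD.Lat

/-!
Smooth Jordan domains: the profile.
-/

set_option autoImplicit false

namespace Pool.Agent.J6H18.GD

open TH976 (Cmp E EH E_eq_EH E_pos EH_pos eH sd sd_pos sd_comm sd_tri)
open Complex Set Metric Filter Topology H974 H973
open Pool.Agent.Y989.SD (disc mem_disc pos cir TD GDc SmW Win QB mem_QB emb)
open Pool.Agent.H389R2.CD (ArS)

theorem dm_S {f g : ℂ → ℂ} {M α : ℝ} (hf : SmW f g M α) (hd : DifferentiableOn ℂ f (ball 0 1)) :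
    ∃ b0 C : ℝ, 0 < b0 ∧ DM f (fun _ => b0) C ∧ ∀ ζ ∈ disc, ∀ ω ∈ disc, ‖f ζ - f ω‖ ≤ b0 := by
  obtain ⟨l, H, hl, hH, hlip, -, -, -, -⟩ := Pool.Agent.Y989.SD.m_GA f g M α hf
  have h2 : ∀ ζ ∈ disc, ∀ ω ∈ disc, ‖f ζ - f ω‖ ≤ 2 * H := by
    intro ζ hζ ω hω
    refine (hlip ζ hζ ω hω).2.trans ?_
    have h3 : ‖ζ - ω‖ ≤ 2 := (norm_sub_le _ _).trans (by
      have := mem_disc.mp hζ
      have := mem_disc.mp hω
      linarith)
    nlinarith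
  set C : ℝ := 1 + (l * (2 * H))⁻¹ + 4 * (H * H) with hC
  have i0 : 0 < (l * (2 * H))⁻¹ := by positivity
  have hHH : 0 < H * H := by positivity
  refine ⟨2 * H, C, by positivity, ⟨by linarith, ?_, hd, ?_, ?_, ?_, ?_⟩, h2⟩
  · intro w hw
    rw [ContinuousWithinAt, tendsto_iff_norm_sub_tendsto_zero]
    have h1 : Tendsto (fun z : ℂ => H * ‖z - w‖) (𝓝[disc] w) (𝓝 0) := by
      have h3 : Continuous fun z : ℂ => H * ‖z - w‖ := by fun_prop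
      have h4 := h3.tendsto w
      simp only [sub_self, norm_zero, mul_zero] at h4
      exact h4.mono_left nhdsWithin_le_nhds
    refine squeeze_zero' (Eventually.of_forall fun _ => norm_nonneg _) ?_ h1
    filter_upwards [self_mem_nhdsWithin] with z hz
    exact (hlip z hz w hw).2
  · intro ζ hζ ω hω
    have h1 := (hlip ζ hζ ω hω).1
    have n0 := norm_nonneg (ζ - ω)
    have n1 := norm_nonneg (f ζ - f ω)
    calc ‖ζ - ω‖ = (l * (2 * H))⁻¹ * ((l * ‖ζ - ω‖) * (2 * H)) := by field_simp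
      _ ≤ (l * (2 * H))⁻¹ * (‖f ζ - f ω‖ * (2 * H + ‖f ζ - f ω‖)) := by
          apply mul_le_mul_of_nonneg_left _ i0.le
          exact mul_le_mul h1 (by linarith) (by positivity) n1
      _ ≤ C * (‖f ζ - f ω‖ * (2 * H + ‖f ζ - f ω‖)) := by
          apply mul_le_mul_of_nonneg_right _ (by positivity)
          linarith
  · intro ζ hζ ω hω
    have h1 := (hlip ζ hζ ω hω).2
    have h3 := h2 ζ hζ ω hω
    have n0 := norm_nonneg (ζ - ω)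
    have n1 := norm_nonneg (f ζ - f ω)
    calc ‖f ζ - f ω‖ * (2 * H + ‖f ζ - f ω‖) ≤ (H * ‖ζ - ω‖) * (4 * H) := by
          apply mul_le_mul h1 (by linarith) (by positivity) (by positivity)
      _ = 4 * (H * H) * ‖ζ - ω‖ := by ring
      _ ≤ C * ‖ζ - ω‖ := by
          apply mul_le_mul_of_nonneg_right _ n0
          linarith
  · intro ζ _ ω _
    have := norm_nonneg (f ζ - f ω)
    linarith
  · intro ζ hζ
    have h1 := bd_le (f := f) (ω := 1) (by simp) (f ζ)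
    exact h1.trans (h2 ζ hζ 1 (mem_disc.mpr (by simp)))

theorem gd_D' (hA : ArS) {f g : ℂ → ℂ} {M α : ℝ} (hf : SmW f g M α) : ∃ ρ B c ε0 κ k : ℝ, 0 < ρ ∧
    0 < c ∧ 0 < ε0 ∧ ∀ ε : ℝ, 0 < ε → ε ≤ ε0 → GDc f ε ρ B α ∧ ε ≤ ρ ∧ 2 * ε ≤ c ∧
      GD (TD f ε) (eS (TD f ε) ⌊c / ε⌋₊) ⌊c / ε⌋₊ 500 κ k := by
  obtain ⟨l, H, hl, hH, hlip, -, -, hK, hint⟩ := Pool.Agent.Y989.SD.m_GA f g M α hf
  obtain ⟨ρ, B, ε0, hρ, hε0, hG⟩ := Pool.Agent.Y989.SD.m_GD f g M α hf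
  set c : ℝ := ρ / 40000 with hc
  have hc0 : 0 < c := by positivity
  obtain ⟨N, hN⟩ := chn_D (ρ := ρ) (B := B) (α := α) hH hc0 (fun z hz w hw => (hlip z hz w hw).2)
    hK hint
  obtain ⟨κ, k, hgd⟩ := gd_S hA (B := B) hf.al0 N
  refine ⟨ρ, B, c, min ε0 (c / 200), κ, k, hρ, hc0, lt_min hε0 (by positivity),
    fun ε hε hε1 => ?_⟩
  have hε2 : ε ≤ ε0 := hε1.trans (min_le_left _ _)
  have hε3 : ε ≤ c / 200 := hε1.trans (min_le_right _ _)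
  have hGε : GDc f ε ρ B α := hG ε hε hε2
  have hcρ : c * 40000 = ρ := by rw [hc]; ring
  refine ⟨hGε, by linarith, by linarith, hgd (TD f ε) ⌊ρ / ε⌋ ⌊c / ε⌋₊ ?_ ?_ (hN ε hε hε3 hGε)
    (fun v hv => near_D hε hGε hv)⟩
  · apply Nat.le_floor
    rw [le_div_iff₀ hε]
    push_cast
    linarith
  · rw [Int.le_floor]
    have h1 : (⌊c / ε⌋₊ : ℝ) ≤ c / ε := Nat.floor_le (by positivity)
    push_cast
    rw [le_div_iff₀ hε] at h1 ⊢
    nlinarith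

/-- a window has a vertex outside -/
theorem win_out {T : Finset Vtx} {w : Vtx} {L : ℤ} {B α : ℝ} (h : Win T w L B α) (hL : 1 ≤ L) :
    ∃ y, y ∉ T ∧ sd w y = 1 := by
  obtain ⟨e, he, h, s, hlp, -, -, hT⟩ := h
  refine ⟨emb e w (0, -1), ?_, ?_⟩
  · rw [hT (0, -1) (by rw [mem_QB]; simp only; omega), hlp.zero]
    norm_num
  · unfold sd emb
    rcases he with rfl | rfl | rfl | rfl <;> simp

theorem dc_cmp {f : ℂ → ℂ} {ε ρ B α A : ℝ} (hε : 0 < ε) (hερ : ε ≤ ρ) (hA : 1 ≤ A)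
    (hG : GDc f ε ρ B α) {b : ℂ → ℝ} {C : ℝ} (h : DM f b C) {v : Vtx} (hv : v ∈ TD f ε) {ζ : ℂ}
    (hζ : ‖ζ‖ < 1) (h1 : ‖f ζ - pos ε v‖ ≤ A * ε) (h2 : ε ≤ A * bd f (f ζ)) :
    Cmp (5 * A ^ 2) ((dc (TD f ε) v : ℕ) : ℝ) (bd f (f ζ) / ε) := by
  have hAA : 1 ≤ A ^ 2 := one_le_pow₀ hA
  have hAA' : A ≤ A ^ 2 := by nlinarith
  have hK : IsCompact (f '' disc) :=
    (isCompact_closedBall (0 : ℂ) 1).image_of_continuousOn h.cont
  have d1 := dc_pos hv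
  have d1r : (1 : ℝ) ≤ ((dc (TD f ε) v : ℕ) : ℝ) := by exact_mod_cast d1
  refine ⟨by nlinarith, by linarith, div_pos (h.bd_pos hζ) hε, ?_, ?_⟩
  · -- a vertex outside
    obtain ⟨ω, hω, he⟩ := h.attain (f ζ)
    obtain ⟨θ, hθ⟩ : ∃ θ : ℝ, cir θ = ω := by
      refine ⟨Complex.arg ω, ?_⟩
      unfold cir
      have := Complex.norm_mul_exp_arg_mul_I ω
      rwa [hω, Complex.ofReal_one, one_mul] at this
    obtain ⟨w, hw, hwθ, hwin⟩ := hG.2.1 θ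
    obtain ⟨y, hy, hwy⟩ := win_out hwin (by
      rw [Int.le_floor, le_div_iff₀ hε]
      push_cast
      linarith)
    have g1 := dc_le (v := v) hy
    have g2 := sd_tri v w y
    have g3 := sd_pos_le hε v w
    have g4 : ‖pos ε v - pos ε w‖ ≤ A * ε + bd f (f ζ) + 2 * ε := by
      have e1 : pos ε v - pos ε w = -(f ζ - pos ε v) + (f ζ - f ω) + -(pos ε w - f ω) := by ring
      rw [e1]
      refine norm_add₃_le.trans ?_
      rw [norm_neg, norm_neg, he]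
      rw [hθ] at hwθ
      linarith
    have g5 : ((dc (TD f ε) v : ℕ) : ℝ) ≤ (sd v w : ℝ) + 1 := by
      have : dc (TD f ε) v ≤ sd v w + 1 := by omega
      exact_mod_cast this
    have b0 := h.bd_pos hζ
    rw [← mul_div_assoc, le_div_iff₀ hε]
    have q1 : (A + 3) * ε ≤ (A + 3) * (A * bd f (f ζ)) := mul_le_mul_of_nonneg_left h2 (by linarith)
    have q2 : (A + 3) * (A * bd f (f ζ)) + bd f (f ζ) ≤ 5 * A ^ 2 * bd f (f ζ) := by
      have : (A + 3) * A + 1 ≤ 5 * A ^ 2 := by nlinarith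
      calc (A + 3) * (A * bd f (f ζ)) + bd f (f ζ) = ((A + 3) * A + 1) * bd f (f ζ) := by ring
        _ ≤ _ := mul_le_mul_of_nonneg_right this b0.le
    nlinarith
  · obtain ⟨y, hy, hvy⟩ := dc_spec (TD f ε) v
    have g1 := pos_le_sd hε v y
    rw [hvy] at g1
    have g2 : pos ε y ∉ f '' disc := fun hc => hy ((hG.1 y).mpr hc)
    have g3 : pos ε v ∈ f '' disc := (hG.1 v).mp hv
    obtain ⟨θ, hθ⟩ := Pool.Agent.Y989.SD.GD.seg hK (fun w hw => by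
      refine mem_interior.mpr ⟨f '' ball (0 : ℂ) 1, image_mono ball_disc, h.open_D, ?_⟩
      exact mem_image_of_mem f (by simpa using hw)) g3 g2
    rw [norm_sub_rev (pos ε y)] at hθ
    have g4 := bd_le (f := f) (ω := cir θ) (Pool.Agent.Y989.SD.CHN.cir_norm θ) (f ζ)
    have g5 : ‖f ζ - f (cir θ)‖ ≤ A * ε + 2 * (ε * ((dc (TD f ε) v : ℕ) : ℝ)) := by
      have e1 : f ζ - f (cir θ) = (f ζ - pos ε v) + (pos ε v - f (cir θ)) := by ring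
      rw [e1]
      refine (norm_add_le _ _).trans ?_
      linarith
    rw [div_le_iff₀ hε]
    have q1 : A * ε ≤ A ^ 2 * (ε * ((dc (TD f ε) v : ℕ) : ℝ)) := by
      have : ε ≤ ε * ((dc (TD f ε) v : ℕ) : ℝ) := by nlinarith
      exact mul_le_mul hAA' this hε.le (by linarith)
    have q2 : (ε * ((dc (TD f ε) v : ℕ) : ℝ)) ≤ A ^ 2 * (ε * ((dc (TD f ε) v : ℕ) : ℝ)) := by
      have : 0 ≤ (ε * ((dc (TD f ε) v : ℕ) : ℝ)) := by positivity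
      nlinarith
    nlinarith

/-- **Smooth domains.** -/
theorem lp_S (hA : ArS) {f g : ℂ → ℂ} {M α : ℝ} (hf : SmW f g M α)
    (hd : DifferentiableOn ℂ f (ball 0 1)) {A : ℝ} (hA1 : 1 ≤ A) :
    ∃ b0 C N K ε0 κ k : ℝ, 0 < ε0 ∧ DM f (fun _ => b0) C ∧ 1 ≤ K ∧ ∀ ε : ℝ, 0 < ε → ε ≤ ε0 →
      ∃ (L : ℕ) (e : Vtx → ℕ → ℝ), GD (TD f ε) e L 500 κ k ∧
        LP f (fun _ => b0) ε (TD f ε) e A K N := by
  obtain ⟨b0, C, hb0, hdm, hdi⟩ := dm_S hf hd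
  obtain ⟨ρ, B, c, ε0, κ, k, hρ, hc, hε0, hall⟩ := gd_D' hA hf
  have hAA : 1 ≤ A ^ 2 := one_le_pow₀ hA1
  set K1 : ℝ := 5 * A ^ 2 + (1 + 2 * b0 / c) with hK1
  have hbc : 0 < 2 * b0 / c := by positivity
  have hK11 : 1 ≤ K1 := by linarith
  refine ⟨b0, C, b0, K1 * (K1 * K1), ε0, κ, k, hε0, hdm,
    Cmp.one_le_mul' hK11 (Cmp.one_le_mul' hK11 hK11), fun ε hε hε1 => ?_⟩
  obtain ⟨hG, hερ, hεc, hgd⟩ := hall ε hε hε1
  refine ⟨⌊c / ε⌋₊, eS (TD f ε) ⌊c / ε⌋₊, hgd, hε, hA1, hG.1, hdi, ?_⟩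
  intro v hv ζ hζ h1 h2 n hn hnN
  have hnr : (1 : ℝ) ≤ n := by exact_mod_cast hn
  have e1 : E (bd f (f ζ) / ε) (b0 / ε) n = EH (bd f (f ζ) / ε) n :=
    E_eq_EH (by linarith) (by rw [le_div_iff₀ hε]; linarith)
  show Cmp _ (EH _ _) (E (bd f (f ζ) / ε) (b0 / ε) n)
  rw [e1]
  have c1 : Cmp K1 (((dc (TD f ε) v : ℤ)) : ℝ) (bd f (f ζ) / ε) := by
    have := dc_cmp hε hερ hA1 hG hdm hv hζ h1 h2
    have h3 := this.weaken (l := K1) (by linarith)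
    exact_mod_cast h3
  have hL : c ≤ 2 * (ε * (⌊c / ε⌋₊ : ℝ)) := by
    have h3 := Nat.lt_floor_add_one (c / ε)
    rw [div_lt_iff₀ hε] at h3
    nlinarith
  have hL0 : 1 ≤ ⌊c / ε⌋₊ := by
    apply Nat.le_floor
    rw [le_div_iff₀ hε]
    push_cast
    linarith
  have hL0r : (1 : ℝ) ≤ (⌊c / ε⌋₊ : ℝ) := by exact_mod_cast hL0
  have c2 : Cmp K1 (((min n ⌊c / ε⌋₊ : ℕ)) : ℝ) (n : ℝ) := by
    rcases le_total n ⌊c / ε⌋₊ with h | h
    · rw [min_eq_left h]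
      exact (Cmp.refl (by linarith)).weaken hK11
    · rw [min_eq_right h]
      have hr : (⌊c / ε⌋₊ : ℝ) ≤ n := by exact_mod_cast h
      refine (Cmp.of_le (k := 1 + 2 * b0 / c) (by linarith) hr (by linarith) ?_).weaken (by linarith)
      have h3 : (n : ℝ) ≤ 2 * b0 / c * (⌊c / ε⌋₊ : ℝ) := by
        have h4 : ε * (n : ℝ) * c ≤ b0 * (2 * (ε * (⌊c / ε⌋₊ : ℝ))) :=
          mul_le_mul hnN hL hc.le hb0.le
        have h5 : (n : ℝ) * c ≤ 2 * b0 * (⌊c / ε⌋₊ : ℝ) := by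
          have h6 : ε * ((n : ℝ) * c) ≤ ε * (2 * b0 * (⌊c / ε⌋₊ : ℝ)) := by linarith
          exact le_of_mul_le_mul_left h6 hε
        rw [div_mul_eq_mul_div, le_div_iff₀ hc]
        exact h5
      nlinarith
  exact EH_cmp c1 c2

end Pool.Agent.J6H18.GD
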