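import Pool.Agent.J6H18.GD.Prof
import Pool.Agent.Y989.SD.Main

/-!
Lattice domains whose boundary is described by `C^(1,α)` windows are regular.
-/

set_option autoImplicit false

namespace Pool.Agent.J6H18.GD

open Finset H974 Pool.Agent.H160R2.CV H362P
open Pool.Agent.H160R2.CV.Quad Pool.Agent.H389R2.CD
open TH976 (sd sd_self sd_comm sd_tri sd_pos Ar Ar_incr Cmp fkg incr_and pr_TB pr_LR pr_true DH eH
  EH EH_pos reg_H vseg vseg_reach pr_all)
open H973 (ES mem_ES EV reach_mem mem_RE_ends mem_RE_of_ends dlt dlt_pos dlt_le hh_long BX mem_BX)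
open Pool.Agent.Y989.SD (Blk Win QB mem_QB XT VT HT Lp)
open Pool.Agent.Y989.SD.WIN (tT mem_tT tT_img pr_tT reach_mp)

theorem EH_big {s n : ℝ} (hs : 0 < s) (h : s ≤ n) :
    EH s n = s ^ (-(5 / 48 : ℝ)) * (s / n) ^ (1 / 3 : ℝ) := by
  have hn : 0 < n := by linarith
  unfold EH
  rw [min_eq_right ((div_le_one hn).mpr h), Real.div_rpow hs.le hn.le, Real.div_rpow hs.le hn.le]
  simp only [Real.rpow_def_of_pos hn, Real.rpow_def_of_pos hs]
  rw [← Real.exp_sub, ← Real.exp_sub, ← Real.exp_add, ← Real.exp_add]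
  congr 1
  ring

theorem EH_le {s n : ℝ} (hn : 0 < n) (hs : 0 < s) : EH s n ≤ n ^ (-(5 / 48 : ℝ)) := by
  unfold EH
  have h1 : 0 < n ^ (-(5 / 48 : ℝ)) := Real.rpow_pos_of_pos hn _
  have h : 0 < min 1 (s / n) := lt_min one_pos (by positivity)
  have h2 : (min 1 (s / n)) ^ (11 / 48 : ℝ) ≤ 1 :=
    Real.rpow_le_one h.le (min_le_left _ _) (by norm_num)
  nlinarith

/-- `v` has a window at the distance of the complement -/
def Near (T : Finset Vtx) (v w : Vtx) (L0 : ℤ) (B α : ℝ) : Prop :=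
  Win T w L0 B α ∧ sd v w ≤ dc T v + 3

theorem rpow_neg_mono {x y : ℝ} (hx : 0 < x) (h : x ≤ y) :
    y ^ (-(5 / 48 : ℝ)) ≤ x ^ (-(5 / 48 : ℝ)) :=
  Real.rpow_le_rpow_of_nonpos hx h (by norm_num)

/-- an arm from `v` which goes away from the boundary -/
theorem up_arm (hA : ArS) (A : ℕ) : ∃ c : ℝ, 0 < c ∧ ∀ (T : Finset Vtx) (v w : Vtx) (L0 : ℤ)
    (B α : ℝ) (R : ℕ), v ∈ T → Near T v w L0 B α → 1 ≤ R → R ≤ A * dc T v →
      2 * (dc T v : ℤ) + 3 + R ≤ L0 → c * (dc T v : ℝ) ^ (-(5 / 48 : ℝ)) ≤ aT T v R := by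
  obtain ⟨ca, Ca, hca, -, har⟩ := hA
  have d4 : 0 < dlt ^ 4 := pow_pos dlt_pos 4
  have d4' : dlt ^ 4 ≤ 1 := pow_le_one₀ dlt_pos.le dlt_le
  set c1 : ℝ := (1 / 2 : ℝ) ^ (48 * (2 * A + 1)) with hc1
  have c10 : 0 < c1 := by positivity
  have c11 : c1 ≤ 1 := by
    rw [hc1]
    exact pow_le_one₀ (by norm_num) (by norm_num)
  refine ⟨min (dlt ^ 4 * (ca * c1)) ((1 / 2 : ℝ) ^ (8 * A)),
    lt_min (mul_pos d4 (mul_pos hca c10)) (by positivity), ?_⟩
  rintro T v w L0 B α R hv ⟨hwin, hvw⟩ hR1 hRA hL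
  set S := dc T v with hS
  have hS1 : 1 ≤ S := dc_pos hv
  have hSr : (0 : ℝ) < S := by exact_mod_cast hS1
  have hS48 : 0 < (S : ℝ) ^ (-(5 / 48 : ℝ)) := Real.rpow_pos_of_pos hSr _
  rcases Nat.lt_or_ge R S with hRS | hRS
  · -- the arm stays in the ball
    have h1 : ar R ≤ aT T v R := ar_le_aT (fun u hu => mem_of_dc (v := v) (by
      rw [sd_comm]; omega))
    have h2 := (har R hR1).1
    have h3 : (S : ℝ) ^ (-(5 / 48 : ℝ)) ≤ (R : ℝ) ^ (-(5 / 48 : ℝ)) :=
      rpow_neg_mono (by exact_mod_cast hR1) (by exact_mod_cast hRS.le)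
    calc min (dlt ^ 4 * (ca * c1)) ((1 / 2 : ℝ) ^ (8 * A)) * (S : ℝ) ^ (-(5 / 48 : ℝ))
        ≤ ca * (R : ℝ) ^ (-(5 / 48 : ℝ)) := by
          apply mul_le_mul _ h3 hS48.le hca.le
          refine (min_le_left _ _).trans ?_
          calc dlt ^ 4 * (ca * c1) ≤ 1 * (ca * 1) :=
                mul_le_mul d4' (mul_le_mul_of_nonneg_left c11 hca.le) (by positivity) zero_le_one
            _ = ca := by ring
      _ ≤ ar R := h2
      _ ≤ _ := h1
  obtain ⟨g, h, s, hg0, hgB, hlp, -, -, hT⟩ := Pool.Agent.Y989.SD.EMB.t_EMB T w L0 B α hwin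
  have hiso : Iso g := by
    intro a b
    have h1 : g.ψ a ∈ BX (g.ψ b) (sd a b) := by
      rw [hgB, mem_BX]
      unfold sd
      omega
    have h2 : a ∈ BX b (sd (g.ψ a) (g.ψ b)) := by
      rw [← hgB, mem_BX]
      unfold sd
      omega
    rw [mem_BX] at h1 h2
    apply le_antisymm
    · unfold sd at h1 ⊢
      omega
    · unfold sd at h2 ⊢
      omega
  obtain ⟨y, hy⟩ := g.ψ.surjective v
  have hy0 : sd y (0, 0) ≤ S + 3 := by
    rw [← hiso, hy, hg0]
    exact hvw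
  rw [← hy, aT_sym hiso]
  set T' := tT g T with hT'
  have hball : ∀ u, sd u y < S → u ∈ T' := by
    intro u hu
    rw [hT', mem_tT]
    apply mem_of_dc (v := v)
    have e1 : sd v (g.ψ u) = sd u y := by rw [← hy, hiso, sd_comm]
    rw [e1]
    exact hu
  have hyT : y ∈ T' := hball y (by rw [sd_self]; omega)
  have hmem : ∀ u ∈ QB L0, (u ∈ T' ↔ h u.1 ≤ u.2) := fun u hu => by
    rw [hT', mem_tT]
    exact hT u hu
  have hyb := hy0
  unfold sd at hyb
  simp only [sub_zero] at hyb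
  have hyQ : y ∈ QB L0 := by rw [mem_QB]; omega
  rcases Nat.lt_or_ge S 8 with hS8 | hS8
  · -- straight path
    have hup : ∀ i : ℕ, i ≤ R → (y.1, y.2 + (i : ℤ)) ∈ T' := by
      intro i hi
      rw [hmem _ (by rw [mem_QB]; simp only; omega)]
      have := (hmem y hyQ).mp hyT
      simp only
      omega
    have h1 : vseg y R ⊆ ES T' := by
      intro e he
      unfold vseg at he
      rw [Finset.mem_image] at he
      obtain ⟨i, hi, rfl⟩ := he
      rw [Finset.mem_range] at hi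
      rw [mem_ES, src_mk, tgt_false]
      refine ⟨hup i (by omega), ?_⟩
      have := hup (i + 1) (by omega)
      push_cast at this
      rwa [add_assoc]
    have h2 : (vseg y R).card ≤ R := by
      unfold vseg
      exact Finset.card_image_le.trans (by rw [Finset.card_range])
    have hR8 : R ≤ 8 * A := by nlinarith
    have h3 : (S : ℝ) ^ (-(5 / 48 : ℝ)) ≤ 1 := by
      have := rpow_neg_mono (x := 1) (y := S) one_pos (by exact_mod_cast hS1)
      rwa [Real.one_rpow] at this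
    calc min (dlt ^ 4 * (ca * c1)) ((1 / 2 : ℝ) ^ (8 * A)) * (S : ℝ) ^ (-(5 / 48 : ℝ))
        ≤ (1 / 2 : ℝ) ^ (8 * A) * 1 := mul_le_mul (min_le_right _ _) h3 hS48.le (by positivity)
      _ = (1 / 2 : ℝ) ^ (8 * A) := mul_one _
      _ ≤ (1 / 2 : ℝ) ^ (vseg y R).card :=
          pow_le_pow_of_le_one (by norm_num) (by norm_num) (h2.trans hR8)
      _ ≤ _ := pr_all h1
      _ ≤ _ := by
        apply Pr_mono okP
        intro F _ hF
        refine ⟨(y.1, y.2 + R), ?_, vseg_reach (by exact_mod_cast hF)⟩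
        unfold sd
        simp only
        omega
  · -- tube
    set m := (S - 1) / 4 with hm
    have hm1 : 1 ≤ m := by omega
    have hm3 : 3 * m < S := by omega
    have hm8 : S ≤ 8 * m := by omega
    have htube : ∀ u : Vtx, (y.1 - m ≤ u.1 ∧ u.1 ≤ y.1 + m) → (y.2 ≤ u.2 ∧ u.2 ≤ y.2 + R) →
        u ∈ T' := by
      intro u h1 h2
      have h3 : (u.1, y.2) ∈ T' := hball _ (by unfold sd; simp only; omega)
      have h4 := (hmem (u.1, y.2) (by rw [mem_QB]; simp only; omega)).mp h3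
      rw [hmem u (by rw [mem_QB]; omega)]
      simp only at h4
      omega
    have hsub : RE (y.1 - m) (y.1 + m) y.2 (y.2 + R) ⊆ ES T' := by
      intro e he
      obtain ⟨g1, g2⟩ := mem_RE_ends he
      unfold inR at g1 g2
      rw [mem_ES]
      exact ⟨htube _ g1.1 g1.2, htube _ g2.1 g2.2⟩
    have hRm : (R : ℤ) ≤ (8 + 6 * ((2 * A : ℕ) : ℤ)) * m := by
      have h1 : R ≤ A * (8 * m) := hRA.trans (Nat.mul_le_mul_left A hm8)
      have h2 : A * (8 * m) ≤ (8 + 6 * (2 * A)) * m := by nlinarith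
      exact_mod_cast h1.trans h2
    have p1 : c1 ≤ xT T' y m R := by
      have h1 := pr_TBlong (S := ES T') hsub (2 * A) (m := m) (by omega) (by omega)
        (by rw [add_sub_cancel_left]; exact hRm) (by omega)
      refine h1.trans (Pr_mono okP ?_)
      rintro F _ ⟨x, x', hx, hx', hr⟩
      refine ⟨(x, y.2), htube _ (by simp only; omega) (by simp only; omega), (x', y.2 + R), ?_, ?_,
        hr.mono Set.inter_subset_left⟩
      · unfold sd; simp only; omega
      · unfold sd; simp only; omega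
    have p2 := pr_BLin (T := T') (c := y) hm1 (fun u hu => hball u (by omega))
    have p3 := xT_le (T := T') hyT (r := m) (R := 3 * m) (n := R) (by omega) p2
    have p4 : ar (3 * m) ≤ aT T' y (3 * m) := ar_le_aT (fun u hu => hball u (by omega))
    have p5 := (har (3 * m) (by omega)).1
    have p6 : (S : ℝ) ^ (-(5 / 48 : ℝ)) ≤ ((3 * m : ℕ) : ℝ) ^ (-(5 / 48 : ℝ)) :=
      rpow_neg_mono (by exact_mod_cast (show 0 < 3 * m by omega)) (by exact_mod_cast hm3.le)
    have a0 := aT_nonneg T' y (3 * m)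
    calc min (dlt ^ 4 * (ca * c1)) ((1 / 2 : ℝ) ^ (8 * A)) * (S : ℝ) ^ (-(5 / 48 : ℝ))
        ≤ (dlt ^ 4 * (ca * c1)) * (S : ℝ) ^ (-(5 / 48 : ℝ)) :=
          mul_le_mul_of_nonneg_right (min_le_left _ _) hS48.le
      _ = dlt ^ 4 * ((ca * (S : ℝ) ^ (-(5 / 48 : ℝ))) * c1) := by ring
      _ ≤ dlt ^ 4 * (aT T' y (3 * m) * xT T' y m R) := by
          apply mul_le_mul_of_nonneg_left _ d4.le
          apply mul_le_mul _ p1 c10.le a0
          exact (mul_le_mul_of_nonneg_left p6 hca.le).trans (p5.trans p4)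
      _ ≤ _ := p3

/-- blocking clusters -/
theorem blk_S {B α : ℝ} (hα : 0 < α) : ∃ κ : ℝ, 0 < κ ∧ κ ≤ 1 ∧ ∀ (T : Finset Vtx) (v w : Vtx)
    (L0 : ℤ) (r : ℕ), v ∈ T → Near T v w L0 B α → 1 ≤ r → 896 * (r : ℤ) ≤ L0 →
      κ ≤ Pr P (ES T) (BL T v r (500 * r)) := by
  obtain ⟨c, C, hc, -, hwin⟩ := Pool.Agent.Y989.SD.m_WIN B α hα
  have d4 : 0 < dlt ^ 4 := pow_pos dlt_pos 4
  have d4' : dlt ^ 4 ≤ 1 := pow_le_one₀ dlt_pos.le dlt_le
  refine ⟨min c (dlt ^ 4), lt_min hc d4, (min_le_right _ _).trans d4', ?_⟩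
  rintro T v w L0 r hv ⟨hw, hvw⟩ hr hL
  rcases Nat.lt_or_ge (3 * r) (dc T v) with h | h
  · refine ((min_le_right _ _).trans (pr_BLin (T := T) (c := v) hr (fun u hu =>
      mem_of_dc (v := v) (by rw [sd_comm]; omega)))).trans (Pr_mono okP ?_)
    rintro F _ ⟨z, hz⟩
    exact ⟨z, hz.weaken (by rw [sd_self]; omega) (by rw [sd_self]; omega)⟩
  · have h1 := (hwin T w L0 hw (7 * r) (7 * r) (by omega) le_rfl (by omega)).2.2.2 (by omega)
    refine ((min_le_left _ _).trans h1).trans (Pr_mono okP ?_)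
    rintro F _ ⟨z, -, -, -, hz⟩
    refine ⟨z, fun u hu hu' x hx hx' => ?_⟩
    have g1 : sd u v ≤ r := hu'
    have g2 : 500 * r ≤ sd x v := hx'
    have t1 := sd_tri u v w
    have t2 := sd_tri x w v
    have t3 := sd_comm v w
    have b1 : u ∈ BX w (7 * (r : ℤ)) := by
      rw [mem_BX]
      have : sd u w ≤ 7 * r := by omega
      unfold sd at this
      omega
    have b2 : x ∉ BX w (64 * (7 * (r : ℤ)) - 1) := by
      rw [mem_BX]
      have : 448 * r ≤ sd x w := by omega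
      unfold sd at this
      omega
    exact hz u hu b1 x hx b2

/-- the one-arm probabilities -/
theorem arm_S (hA : ArS) {B α : ℝ} (hα : 0 < α) : ∃ k : ℝ, 1 ≤ k ∧ ∀ (T : Finset Vtx) (v w : Vtx)
    (L0 : ℤ) (n : ℕ), v ∈ T → Near T v w L0 B α → 1 ≤ n → 10 * (n : ℤ) ≤ L0 →
      Cmp k (aT T v n) (EH (dc T v) n) := by
  obtain ⟨cu, hcu, hup⟩ := up_arm hA 3000
  obtain ⟨κ, κ0, κ1, hblk⟩ := blk_S (B := B) hα
  obtain ⟨c, C, hc, hC, hwin⟩ := Pool.Agent.Y989.SD.m_WIN B α hα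
  obtain ⟨ca, Ca, hca, hCa, har⟩ := hA
  -- constants
  set k1 : ℝ := 32 * Ca + 10 * Ca * C with hk1
  set k2 : ℝ := min ca (min cu (κ * cu * (c * (1 / 6)))) with hk2
  have k20 : 0 < k2 := lt_min hca (lt_min hcu (by positivity))
  have k2i : 0 < k2⁻¹ := inv_pos.mpr k20
  refine ⟨1 + k1 + k2⁻¹, by linarith [show 0 < k1 by positivity], ?_⟩
  rintro T v w L0 n hv hnear hn hL
  have hk10 : 0 < k1 := by positivity
  obtain ⟨hw, hvw⟩ := hnear
  set S := dc T v with hS
  have hS1 : 1 ≤ S := dc_pos hv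
  have hSr : (1 : ℝ) ≤ S := by exact_mod_cast hS1
  have hnr : (1 : ℝ) ≤ n := by exact_mod_cast hn
  have hS0 : (0 : ℝ) < S := by linarith
  have hn0 : (0 : ℝ) < n := by linarith
  have hE0 : 0 < EH S n := EH_pos hn0 hS0
  have hn48 : 0 < (n : ℝ) ^ (-(5 / 48 : ℝ)) := Real.rpow_pos_of_pos hn0 _
  have hS48 : 0 < (S : ℝ) ^ (-(5 / 48 : ℝ)) := Real.rpow_pos_of_pos hS0 _
  -- upper bound
  have up : aT T v n ≤ k1 * EH S n := by
    rcases Nat.lt_or_ge n (32 * S) with h | h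
    · have h1 : aT T v n ≤ Ca * (n : ℝ) ^ (-(5 / 48 : ℝ)) := (aT_le_ar T v n).trans (har n hn).2
      have h2 : (n : ℝ) ^ (-(5 / 48 : ℝ)) ≤ 32 * EH S n := by
        unfold EH
        have h3 : (1 / 32 : ℝ) ≤ min 1 ((S : ℝ) / n) := by
          apply le_min (by norm_num)
          rw [le_div_iff₀ hn0]
          have : (n : ℝ) ≤ 32 * S := by exact_mod_cast h.le
          linarith
        have h4 : (1 / 32 : ℝ) ≤ (min 1 ((S : ℝ) / n)) ^ (11 / 48 : ℝ) := by
          calc (1 / 32 : ℝ) = (1 / 32 : ℝ) ^ (1 : ℝ) := (Real.rpow_one _).symm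
            _ ≤ (1 / 32 : ℝ) ^ (11 / 48 : ℝ) :=
              Real.rpow_le_rpow_of_exponent_ge (by norm_num) (by norm_num) (by norm_num)
            _ ≤ _ := Real.rpow_le_rpow (by norm_num) h3 (by norm_num)
        calc (n : ℝ) ^ (-(5 / 48 : ℝ)) = 32 * ((n : ℝ) ^ (-(5 / 48 : ℝ)) * (1 / 32)) := by ring
          _ ≤ 32 * ((n : ℝ) ^ (-(5 / 48 : ℝ)) * (min 1 ((S : ℝ) / n)) ^ (11 / 48 : ℝ)) := by
              apply mul_le_mul_of_nonneg_left _ (by norm_num)
              exact mul_le_mul_of_nonneg_left h4 hn48.le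
      calc aT T v n ≤ Ca * (n : ℝ) ^ (-(5 / 48 : ℝ)) := h1
        _ ≤ Ca * (32 * EH S n) := mul_le_mul_of_nonneg_left h2 hCa.le
        _ = 32 * Ca * EH S n := by ring
        _ ≤ k1 * EH S n := by
            apply mul_le_mul_of_nonneg_right _ hE0.le
            have : 0 < 10 * Ca * C := by positivity
            linarith
    · have h1 := aT_split (T := T) hv (r := S) (n := n) (by omega)
      have h2 : aT T v S ≤ Ca * (S : ℝ) ^ (-(5 / 48 : ℝ)) := (aT_le_ar T v S).trans (har S hS1).2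
      have h3 : xT T v S n ≤ C * ((((2 * S + 3 : ℕ) : ℤ) : ℝ) / (((n - S - 3 : ℕ) : ℤ) : ℝ)) ^
          (1 / 3 : ℝ) := by
        have h4 := (hwin T w L0 hw ((2 * S + 3 : ℕ) : ℤ) ((n - S - 3 : ℕ) : ℤ) (by omega) (by omega)
          (by omega)).1
        refine le_trans (Pr_mono okP ?_) h4
        rintro F hF ⟨u, hu, x, hux, hx, hr⟩
        have hxT : x ∈ T := reach_mem (F := (↑F : Set Edg))
          (fun e he => hF (Finset.mem_coe.mp he)) hu hr
        have t1 := sd_tri u v w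
        have t2 := sd_tri x w v
        have t3 := sd_comm v w
        refine ⟨u, hu, ?_, x, hxT, ?_, hr⟩
        · rw [mem_BX]
          have : sd u w ≤ 2 * S + 3 := by omega
          unfold sd at this
          omega
        · rw [mem_BX]
          have : n - S - 3 ≤ sd x w := by omega
          unfold sd at this
          omega
      have h5 : ((((2 * S + 3 : ℕ) : ℤ) : ℝ) / (((n - S - 3 : ℕ) : ℤ) : ℝ)) ≤ 10 * ((S : ℝ) / n) := by
        have h6 : (((n - S - 3 : ℕ) : ℤ) : ℝ) = (n : ℝ) - S - 3 := by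
          have h7 : ((n - S - 3 : ℕ) : ℤ) = (n : ℤ) - S - 3 := by omega
          rw [h7]
          push_cast
          ring
        have h8 : (32 : ℝ) * S ≤ n := by exact_mod_cast h
        rw [h6, ← mul_div_assoc, div_le_div_iff₀ (by linarith) hn0]
        push_cast
        nlinarith
      have h9 : ((((2 * S + 3 : ℕ) : ℤ) : ℝ) / (((n - S - 3 : ℕ) : ℤ) : ℝ)) ^ (1 / 3 : ℝ) ≤
          10 * ((S : ℝ) / n) ^ (1 / 3 : ℝ) := by
        have h10 : (0 : ℝ) ≤ (((2 * S + 3 : ℕ) : ℤ) : ℝ) / (((n - S - 3 : ℕ) : ℤ) : ℝ) := by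
          positivity
        calc _ ≤ (10 * ((S : ℝ) / n)) ^ (1 / 3 : ℝ) := Real.rpow_le_rpow h10 h5 (by norm_num)
          _ = (10 : ℝ) ^ (1 / 3 : ℝ) * ((S : ℝ) / n) ^ (1 / 3 : ℝ) :=
              Real.mul_rpow (by norm_num) (by positivity)
          _ ≤ 10 * ((S : ℝ) / n) ^ (1 / 3 : ℝ) := by
              apply mul_le_mul_of_nonneg_right _ (by positivity)
              calc (10 : ℝ) ^ (1 / 3 : ℝ) ≤ (10 : ℝ) ^ (1 : ℝ) :=
                    Real.rpow_le_rpow_of_exponent_le (by norm_num) (by norm_num)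
                _ = 10 := Real.rpow_one _
      have hSn : (S : ℝ) ≤ n := by
        have : (32 : ℝ) * S ≤ n := by exact_mod_cast h
        linarith
      have hx0 := xT_nonneg T v S n
      calc aT T v n ≤ aT T v S * xT T v S n := h1
        _ ≤ (Ca * (S : ℝ) ^ (-(5 / 48 : ℝ))) * (C * (10 * ((S : ℝ) / n) ^ (1 / 3 : ℝ))) := by
            apply mul_le_mul h2 _ hx0 (by positivity)
            exact h3.trans (mul_le_mul_of_nonneg_left h9 hC.le)
        _ = 10 * Ca * C * ((S : ℝ) ^ (-(5 / 48 : ℝ)) * ((S : ℝ) / n) ^ (1 / 3 : ℝ)) := by ring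
        _ = 10 * Ca * C * EH S n := by rw [EH_big hS0 hSn]
        _ ≤ k1 * EH S n := by
            apply mul_le_mul_of_nonneg_right _ hE0.le
            have : 0 < 32 * Ca := by positivity
            linarith
  -- lower bound
  have low : k2 * EH S n ≤ aT T v n := by
    rcases Nat.lt_or_ge n S with h | h
    · have h1 : ar n ≤ aT T v n := ar_le_aT (fun u hu => mem_of_dc (v := v) (by
        rw [sd_comm]; omega))
      calc k2 * EH S n ≤ ca * (n : ℝ) ^ (-(5 / 48 : ℝ)) :=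
            mul_le_mul (min_le_left _ _) (EH_le hn0 hS0) hE0.le hca.le
        _ ≤ ar n := (har n hn).1
        _ ≤ _ := h1
    · have hSn : (S : ℝ) ≤ n := by exact_mod_cast h
      rcases Nat.lt_or_ge n (500 * (2 * S + 4)) with h1 | h1
      · have h2 := hup T v w L0 B α n hv ⟨hw, hvw⟩ hn (by
          show n ≤ 3000 * S
          omega) (by omega)
        have h3 : EH S n ≤ (S : ℝ) ^ (-(5 / 48 : ℝ)) := by
          rw [EH_big hS0 hSn]
          have h4 : ((S : ℝ) / n) ^ (1 / 3 : ℝ) ≤ 1 :=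
            Real.rpow_le_one (by positivity) ((div_le_one hn0).mpr hSn) (by norm_num)
          nlinarith
        calc k2 * EH S n ≤ cu * (S : ℝ) ^ (-(5 / 48 : ℝ)) :=
              mul_le_mul ((min_le_right _ _).trans (min_le_left _ _)) h3 hE0.le hcu.le
          _ ≤ _ := h2
      · have h2 := hup T v w L0 B α (500 * (2 * S + 4)) hv ⟨hw, hvw⟩ (by omega) (by
          show 500 * (2 * S + 4) ≤ 3000 * S
          omega) (by omega)
        have h3 := hblk T v w L0 (2 * S + 4) hv ⟨hw, hvw⟩ (by omega) (by omega)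
        have h4 := xT_le (T := T) hv (r := 2 * S + 4) (R := 500 * (2 * S + 4)) (n := n) h1 h3
        have h5 : c * ((((S + 1 : ℕ) : ℤ) : ℝ) / (((n + S + 4 : ℕ) : ℤ) : ℝ)) ^ (1 / 3 : ℝ) ≤
            xT T v (2 * S + 4) n := by
          have h6 := (hwin T w L0 hw ((S + 1 : ℕ) : ℤ) ((n + S + 4 : ℕ) : ℤ) (by omega) (by omega)
            (by omega)).2.1
          refine le_trans h6 (Pr_mono okP ?_)
          rintro F hF ⟨u, hu, hu', x, hx, hx', hr⟩
          rw [mem_BX] at hu' hx'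
          have g1 : sd u w ≤ S + 1 := by unfold sd; omega
          have g2 : n + S + 4 ≤ sd x w := by unfold sd; omega
          have t1 := sd_tri u w v
          have t2 := sd_tri x v w
          have t3 := sd_comm v w
          exact ⟨u, hu, x, by omega, by omega, hr⟩
        have h7 : (1 / 6 : ℝ) * ((S : ℝ) / n) ^ (1 / 3 : ℝ) ≤
            ((((S + 1 : ℕ) : ℤ) : ℝ) / (((n + S + 4 : ℕ) : ℤ) : ℝ)) ^ (1 / 3 : ℝ) := by
          have h8 : (1 / 6 : ℝ) * ((S : ℝ) / n) ≤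
              ((((S + 1 : ℕ) : ℤ) : ℝ) / (((n + S + 4 : ℕ) : ℤ) : ℝ)) := by
            rw [← mul_div_assoc, div_le_div_iff₀ hn0 (by positivity)]
            push_cast
            nlinarith
          calc (1 / 6 : ℝ) * ((S : ℝ) / n) ^ (1 / 3 : ℝ)
              ≤ (1 / 6 : ℝ) ^ (1 / 3 : ℝ) * ((S : ℝ) / n) ^ (1 / 3 : ℝ) := by
                apply mul_le_mul_of_nonneg_right _ (by positivity)
                calc (1 / 6 : ℝ) = (1 / 6 : ℝ) ^ (1 : ℝ) := (Real.rpow_one _).symm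
                  _ ≤ _ := Real.rpow_le_rpow_of_exponent_ge (by norm_num) (by norm_num)
                    (by norm_num)
            _ = ((1 / 6 : ℝ) * ((S : ℝ) / n)) ^ (1 / 3 : ℝ) :=
                (Real.mul_rpow (by norm_num) (by positivity)).symm
            _ ≤ _ := Real.rpow_le_rpow (by positivity) h8 (by norm_num)
        have a0 := aT_nonneg T v (500 * (2 * S + 4))
        calc k2 * EH S n = k2 * ((S : ℝ) ^ (-(5 / 48 : ℝ)) * ((S : ℝ) / n) ^ (1 / 3 : ℝ)) := by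
              rw [EH_big hS0 hSn]
          _ ≤ (κ * cu * (c * (1 / 6))) * ((S : ℝ) ^ (-(5 / 48 : ℝ)) * ((S : ℝ) / n) ^ (1 / 3 : ℝ)) := by
              apply mul_le_mul_of_nonneg_right _ (by positivity)
              exact (min_le_right _ _).trans (min_le_right _ _)
          _ = κ * ((cu * (S : ℝ) ^ (-(5 / 48 : ℝ))) * (c * ((1 / 6) * ((S : ℝ) / n) ^ (1 / 3 : ℝ)))) := by
              ring
          _ ≤ κ * (aT T v (500 * (2 * S + 4)) * xT T v (2 * S + 4) n) := by
              apply mul_le_mul_of_nonneg_left _ κ0.le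
              apply mul_le_mul h2 _ (by positivity) a0
              exact (mul_le_mul_of_nonneg_left h7 hc.le).trans h5
          _ ≤ _ := h4
  have ha0 : 0 < aT T v n := lt_of_lt_of_le (by positivity) low
  refine ⟨by linarith, ha0, hE0, up.trans ?_, ?_⟩
  · apply mul_le_mul_of_nonneg_right _ hE0.le
    linarith
  · have h1 : EH S n ≤ k2⁻¹ * aT T v n := by
      rw [inv_mul_eq_div, le_div_iff₀ k20, mul_comm]
      exact low
    refine h1.trans (mul_le_mul_of_nonneg_right ?_ ha0.le)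
    linarith

/-- **Lattice domains with `C^(1,α)` windows are regular.** -/
theorem gd_S (hA : ArS) {B α : ℝ} (hα : 0 < α) (M : ℕ) : ∃ κ k : ℝ, ∀ (T : Finset Vtx) (L0 : ℤ)
    (L : ℕ), 8 ≤ L → 20000 * (L : ℤ) ≤ L0 → Chn T L M → (∀ v ∈ T, ∃ w, Near T v w L0 B α) →
      GD T (eS T L) L 500 κ k := by
  obtain ⟨k1, hk1, harm⟩ := arm_S hA (B := B) hα
  obtain ⟨κ, κ0, κ1, hblk⟩ := blk_S (B := B) hα
  obtain ⟨k2, hreg⟩ := reg_H hA
  obtain ⟨k3, hk3, hregS⟩ := reg_S hA
  have hk2 := hreg.hk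
  set k := k1 * k2 ^ 8 * k3 with hk
  have hk28 : 1 ≤ k2 ^ 8 := one_le_pow₀ hk2
  have hk12 : 1 ≤ k1 * k2 ^ 8 := Cmp.one_le_mul' hk1 hk28
  have hkk : 1 ≤ k := Cmp.one_le_mul' hk12 hk3
  have hk3k : k3 ≤ k := by
    rw [hk]
    nlinarith
  have hk12k : k1 * k2 ^ 8 ≤ k := by
    rw [hk]
    nlinarith
  refine ⟨((κ * (k ^ 5)⁻¹) * (κ * (k ^ 5)⁻¹)) ^ (M + 1), k, ?_⟩
  intro T L0 L hL hL0 hch hT
  have hr := hregS T L (by omega)
  have hr' : TH976.Reg (↑T : Set Vtx) (eS T L) k := by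
    refine ⟨hkk, hr.pos, ?_, ?_, ?_⟩
    · intro v hv n m hn hnm
      exact (hr.anti v hv n m hn hnm).trans
        (mul_le_mul_of_nonneg_right hk3k (hr.pos v hv n hn).le)
    · intro v hv n hn
      exact (hr.dbl v hv n hn).trans
        (mul_le_mul_of_nonneg_right hk3k (hr.pos v hv (3 * n) (by omega)).le)
    · intro u hu v hv r n huv hr1 hrn
      exact (hr.rat u hu v hv r n huv hr1 hrn).trans
        (mul_le_mul_of_nonneg_right hk3k
          (mul_pos (hr.pos u hu n (by omega)) (hr.pos v hv r hr1)).le)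
  refine GD.of_chain hL (by norm_num) κ0 κ1 ?_ hch hr' ?_ ?_ ?_
  · intro v hv r hr1 hrL
    obtain ⟨w, hw⟩ := hT v hv
    exact hblk T v w L0 r hv hw hr1 (by omega)
  · intro v hv
    have h1 := dc_pos hv
    show EH _ _ = 1
    have h2 : ((min 1 L : ℕ) : ℝ) = 1 := by
      have : min 1 L = 1 := by omega
      rw [this]
      norm_num
    rw [h2]
    unfold EH
    have h3 : (1 : ℝ) ≤ (((dc T v : ℤ)) : ℝ) / 1 := by
      rw [div_one]
      exact_mod_cast h1
    rw [min_eq_left h3, Real.one_rpow, Real.one_rpow, mul_one]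
  · intro v hv n hn
    show eH _ (min L L) ≤ k * eH _ (min n L)
    rw [min_self, min_eq_right hn]
    have h1 := hreg.pos (0, (dc T v : ℤ)) (by
      have := dc_pos hv
      show (1 : ℤ) ≤ (dc T v : ℤ)
      omega) L (by omega)
    nlinarith
  · intro v hv n hn hnL
    obtain ⟨w, hw⟩ := hT v hv
    have h1 := harm T v w L0 n hv hw hn (by
      have : (n : ℤ) ≤ 1002 * (L : ℤ) := by
        have : n ≤ 1002 * L := by omega
        exact_mod_cast this
      omega)
    have hv' : ((0 : ℤ), (dc T v : ℤ)) ∈ DH := by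
      have := dc_pos hv
      show (1 : ℤ) ≤ (dc T v : ℤ)
      omega
    have h2 : Cmp (k2 ^ 8) (eH (0, (dc T v : ℤ)) n) (eH (0, (dc T v : ℤ)) (min n L)) := by
      refine ⟨hk28, hreg.pos _ hv' n hn, hreg.pos _ hv' _ (by omega), ?_, ?_⟩
      · have h3 := hreg.anti _ hv' (min n L) n (by omega) (by omega)
        refine h3.trans (mul_le_mul_of_nonneg_right ?_ (hreg.pos _ hv' _ (by omega)).le)
        calc k2 = k2 ^ 1 := (pow_one _).symm
          _ ≤ k2 ^ 8 := pow_le_pow_right₀ hk2 (by norm_num)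
      · exact reg_up hreg hv' 7 (by omega) hn (by norm_num; omega)
    have h4 : EH ((dc T v : ℕ) : ℝ) n = eH (0, (dc T v : ℤ)) n := by
      show EH _ _ = EH _ _
      norm_cast
    rw [h4] at h1
    exact (h1.trans h2).weaken hk12k

end Pool.Agent.J6H18.GD
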