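import Pool.Agent.J6H18.GD.SmK

/-!
The connection probability of two connected sets, in terms of their preimages in the disc.
-/

set_option autoImplicit false

namespace Pool.Agent.J6H18.GD

open TH976 (Cmp E EH E_eq_EH E_pos EH_pos sd sd_pos sd_comm sd_tri sd_self)
open Complex Set Metric Filter Topology H974 H973 H362P
open Pool.Agent.H160R2.CV
open Pool.Agent.H160R2.CV.Quad
open Pool.Agent.Y989.SD (disc mem_disc pos)

/-- the preimage of the `2 ε`-neighbourhood of `A` -/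
def Th (f : ℂ → ℂ) (ε : ℝ) (A : Finset Vtx) : Set ℂ :=
  {ζ | ζ ∈ disc ∧ ∃ v ∈ A, ‖f ζ - pos ε v‖ ≤ 2 * ε}

/-- the set `X` of points of the disc corresponds to the set `S` of vertices at scale `ε` -/
structure Ap (f : ℂ → ℂ) (ε M : ℝ) (S : Finset Vtx) (X : Set ℂ) : Prop where
  sub : ∀ p ∈ X, p ∈ disc
  out : ∀ p ∈ X, ∃ v ∈ S, ‖f p - pos ε v‖ ≤ M * ε
  inn : ∀ v ∈ S, ∃ p ∈ X, ‖f p - pos ε v‖ ≤ M * ε
  wide : ∃ p ∈ X, ∃ q ∈ X, ε ≤ ‖f p - f q‖

/-- the distance of two sets -/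
noncomputable def gap (X Y : Set ℂ) : ℝ := sInf ((fun p : ℂ × ℂ => ‖p.1 - p.2‖) '' (X ×ˢ Y))

/-- the unit circle -/
def Sph : Set ℂ := sphere 0 1

theorem gap_le {X Y : Set ℂ} {p q : ℂ} (hp : p ∈ X) (hq : q ∈ Y) : gap X Y ≤ ‖p - q‖ := by
  apply csInf_le
  · refine ⟨0, ?_⟩
    rintro x ⟨y, -, rfl⟩
    exact norm_nonneg _
  · exact ⟨(p, q), ⟨hp, hq⟩, rfl⟩

theorem le_gap {X Y : Set ℂ} {c : ℝ} (hX : X.Nonempty) (hY : Y.Nonempty)
    (h : ∀ p ∈ X, ∀ q ∈ Y, c ≤ ‖p - q‖) : c ≤ gap X Y := by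
  obtain ⟨p, hp⟩ := hX
  obtain ⟨q, hq⟩ := hY
  apply le_csInf
  · exact ⟨_, (p, q), ⟨hp, hq⟩, rfl⟩
  · rintro x ⟨⟨a, b⟩, ⟨ha, hb⟩, rfl⟩
    exact h a ha b hb

theorem gap_nonneg (X Y : Set ℂ) : 0 ≤ gap X Y := by
  apply Real.sInf_nonneg
  rintro x ⟨y, -, rfl⟩
  exact norm_nonneg _

theorem gap_comm (X Y : Set ℂ) : gap X Y = gap Y X := by
  unfold gap
  congr 1
  ext x
  constructor
  · rintro ⟨⟨a, b⟩, ⟨ha, hb⟩, rfl⟩
    exact ⟨(b, a), ⟨hb, ha⟩, norm_sub_rev b a⟩
  · rintro ⟨⟨a, b⟩, ⟨ha, hb⟩, rfl⟩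
    exact ⟨(b, a), ⟨hb, ha⟩, norm_sub_rev b a⟩

/-- one factor of the connection probability -/
noncomputable def Rr (X Y : Set ℂ) : ℝ :=
  (diam X / (diam X + gap X Y)) ^ (5 / 48 : ℝ) *
    ((diam X + gap X Sph) / (diam X + gap X Sph + gap X Y)) ^ (11 / 48 : ℝ)

theorem exists_proj (ζ : ℂ) (h : ‖ζ‖ < 1) : ∃ ω : ℂ, ‖ω‖ = 1 ∧ ‖ζ - ω‖ = 1 - ‖ζ‖ := by
  by_cases h0 : ζ = 0
  · exact ⟨1, by simp, by simp [h0]⟩
  · have hn : 0 < ‖ζ‖ := norm_pos_iff.mpr h0
    refine ⟨((‖ζ‖⁻¹ : ℝ) : ℂ) * ζ, ?_, ?_⟩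
    · rw [norm_mul, Complex.norm_real, Real.norm_eq_abs, abs_of_pos (by positivity),
        inv_mul_cancel₀ hn.ne']
    · have e : ζ - ((‖ζ‖⁻¹ : ℝ) : ℂ) * ζ = ((1 - ‖ζ‖⁻¹ : ℝ) : ℂ) * ζ := by
        push_cast
        ring
      have h3 : 1 ≤ ‖ζ‖⁻¹ := by
        rw [one_le_inv₀ hn]
        exact h.le
      rw [e, norm_mul, Complex.norm_real, Real.norm_eq_abs, abs_of_nonpos (by linarith)]
      field_simp
      ring

theorem max_cmp {s σ τ τ' t K : ℝ} (hK : 1 ≤ K) (hτ : 0 < τ) (hs : 0 < s) (hσ : 0 ≤ σ)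
    (hττ : τ ≤ τ') (ht : Cmp K t τ') (h1 : s ≤ σ + K * τ) (h2 : σ ≤ s + K * τ) :
    Cmp (3 * (K * K)) (max s t) (τ' + σ) := by
  have hτ' : 0 < τ' := by linarith
  have hKK : 1 ≤ K * K := Cmp.one_le_mul' hK hK
  have hKK' : K ≤ K * K := by nlinarith
  have hm1 := le_max_left s t
  have hm2 := le_max_right s t
  have a1 := ht.l
  have a2 := ht.r
  have t0 := ht.hx
  have b1 : K * τ ≤ K * τ' := mul_le_mul_of_nonneg_left hττ (by linarith)
  refine ⟨by linarith, lt_of_lt_of_le hs hm1, by linarith, ?_, ?_⟩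
  · have c1 : K * τ' ≤ K * K * τ' := mul_le_mul_of_nonneg_right hKK' hτ'.le
    have c2 : σ ≤ K * K * σ := by nlinarith
    apply max_le
    · nlinarith
    · nlinarith
  · have c1 : K * τ' ≤ K * (K * t) := mul_le_mul_of_nonneg_left a2 (by linarith)
    have c2 : τ' ≤ K * K * t := by nlinarith
    have c3 : K * K * t ≤ K * K * max s t := mul_le_mul_of_nonneg_left hm2 (by positivity)
    have c4 : s ≤ K * K * max s t := by nlinarith
    nlinarith

theorem EH_eq {s t : ℝ} (hs : 0 < s) (ht : 0 < t) :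
    EH s t = t ^ (-(5 / 48 : ℝ)) * (s / max s t) ^ (11 / 48 : ℝ) := by
  unfold EH
  congr 2
  rcases le_total s t with h | h
  · rw [max_eq_right h, min_eq_right ((div_le_one ht).mpr h)]
  · rw [max_eq_left h, min_eq_left ((one_le_div ht).mpr h), div_self hs.ne']

theorem EH_ratio {s t t' : ℝ} (hs : 0 < s) (ht : 0 < t) (ht' : 0 < t') :
    EH s t' / EH s t = (t / t') ^ (5 / 48 : ℝ) * (max s t / max s t') ^ (11 / 48 : ℝ) := by
  have m1 : 0 < max s t := lt_of_lt_of_le hs (le_max_left _ _)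
  have m2 : 0 < max s t' := lt_of_lt_of_le hs (le_max_left _ _)
  rw [EH_eq hs ht, EH_eq hs ht', Real.div_rpow ht.le ht'.le, Real.div_rpow m1.le m2.le,
    Real.div_rpow hs.le m1.le, Real.div_rpow hs.le m2.le, Real.rpow_neg ht.le, Real.rpow_neg ht'.le]
  have a1 : 0 < t ^ (5 / 48 : ℝ) := Real.rpow_pos_of_pos ht _
  have a2 : 0 < t' ^ (5 / 48 : ℝ) := Real.rpow_pos_of_pos ht' _
  have a3 : 0 < s ^ (11 / 48 : ℝ) := Real.rpow_pos_of_pos hs _
  have a4 : 0 < max s t ^ (11 / 48 : ℝ) := Real.rpow_pos_of_pos m1 _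
  have a5 : 0 < max s t' ^ (11 / 48 : ℝ) := Real.rpow_pos_of_pos m2 _
  field_simp

section
variable {f : ℂ → ℂ} {b : ℂ → ℝ} {C ε A M K N : ℝ} {T : Finset Vtx} {e : Vtx → ℕ → ℝ}

/-- the geometry of one set -/
structure Cfg (f : ℂ → ℂ) (b : ℂ → ℝ) (C ε A M : ℝ) (S : Finset Vtx) (X : Set ℂ) (a : Vtx) (r : ℕ)
    (z : ℂ) : Prop where
  dm : DM f b C
  ε0 : 0 < ε
  A1 : 1 ≤ A
  M1 : 1 ≤ M
  ap : Ap f ε M S X
  aS : a ∈ S
  r1 : 1 ≤ r
  rle : ∀ u ∈ S, sd u a ≤ r
  far : r = 1 ∨ ∃ a' ∈ S, sd a' a = r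
  z1 : ‖z‖ < 1
  zA : ‖f z - pos ε a‖ ≤ A * ε

/-- the constant -/
noncomputable def CA (C A M : ℝ) : ℝ := 16 * C * (10 + M + A) ^ 3

theorem CA_one {C A M : ℝ} (hC : 1 ≤ C) (hA : 1 ≤ A) (hM : 1 ≤ M) : 1 ≤ CA C A M := by
  unfold CA
  have : 1 ≤ (10 + M + A) ^ 3 := one_le_pow₀ (by linarith)
  nlinarith

theorem CA_ge {C A M x : ℝ} (hC : 1 ≤ C) (hx : x ≤ 16 * (10 + M + A) ^ 3) : C * x ≤ CA C A M := by
  unfold CA
  have := mul_le_mul_of_nonneg_left hx (by linarith : (0 : ℝ) ≤ C)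
  linarith

namespace Cfg
variable {S : Finset Vtx} {X : Set ℂ} {a : Vtx} {r : ℕ} {z : ℂ}

theorem bdd (h : Cfg f b C ε A M S X a r z) : Bornology.IsBounded X :=
  isBounded_closedBall.subset h.ap.sub

theorem C0 (h : Cfg f b C ε A M S X a r z) : 0 < C := h.dm.C0

theorem ne (h : Cfg f b C ε A M S X a r z) : X.Nonempty := by
  obtain ⟨p, hp, -⟩ := h.ap.inn a h.aS
  exact ⟨p, hp⟩

theorem zd (h : Cfg f b C ε A M S X a r z) : z ∈ disc := mem_disc.mpr h.z1.le

theorem r1r (h : Cfg f b C ε A M S X a r z) : (1 : ℝ) ≤ r := by exact_mod_cast h.r1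

theorem ρ0 (h : Cfg f b C ε A M S X a r z) : 0 < ε * r := mul_pos h.ε0 (by linarith [h.r1r])

theorem ερ (h : Cfg f b C ε A M S X a r z) : ε ≤ ε * r := by nlinarith [h.r1r, h.ε0]

/-- all the points of the set are close to `z` -/
theorem near_f (h : Cfg f b C ε A M S X a r z) {p : ℂ} (hp : p ∈ X) :
    ‖f p - f z‖ ≤ (4 + M + A) * (ε * r) := by
  obtain ⟨v, hv, hpv⟩ := h.ap.out p hp
  have e0 := h.ε0
  have e1 := h.ερ
  have e2 := h.A1
  have e3 := h.M1
  have e : f p - f z = (f p - pos ε v) + (pos ε v - pos ε a) + -(f z - pos ε a) := by ring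
  have h1 := pos_le_sd h.ε0 v a
  have h2 : (sd v a : ℝ) ≤ r := by exact_mod_cast h.rle v hv
  have h3 : ε * (sd v a : ℝ) ≤ ε * r := mul_le_mul_of_nonneg_left h2 e0.le
  have h4 := h.zA
  have h5 : M * ε ≤ M * (ε * r) := mul_le_mul_of_nonneg_left e1 (by linarith)
  have h6 : A * ε ≤ A * (ε * r) := mul_le_mul_of_nonneg_left e1 (by linarith)
  rw [e]
  refine norm_add₃_le.trans ?_
  rw [norm_neg]
  linarith

theorem near_z (h : Cfg f b C ε A M S X a r z) {p : ℂ} (hp : p ∈ X) :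
    ‖p - z‖ ≤ C * (4 + M + A) ^ 2 * (ε * r * (b (f z) + ε * r)) := by
  have h1 := h.near_f hp
  have h2 := h.dm.up z h.zd p (h.ap.sub p hp)
  have h3 := h.dm.b_pos h.z1
  have h4 := h.ρ0
  have h5 := h.A1
  have h5' := h.M1
  have h6 := h.C0
  rw [norm_sub_rev, norm_sub_rev (f z)] at h2
  have n0 := norm_nonneg (f p - f z)
  set x := ‖f p - f z‖
  set ρ := ε * (r : ℝ)
  set β := b (f z)
  set c := 4 + M + A
  have hc : 1 ≤ c := by linarith
  have h7 : x * (β + x) ≤ c ^ 2 * (ρ * (β + ρ)) := by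
    have h8 : β + x ≤ c * (β + ρ) := by nlinarith
    calc x * (β + x) ≤ (c * ρ) * (c * (β + ρ)) :=
          mul_le_mul h1 h8 (by linarith) (by positivity)
      _ = _ := by ring
  calc ‖p - z‖ ≤ C * (x * (β + x)) := h2
    _ ≤ C * (c ^ 2 * (ρ * (β + ρ))) := mul_le_mul_of_nonneg_left h7 h6.le
    _ = _ := by ring

theorem b_near (h : Cfg f b C ε A M S X a r z) {p : ℂ} (hp : p ∈ X) :
    b (f z) ≤ b (f p) + (4 + M + A) * (ε * r) := by
  have h1 := h.near_f hp
  have h2 := h.dm.blip z h.zd p (h.ap.sub p hp)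
  rw [norm_sub_rev] at h2
  linarith

theorem b_near' (h : Cfg f b C ε A M S X a r z) {p : ℂ} (hp : p ∈ X) :
    b (f p) ≤ b (f z) + (4 + M + A) * (ε * r) := by
  have h1 := h.near_f hp
  have h2 := h.dm.blip p (h.ap.sub p hp) z h.zd
  linarith

/-- two points far from each other -/
theorem two_far (h : Cfg f b C ε A M S X a r z) : ∃ p ∈ X, ∃ q ∈ X,
    ε * r ≤ 4 * M * ‖f p - f q‖ := by
  have e0 := h.ε0
  have hM := h.M1
  obtain ⟨p0, hp0, q0, hq0, hw⟩ := h.ap.wide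
  rcases h.far with h1 | ⟨a', ha', h1⟩
  · refine ⟨p0, hp0, q0, hq0, ?_⟩
    rw [h1]
    push_cast
    nlinarith [norm_nonneg (f p0 - f q0)]
  · rcases le_or_gt (4 * M) (r : ℝ) with h2 | h2
    · obtain ⟨p, hp, hpa⟩ := h.ap.inn a h.aS
      obtain ⟨q, hq, hqa⟩ := h.ap.inn a' ha'
      refine ⟨p, hp, q, hq, ?_⟩
      have k1 := sd_pos_le e0 a' a
      rw [h1] at k1
      have k2 : ‖pos ε a' - pos ε a‖ ≤ ‖f p - f q‖ + 2 * (M * ε) := by
        have e : pos ε a' - pos ε a = -(f q - pos ε a') + -(f p - f q) + (f p - pos ε a) := by ring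
        rw [e]
        refine norm_add₃_le.trans ?_
        rw [norm_neg, norm_neg]
        linarith
      have k3 : 4 * M * ε ≤ ε * r := by nlinarith
      have n0 := norm_nonneg (f p - f q)
      nlinarith
    · refine ⟨p0, hp0, q0, hq0, ?_⟩
      have k1 : ε * r ≤ ε * (4 * M) := mul_le_mul_of_nonneg_left h2.le e0.le
      nlinarith

/-- **the diameter** -/
theorem tau (h : Cfg f b C ε A M S X a r z) :
    Cmp (CA C A M) (ε * r * (b (f z) + ε * r)) (diam X) := by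
  have e0 := h.ε0
  have h3 := h.dm.b_pos h.z1
  have h4 := h.ρ0
  have h5 := h.A1
  have h5' := h.M1
  have h6 := h.C0
  have h7 := h.dm.C1
  obtain ⟨p, hp, q, hq, hpq⟩ := h.two_far
  have h8 := h.dm.lo p (h.ap.sub p hp) q (h.ap.sub q hq)
  have h9 := h.b_near hp
  have h10 : ‖p - q‖ ≤ diam X := by
    rw [← dist_eq_norm]
    exact dist_le_diam_of_mem h.bdd hp hq
  have b0 := h.dm.b0 (h.ap.sub p hp)
  have x0 : 0 ≤ ‖f p - f q‖ := norm_nonneg _
  set ρ := ε * (r : ℝ)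
  set β := b (f z)
  set x := ‖f p - f q‖
  set c := 4 + M + A
  have hc : 1 ≤ c := by linarith
  have h11 : ρ * (β + ρ) ≤ 16 * M ^ 2 * (c + 1) * (x * (b (f p) + x)) := by
    have h12 : β + ρ ≤ 4 * M * (c + 1) * (b (f p) + x) := by
      have k1 : (c + 1) * ρ ≤ (c + 1) * (4 * M * x) := mul_le_mul_of_nonneg_left hpq (by linarith)
      have k2 : b (f p) ≤ 4 * M * (c + 1) * b (f p) := by
        have : 1 ≤ 4 * M * (c + 1) := by nlinarith
        nlinarith
      nlinarith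
    calc ρ * (β + ρ) ≤ (4 * M * x) * (4 * M * (c + 1) * (b (f p) + x)) :=
          mul_le_mul hpq h12 (by linarith) (by positivity)
      _ = _ := by ring
  have h13 : ρ * (β + ρ) ≤ 16 * M ^ 2 * (c + 1) * (C * ‖p - q‖) :=
    h11.trans (mul_le_mul_of_nonneg_left h8 (by positivity))
  have h14 : 0 < ρ * (β + ρ) := by positivity
  have h15 : 0 < diam X := by
    have : 0 < 16 * M ^ 2 * (c + 1) * (C * ‖p - q‖) := lt_of_lt_of_le h14 h13
    have h16 : 0 < ‖p - q‖ := by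
      by_contra hneg
      push Not at hneg
      have : 16 * M ^ 2 * (c + 1) * (C * ‖p - q‖) ≤ 0 :=
        mul_nonpos_of_nonneg_of_nonpos (by positivity)
          (mul_nonpos_of_nonneg_of_nonpos h6.le hneg)
      linarith
    linarith
  have hG : 0 ≤ 10 + M + A := by linarith
  have hM2 : M ^ 2 ≤ (10 + M + A) ^ 2 := by nlinarith
  refine ⟨CA_one h7 h5 h5', h14, h15, ?_, ?_⟩
  · have h17 : ρ * (β + ρ) ≤ C * (16 * M ^ 2 * (c + 1)) * diam X := by
      have := mul_le_mul_of_nonneg_left h10 (show 0 ≤ 16 * M ^ 2 * (c + 1) * C by positivity)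
      linarith
    refine h17.trans (mul_le_mul_of_nonneg_right (CA_ge h7 ?_) h15.le)
    calc 16 * M ^ 2 * (c + 1) ≤ 16 * (10 + M + A) ^ 2 * (10 + M + A) := by
          apply mul_le_mul _ (by linarith) (by linarith) (by positivity)
          linarith
      _ = _ := by ring
  · apply diam_le_of_forall_dist_le (by
      have := CA_one h7 h5 h5'
      positivity)
    intro p' hp' q' hq'
    have g1 := h.near_z hp'
    have g2 := h.near_z hq'
    rw [dist_eq_norm]
    have e : p' - q' = (p' - z) - (q' - z) := by ring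
    rw [e]
    refine (norm_sub_le _ _).trans ?_
    have g3 : C * (2 * c ^ 2) * (ρ * (β + ρ)) ≤ CA C A M * (ρ * (β + ρ)) := by
      apply mul_le_mul_of_nonneg_right (CA_ge h7 ?_) h14.le
      have k1 : c ^ 2 ≤ (10 + M + A) ^ 2 := by nlinarith
      have k2 : (10 + M + A) ^ 2 ≤ (10 + M + A) ^ 3 := by
        have : (10 + M + A) ^ 3 = (10 + M + A) ^ 2 * (10 + M + A) := by ring
        nlinarith [sq_nonneg (10 + M + A)]
      nlinarith [sq_nonneg (10 + M + A)]
    linarith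

theorem diam_pos (h : Cfg f b C ε A M S X a r z) : 0 < diam X := h.tau.hy

/-- **the distance to the circle** -/
theorem sigma (h : Cfg f b C ε A M S X a r z) :
    1 - ‖z‖ ≤ gap X Sph + CA C A M * CA C A M * diam X ∧
    gap X Sph ≤ (1 - ‖z‖) + CA C A M * CA C A M * diam X := by
  have h5 := h.A1
  have h5' := h.M1
  have h6 := h.C0
  have h7 := h.dm.C1
  have t := h.tau
  have hCA := t.hk
  have hSph : Sph.Nonempty := ⟨1, by simp [Sph]⟩
  have key : ∀ p ∈ X, ‖p - z‖ ≤ CA C A M * CA C A M * diam X := by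
    intro p hp
    have g1 := h.near_z hp
    have h7 : C * (4 + M + A) ^ 2 ≤ CA C A M := by
      apply CA_ge h7
      have k1 : (4 + M + A) ^ 2 ≤ (10 + M + A) ^ 2 := by nlinarith
      have k2 : (10 + M + A) ^ 2 ≤ (10 + M + A) ^ 3 := by
        have : (10 + M + A) ^ 3 = (10 + M + A) ^ 2 * (10 + M + A) := by ring
        nlinarith [sq_nonneg (10 + M + A)]
      nlinarith [sq_nonneg (10 + M + A)]
    calc ‖p - z‖ ≤ C * (4 + M + A) ^ 2 * (ε * r * (b (f z) + ε * r)) := g1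
      _ ≤ CA C A M * (ε * r * (b (f z) + ε * r)) := mul_le_mul_of_nonneg_right h7 t.hx.le
      _ ≤ CA C A M * (CA C A M * diam X) := mul_le_mul_of_nonneg_left t.l (by linarith)
      _ = _ := by ring
  constructor
  · have : 1 - ‖z‖ - CA C A M * CA C A M * diam X ≤ gap X Sph := by
      apply le_gap h.ne hSph
      intro p hp q hq
      have hq1 : ‖q‖ = 1 := by simpa [Sph] using hq
      have k1 := key p hp
      have k2 := norm_sub_norm_le q z
      have e : q - z = (p - z) - (p - q) := by ring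
      have k3 := norm_sub_le (p - z) (p - q)
      rw [← e] at k3
      linarith
    linarith
  · obtain ⟨p, hp⟩ := h.ne
    obtain ⟨ω, hω, hd⟩ := exists_proj z h.z1
    have k1 := key p hp
    have k2 := gap_le (X := X) (Y := Sph) hp (q := ω) (by simpa [Sph] using hω)
    have e : p - ω = (p - z) + (z - ω) := by ring
    have k3 := norm_add_le (p - z) (z - ω)
    rw [← e, hd] at k3
    linarith

/-- the constant for distances -/
noncomputable def _root_.Pool.Agent.J6H18.GD.QA (C A M : ℝ) : ℝ :=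
  (5 + 4 * M) ^ 2 * (CA C A M * CA C A M)

theorem _root_.Pool.Agent.J6H18.GD.QA_ge {C A M : ℝ} (hC : 1 ≤ C) (hA : 1 ≤ A) (hM : 1 ≤ M) :
    CA C A M * CA C A M ≤ QA C A M ∧ CA C A M ≤ QA C A M ∧ 1 ≤ QA C A M ∧
      4 * CA C A M ≤ QA C A M := by
  have h1 := CA_one hC hA hM
  have h2 : 1 ≤ CA C A M * CA C A M := Cmp.one_le_mul' h1 h1
  have h3 : 4 ≤ (5 + 4 * M) ^ 2 := by nlinarith
  have h4 : CA C A M ≤ CA C A M * CA C A M := by nlinarith
  unfold QA
  refine ⟨?_, ?_, ?_, ?_⟩ <;> nlinarith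

/-- **the distance of two sets** -/
theorem delta (h : Cfg f b C ε A M S X a r z) {S' : Finset Vtx} {Y : Set ℂ} {a' : Vtx} {r' : ℕ}
    {z' : ℂ} (h' : Cfg f b C ε A M S' Y a' r' z') {D : ℕ} (hD : 1 ≤ D) (hab : sd a a' = D)
    (hmin : ∀ u ∈ S, ∀ v ∈ S', D ≤ sd u v) :
    Cmp (QA C A M) (ε * (max r D : ℕ) * (b (f z) + ε * (max r D : ℕ))) (diam X + gap X Y) := by
  have e0 := h.ε0
  have h3 := h.dm.b_pos h.z1
  have h4 := h.ρ0
  have h5 := h.A1
  have h5' := h.M1
  have h6 := h.C0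
  have h7 := h.dm.C1
  have t := h.tau
  have hCA := t.hk
  obtain ⟨q1, q2, q3, q4⟩ := QA_ge h7 h5 h5'
  have g0 := gap_nonneg X Y
  have d0 := h.diam_pos
  have hr1 := h.r1r
  have hDr : (1 : ℝ) ≤ D := by exact_mod_cast hD
  have hrm : (r : ℝ) ≤ ((max r D : ℕ) : ℝ) := by exact_mod_cast le_max_left r D
  have hDm : (D : ℝ) ≤ ((max r D : ℕ) : ℝ) := by exact_mod_cast le_max_right r D
  set β := b (f z) with hβ
  set m : ℝ := ((max r D : ℕ) : ℝ) with hm
  have hm0 : 0 < ε * m := mul_pos e0 (by linarith)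
  have hρm : ε * r ≤ ε * m := mul_le_mul_of_nonneg_left hrm e0.le
  have hT : 0 < ε * m * (β + ε * m) := by positivity
  have hTT : ε * r * (β + ε * r) ≤ ε * m * (β + ε * m) :=
    mul_le_mul hρm (by linarith) (by positivity) hm0.le
  set c := 4 + M + A with hc
  refine ⟨q3, hT, by linarith, ?_, ?_⟩
  · by_cases h8 : (5 * r < D ∧ 4 * M ≤ (D : ℝ))
    · -- far
      obtain ⟨h8, h8'⟩ := h8
      have hmD : m = D := by
        rw [hm, max_eq_right (by omega)]
      rw [hmD]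
      have hD5 : (5 : ℝ) * r ≤ D := by exact_mod_cast h8.le
      have key : ∀ p ∈ X, ∀ q ∈ Y,
          ε * D * (β + ε * D) ≤ C * (2 * (c + 3)) * ‖p - q‖ := by
        intro p hp q hq
        obtain ⟨v, hv, hpv⟩ := h.ap.out p hp
        obtain ⟨w, hw, hqw⟩ := h'.ap.out q hq
        have k1 := sd_pos_le e0 v w
        have k2 : (D : ℝ) ≤ sd v w := by exact_mod_cast hmin v hv w hw
        have k3 : ‖pos ε v - pos ε w‖ ≤ ‖f p - f q‖ + 2 * (M * ε) := by
          have e : pos ε v - pos ε w = -(f p - pos ε v) + (f p - f q) + (f q - pos ε w) := by ring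
          rw [e]
          refine norm_add₃_le.trans ?_
          rw [norm_neg]
          linarith
        have k4 : ε * D ≤ ε * (sd v w : ℝ) := mul_le_mul_of_nonneg_left k2 e0.le
        have k4' : ε * (4 * M) ≤ ε * D := mul_le_mul_of_nonneg_left h8' e0.le
        have k5 : ε * D ≤ 2 * ‖f p - f q‖ := by nlinarith
        have k6 := h.b_near hp
        have k7 := h.dm.lo p (h.ap.sub p hp) q (h'.ap.sub q hq)
        have b0 := h.dm.b0 (h.ap.sub p hp)
        have x0 : 0 ≤ ‖f p - f q‖ := norm_nonneg _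
        set x := ‖f p - f q‖
        have k8 : 5 * (c * (ε * r)) ≤ c * (2 * x) := by
          have : 5 * (ε * r) ≤ 2 * x := by nlinarith
          nlinarith
        have k9 : β + ε * D ≤ (c + 3) * (b (f p) + x) := by nlinarith
        calc ε * D * (β + ε * D) ≤ (2 * x) * ((c + 3) * (b (f p) + x)) :=
              mul_le_mul k5 k9 (by positivity) (by linarith)
          _ = 2 * (c + 3) * (x * (b (f p) + x)) := by ring
          _ ≤ 2 * (c + 3) * (C * ‖p - q‖) := mul_le_mul_of_nonneg_left k7 (by linarith)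
          _ = _ := by ring
      have hc0 : 0 < C * (2 * (c + 3)) := by positivity
      have h9 : ε * D * (β + ε * D) / (C * (2 * (c + 3))) ≤ gap X Y := by
        apply le_gap h.ne h'.ne
        intro p hp q hq
        rw [div_le_iff₀ hc0]
        have := key p hp q hq
        linarith
      rw [div_le_iff₀ hc0] at h9
      have h10 : C * (2 * (c + 3)) ≤ QA C A M := by
        refine (CA_ge h7 ?_).trans q2
        have k1 : (10 + M + A) ≤ (10 + M + A) ^ 3 := by
          have : (10 + M + A) ^ 3 = (10 + M + A) * (10 + M + A) ^ 2 := by ring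
          have h11 : 1 ≤ (10 + M + A) ^ 2 := by nlinarith
          nlinarith
        rw [hc]
        nlinarith
      calc ε * D * (β + ε * D) ≤ gap X Y * (C * (2 * (c + 3))) := h9
        _ ≤ gap X Y * QA C A M := mul_le_mul_of_nonneg_left h10 g0
        _ ≤ _ := by nlinarith
    · have hm5 : m ≤ (5 + 4 * M) * r := by
        have k1 : (D : ℝ) ≤ (5 + 4 * M) * r := by
          by_cases h9 : 5 * r < D
          · have h10 : (D : ℝ) < 4 * M := by
              by_contra hcon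
              push Not at hcon
              exact h8 ⟨h9, hcon⟩
            nlinarith
          · have : (D : ℝ) ≤ 5 * r := by
              have : D ≤ 5 * r := by omega
              exact_mod_cast this
            nlinarith
        have k2 : (r : ℝ) ≤ (5 + 4 * M) * r := by nlinarith
        rw [hm, Nat.cast_max]
        exact max_le k2 k1
      have k1 : ε * m ≤ (5 + 4 * M) * (ε * r) := by nlinarith
      have k2 : ε * m * (β + ε * m) ≤ (5 + 4 * M) ^ 2 * (ε * r * (β + ε * r)) := by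
        have k3 : β + ε * m ≤ (5 + 4 * M) * (β + ε * r) := by nlinarith
        calc ε * m * (β + ε * m) ≤ ((5 + 4 * M) * (ε * r)) * ((5 + 4 * M) * (β + ε * r)) :=
              mul_le_mul k1 k3 (by positivity) (by positivity)
          _ = _ := by ring
      have k3 := t.l
      have k4 : (5 + 4 * M) ^ 2 * (CA C A M * diam X) ≤ QA C A M * (diam X + gap X Y) := by
        have h11 : CA C A M * diam X ≤ CA C A M * CA C A M * diam X := by
          apply mul_le_mul_of_nonneg_right _ d0.le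
          nlinarith
        have h12 := mul_le_mul_of_nonneg_left h11 (sq_nonneg (5 + 4 * M))
        have h13 : 0 ≤ QA C A M * gap X Y := by positivity
        unfold QA at h13 ⊢
        nlinarith
      exact k2.trans ((mul_le_mul_of_nonneg_left k3 (sq_nonneg _)).trans k4)
  · obtain ⟨p, hp, hpa⟩ := h.ap.inn a h.aS
    obtain ⟨q, hq, hqa⟩ := h'.ap.inn a' h'.aS
    have k1 := gap_le (X := X) (Y := Y) hp hq
    have k2 := h.dm.up p (h.ap.sub p hp) q (h'.ap.sub q hq)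
    have k3 := pos_le_sd e0 a a'
    rw [hab] at k3
    have hεm : ε ≤ ε * m := h.ερ.trans hρm
    have k4 : ‖f p - f q‖ ≤ 2 * (M + 1) * (ε * m) := by
      have e : f p - f q = (f p - pos ε a) + (pos ε a - pos ε a') + -(f q - pos ε a') := by ring
      rw [e]
      refine norm_add₃_le.trans ?_
      rw [norm_neg]
      have h8 := mul_le_mul_of_nonneg_left hDm e0.le
      have h9 : M * ε ≤ M * (ε * m) := mul_le_mul_of_nonneg_left hεm (by linarith)
      linarith
    have k5 : b (f p) ≤ β + c * (ε * m) := by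
      have h8 := h.b_near' hp
      have h9 := mul_le_mul_of_nonneg_left hρm (show 0 ≤ c by linarith)
      linarith
    have b0 := h.dm.b0 (h.ap.sub p hp)
    have n0 := norm_nonneg (f p - f q)
    have k6 : ‖f p - f q‖ * (b (f p) + ‖f p - f q‖) ≤
        2 * (M + 1) * (c + 2 * M + 2) * (ε * m * (β + ε * m)) := by
      calc ‖f p - f q‖ * (b (f p) + ‖f p - f q‖)
          ≤ (2 * (M + 1) * (ε * m)) * ((c + 2 * M + 2) * (β + ε * m)) := by
            apply mul_le_mul k4 (by nlinarith) (by linarith) (by positivity)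
        _ = _ := by ring
    have k7 : gap X Y ≤ C * (2 * (M + 1) * (c + 2 * M + 2)) * (ε * m * (β + ε * m)) := by
      have := k1.trans (k2.trans (mul_le_mul_of_nonneg_left k6 h6.le))
      linarith
    have k8 : C * (2 * (M + 1) * (c + 2 * M + 2)) ≤ CA C A M := by
      apply CA_ge h7
      have g1 : c + 2 * M + 2 ≤ 3 * (10 + M + A) := by rw [hc]; linarith
      have g2 : 2 * (M + 1) * (c + 2 * M + 2) ≤ 2 * (10 + M + A) * (3 * (10 + M + A)) :=
        mul_le_mul (by linarith) g1 (by linarith) (by linarith)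
      have g3 : (10 + M + A) ^ 2 ≤ (10 + M + A) ^ 3 := by
        have : (10 + M + A) ^ 3 = (10 + M + A) ^ 2 * (10 + M + A) := by ring
        nlinarith [sq_nonneg (10 + M + A)]
      nlinarith [sq_nonneg (10 + M + A)]
    have k9 : diam X ≤ CA C A M * (ε * m * (β + ε * m)) :=
      t.r.trans (mul_le_mul_of_nonneg_left hTT (by linarith))
    have k10 := mul_le_mul_of_nonneg_right k8 hT.le
    have k11 := mul_le_mul_of_nonneg_right q4 hT.le
    have k12 : 0 ≤ CA C A M * (ε * m * (β + ε * m)) := mul_nonneg (by linarith) hT.le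
    linarith

end Cfg

/-- sets which share a vertex -/
theorem Cfg.touch {S : Finset Vtx} {X : Set ℂ} {a : Vtx} {r : ℕ} {z : ℂ}
    (h : Cfg f b C ε A M S X a r z) {S' : Finset Vtx} {Y : Set ℂ} {r' : ℕ} {z' : ℂ}
    (h' : Cfg f b C ε A M S' Y a r' z') : gap X Y ≤ CA C A M * CA C A M * diam X := by
  have e0 := h.ε0
  have h3 := h.dm.b_pos h.z1
  have h5 := h.A1
  have h5' := h.M1
  have h6 := h.C0
  have h7 := h.dm.C1
  have t := h.tau
  obtain ⟨p, hp, hpa⟩ := h.ap.inn a h.aS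
  obtain ⟨q, hq, hqa⟩ := h'.ap.inn a h'.aS
  have k1 := gap_le (X := X) (Y := Y) hp hq
  have k2 := h.dm.up p (h.ap.sub p hp) q (h'.ap.sub q hq)
  have hεr := h.ερ
  set β := b (f z) with hβ
  set c := 4 + M + A with hc
  have hT := t.hx
  set ρ := ε * (r : ℝ) with hρ
  have ρ0 : 0 < ρ := h.ρ0
  have k4 : ‖f p - f q‖ ≤ 2 * M * ρ := by
    have e : f p - f q = (f p - pos ε a) + -(f q - pos ε a) := by ring
    rw [e]
    refine (norm_add_le _ _).trans ?_
    rw [norm_neg]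
    have h9 : M * ε ≤ M * ρ := mul_le_mul_of_nonneg_left hεr (by linarith)
    linarith
  have k5 : b (f p) ≤ β + c * ρ := h.b_near' hp
  have b0 := h.dm.b0 (h.ap.sub p hp)
  have n0 := norm_nonneg (f p - f q)
  have k6 : ‖f p - f q‖ * (b (f p) + ‖f p - f q‖) ≤ 2 * M * (c + 2 * M) * (ρ * (β + ρ)) := by
    calc ‖f p - f q‖ * (b (f p) + ‖f p - f q‖) ≤ (2 * M * ρ) * ((c + 2 * M) * (β + ρ)) := by
          apply mul_le_mul k4 (by nlinarith) (by linarith) (by positivity)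
      _ = _ := by ring
  have k8 : C * (2 * M * (c + 2 * M)) ≤ CA C A M := by
    apply CA_ge h7
    have g1 : c + 2 * M ≤ 3 * (10 + M + A) := by rw [hc]; linarith
    have g2 : 2 * M * (c + 2 * M) ≤ 2 * (10 + M + A) * (3 * (10 + M + A)) :=
      mul_le_mul (by linarith) g1 (by linarith) (by linarith)
    have g3 : (10 + M + A) ^ 2 ≤ (10 + M + A) ^ 3 := by
      have : (10 + M + A) ^ 3 = (10 + M + A) ^ 2 * (10 + M + A) := by ring
      nlinarith [sq_nonneg (10 + M + A)]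
    nlinarith [sq_nonneg (10 + M + A)]
  calc gap X Y ≤ C * (2 * M * (c + 2 * M) * (ρ * (β + ρ))) :=
        k1.trans (k2.trans (mul_le_mul_of_nonneg_left k6 h6.le))
    _ = C * (2 * M * (c + 2 * M)) * (ρ * (β + ρ)) := by ring
    _ ≤ CA C A M * (ρ * (β + ρ)) := mul_le_mul_of_nonneg_right k8 hT.le
    _ ≤ CA C A M * (CA C A M * diam X) := mul_le_mul_of_nonneg_left t.l (by linarith [t.hk])
    _ = _ := by ring

theorem Rr_near {X Y : Set ℂ} {Q : ℝ} (hQ : 0 ≤ Q) (hd : 0 < diam X) (h : gap X Y ≤ Q * diam X) :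
    Cmp ((1 + Q) ^ 2) (Rr X Y) 1 := by
  have g0 := gap_nonneg X Y
  have g1 := gap_nonneg X Sph
  have hQ1 : 1 ≤ 1 + Q := by linarith
  have c1 : Cmp (1 + Q) (diam X / (diam X + gap X Y)) 1 := by
    refine ⟨hQ1, by positivity, one_pos, ?_, ?_⟩
    · rw [mul_one]
      exact ((div_le_one (by linarith)).mpr (by linarith)).trans hQ1
    · rw [← mul_div_assoc, le_div_iff₀ (by linarith)]
      linarith
  have c2 : Cmp (1 + Q) ((diam X + gap X Sph) / (diam X + gap X Sph + gap X Y)) 1 := by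
    refine ⟨hQ1, by positivity, one_pos, ?_, ?_⟩
    · rw [mul_one]
      exact ((div_le_one (by linarith)).mpr (by linarith)).trans hQ1
    · rw [← mul_div_assoc, le_div_iff₀ (by linarith)]
      nlinarith
  have c3 := (c1.rpow (a := 5 / 48) (by norm_num) (by norm_num)).mul
    (c2.rpow (a := 11 / 48) (by norm_num) (by norm_num))
  rw [Real.one_rpow, Real.one_rpow, one_mul] at c3
  exact c3.weaken (le_of_eq (by ring))

/-- the constant of one factor -/
noncomputable def KF (C A M K : ℝ) : ℝ :=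
  (K * (64 * C ^ 4)) ^ 2 * (QA C A M ^ 2 * (3 * (QA C A M * QA C A M)) ^ 2)

/-- **one factor of the connection probability** -/
theorem factor (hd : DM f b C) (lp : LP f b ε T e A K N) {S : Finset Vtx} {X : Set ℂ}
    {a : Vtx} {r : ℕ} {z : ℂ} (h : Cfg f b C ε A M S X a r z) (hbd : ε ≤ A * bd f (f z))
    (haT : a ∈ T) {S' : Finset Vtx} {Y : Set ℂ} {a' : Vtx} {r' : ℕ} {z' : ℂ}
    (h' : Cfg f b C ε A M S' Y a' r' z') {D : ℕ}
    (hD : 1 ≤ D) (hab : sd a a' = D) (hmin : ∀ u ∈ S, ∀ v ∈ S', D ≤ sd u v)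
    (hN : ε * (max r D : ℕ) ≤ N) :
    Cmp (KF C A M K) (e a (max r D) / e a r) (Rr X Y) := by
  have e0 := h.ε0
  have h3 := h.dm.b_pos h.z1
  have hr1 := h.r1
  have hrN : ε * (r : ℝ) ≤ N := by
    refine le_trans (mul_le_mul_of_nonneg_left ?_ e0.le) hN
    exact_mod_cast le_max_left r D
  have p1 := lp.prof a haT z h.z1 h.zA hbd r hr1 hrN
  have p2 := lp.prof a haT z h.z1 h.zA hbd (max r D) (by omega) hN
  set β := b (f z) with hβ
  set m : ℕ := max r D with hm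
  have hm1 : 1 ≤ m := by omega
  have conv : ∀ n : ℕ, 1 ≤ n → Cmp (64 * C ^ 4) (E (bd f (f z) / ε) (β / ε) n)
      (ε ^ (5 / 48 : ℝ) * (‖deriv f z‖⁻¹ ^ (5 / 48 : ℝ) *
        EH (1 - ‖z‖) (ε * n * (β + ε * n)))) := by
    intro n hn
    have hn0 : (0 : ℝ) < n := by exact_mod_cast hn
    have hδ : 0 < ε * (n : ℝ) := by positivity
    have e1 : (n : ℝ) = (ε * n) / ε := by field_simp
    have e2 : E (bd f (f z) / ε) (β / ε) n = ε ^ (5 / 48 : ℝ) * E (bd f (f z)) β (ε * n) := by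
      conv_lhs => rw [e1]
      exact E_mesh e0 hδ
    rw [e2]
    have q1 : 0 < ε * (n : ℝ) * (β + ε * n) := by positivity
    have q2 := hd.one_pt h.z1 hδ ((Cmp.refl q1).weaken hd.C1)
    have q3 := (Cmp.refl (Real.rpow_pos_of_pos e0 (5 / 48 : ℝ))).mul q2
    exact q3.weaken (by rw [one_mul])
  have c1 := p1.trans (conv r hr1)
  have c2 := p2.trans (conv m hm1)
  have c3 := c2.div c1
  have d0 : 0 < ‖deriv f z‖⁻¹ ^ (5 / 48 : ℝ) :=
    Real.rpow_pos_of_pos (inv_pos.mpr (norm_pos_iff.mpr (hd.deriv_ne h.z1))) _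
  have s0 : 0 < 1 - ‖z‖ := by linarith [h.z1]
  have hr0 : (0 : ℝ) < r := by exact_mod_cast hr1
  have hm0 : (0 : ℝ) < m := by exact_mod_cast hm1
  have t0 : 0 < ε * (r : ℝ) * (β + ε * r) := by positivity
  have t1 : 0 < ε * (m : ℝ) * (β + ε * m) := by positivity
  have hE1 : 0 < EH (1 - ‖z‖) (ε * r * (β + ε * r)) := EH_pos t0 s0
  have e3 : ε ^ (5 / 48 : ℝ) * (‖deriv f z‖⁻¹ ^ (5 / 48 : ℝ) *
        EH (1 - ‖z‖) (ε * m * (β + ε * m))) / (ε ^ (5 / 48 : ℝ) * (‖deriv f z‖⁻¹ ^ (5 / 48 : ℝ) *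
        EH (1 - ‖z‖) (ε * r * (β + ε * r)))) =
      (ε * r * (β + ε * r) / (ε * m * (β + ε * m))) ^ (5 / 48 : ℝ) *
        (max (1 - ‖z‖) (ε * r * (β + ε * r)) / max (1 - ‖z‖) (ε * m * (β + ε * m))) ^
          (11 / 48 : ℝ) := by
    rw [← EH_ratio s0 t0 t1]
    have m0 : 0 < ε ^ (5 / 48 : ℝ) := Real.rpow_pos_of_pos e0 _
    rw [mul_div_mul_left _ _ m0.ne', mul_div_mul_left _ _ d0.ne']
  rw [e3] at c3
  -- comparison with the disc quantities
  obtain ⟨q1, q2, q3, -⟩ := QA_ge hd.C1 h.A1 h.M1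
  have u1 : Cmp (QA C A M) (ε * r * (β + ε * r)) (diam X) := h.tau.weaken q2
  have u2 : Cmp (QA C A M) (ε * m * (β + ε * m)) (diam X + gap X Y) := h.delta h' hD hab hmin
  have hdp := h.diam_pos
  have g0 := gap_nonneg X Y
  have g1 := gap_nonneg X Sph
  obtain ⟨w1, w2⟩ := h.sigma
  have w1' : 1 - ‖z‖ ≤ gap X Sph + QA C A M * diam X := by
    have := mul_le_mul_of_nonneg_right q1 hdp.le
    linarith
  have w2' : gap X Sph ≤ 1 - ‖z‖ + QA C A M * diam X := by
    have := mul_le_mul_of_nonneg_right q1 hdp.le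
    linarith
  have u3 := max_cmp q3 hdp s0 g1 le_rfl u1 w1' w2'
  have u4 := max_cmp q3 hdp s0 g1 (show diam X ≤ diam X + gap X Y by linarith) u2 w1' w2'
  have u5 := ((u1.div u2).rpow (a := 5 / 48) (by norm_num) (by norm_num)).mul
    ((u3.div u4).rpow (a := 11 / 48) (by norm_num) (by norm_num))
  have u6 := c3.trans u5
  refine (u6.congr rfl ?_).weaken ?_
  · unfold Rr
    congr 3
    ring
  · unfold KF
    apply le_of_eq
    ring

/-- **The connection probability of two connected sets.** -/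
theorem two_cont {L Kc : ℕ} {κ k : ℝ} (hd : DM f b C) (g : GD T e L Kc κ k)
    (lp : LP f b ε T e A K N) (hK : 1 ≤ K) (hM : 1 ≤ M)
    (hin : ∀ v ∈ T, ∃ z : ℂ, ‖z‖ < 1 ∧ ‖f z - pos ε v‖ ≤ A * ε ∧ ε ≤ A * bd f (f z))
    {S R : Finset Vtx} {X Y : Set ℂ} (hSX : Ap f ε M S X) (hRY : Ap f ε M R Y)
    (hST : ∀ u ∈ S, u ∈ T) (hRT : ∀ u ∈ R, u ∈ T) (hSc : Ct S) (hRc : Ct R) :
    Cmp (UK Kc k ^ 10 * (κ ^ 3)⁻¹ * (KF C A M K * KF C A M K * QA C A M)) (Pr P (ES T) (Jn S R))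
      (Rr X Y * Rr Y X) := by
  have e0 := lp.ε0
  have hA1 := lp.A0
  have κ0 := g.κ0
  have κ1 := g.κ1
  have U1 := g.U1
  have hU10 : 1 ≤ UK Kc k ^ 10 := one_le_pow₀ U1
  have hκ3 : κ ^ 3 ≤ 1 := pow_le_one₀ κ0.le κ1
  have hκi : 1 ≤ (κ ^ 3)⁻¹ := (one_le_inv₀ (pow_pos κ0 3)).mpr hκ3
  obtain ⟨q1, q2, q3, -⟩ := QA_ge hd.C1 hA1 hM
  have hC4 : 1 ≤ C ^ 4 := one_le_pow₀ hd.C1
  have hKF : 1 ≤ KF C A M K := by
    unfold KF
    have r1 : 1 ≤ K * (64 * C ^ 4) := Cmp.one_le_mul' hK (by linarith)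
    have r3 : 1 ≤ 3 * (QA C A M * QA C A M) := by
      have := Cmp.one_le_mul' q3 q3
      linarith
    exact Cmp.one_le_mul' (one_le_pow₀ r1) (Cmp.one_le_mul' (one_le_pow₀ q3) (one_le_pow₀ r3))
  have hKK : 1 ≤ KF C A M K * KF C A M K := Cmp.one_le_mul' hKF hKF
  have hUκ : 1 ≤ UK Kc k ^ 10 * (κ ^ 3)⁻¹ := Cmp.one_le_mul' hU10 hκi
  have hS : S.Nonempty := by
    obtain ⟨p, hp, -⟩ := hSX.wide
    obtain ⟨v, hv, -⟩ := hSX.out p hp
    exact ⟨v, hv⟩
  have hR : R.Nonempty := by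
    obtain ⟨p, hp, -⟩ := hRY.wide
    obtain ⟨v, hv, -⟩ := hRY.out p hp
    exact ⟨v, hv⟩
  -- a minimal pair
  obtain ⟨⟨a, a'⟩, haa, hmin0⟩ := Finset.exists_min_image (S ×ˢ R) (fun p => sd p.1 p.2)
    (hS.product hR)
  rw [Finset.mem_product] at haa
  obtain ⟨haS, haR⟩ := haa
  simp only at haS haR
  have hmin : ∀ u ∈ S, ∀ v ∈ R, sd a a' ≤ sd u v := fun u hu v hv =>
    hmin0 (u, v) (Finset.mem_product.mpr ⟨hu, hv⟩)
  have hN1 : ∀ u ∈ T, ∀ v ∈ T, ε * (sd u v : ℝ) ≤ N := by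
    intro u hu v hv
    obtain ⟨p, hp, hpu⟩ := (lp.mem u).mp hu
    obtain ⟨q, hq, hqv⟩ := (lp.mem v).mp hv
    have := sd_pos_le e0 u v
    rw [← hpu, ← hqv] at this
    exact this.trans (lp.diam p hp q hq)
  -- the configurations
  have mk : ∀ (S : Finset Vtx) (X : Set ℂ) (a : Vtx), Ap f ε M S X → a ∈ S →
      (∀ u ∈ S, u ∈ T) → ∃ (r : ℕ) (z : ℂ),
      Cfg f b C ε A M S X a r z ∧ Rd S a r ∧ ε ≤ A * bd f (f z) ∧ ε * (r : ℝ) ≤ N := by
    intro S X a hap ha hST
    obtain ⟨z, hz1, hzA, hzb⟩ := hin a (hST a ha)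
    obtain ⟨c, hc, hcmax⟩ := Finset.exists_max_image S (fun u => sd u a) ⟨a, ha⟩
    refine ⟨max 1 (sd c a), z, ⟨hd, e0, hA1, hM, hap, ha,
      le_max_left _ _, fun u hu => (hcmax u hu).trans (le_max_right _ _), ?_, hz1, hzA⟩,
      ⟨ha, le_max_left _ _, fun u hu => (hcmax u hu).trans (le_max_right _ _), ?_⟩, hzb, ?_⟩
    · rcases le_total (sd c a) 1 with h | h
      · exact Or.inl (max_eq_left h)
      · exact Or.inr ⟨c, hc, (max_eq_right h).symm⟩
    · rcases le_total (sd c a) 1 with h | h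
      · exact Or.inl (by omega)
      · exact Or.inr ⟨c, hc, by omega⟩
    · have := hN1 c (hST c hc) a (hST a ha)
      rcases le_total (sd c a) 1 with h | h
      · rw [max_eq_left h]
        obtain ⟨p, hp, q, hq, hw⟩ := hap.wide
        have := hw.trans (lp.diam p (hap.sub p hp) q (hap.sub q hq))
        push_cast
        linarith
      · rw [max_eq_right h]
        exact this
  obtain ⟨r, z, hc1, hr1, hb1, hn1⟩ := mk S X a hSX haS hST
  obtain ⟨r', z', hc2, hr2, hb2, hn2⟩ := mk R Y a' hRY haR hRT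
  rcases Nat.eq_zero_or_pos (sd a a') with h0 | hpos
  · -- the sets meet
    have haa : a = a' := by
      by_contra hne
      have := sd_pos hne
      omega
    subst haa
    have t1 := hc1.touch hc2
    have t2 := hc2.touch hc1
    have hQ0 : 0 ≤ CA C A M * CA C A M := mul_self_nonneg _
    have r1 := Rr_near hQ0 hc1.diam_pos t1
    have r2 := Rr_near hQ0 hc2.diam_pos t2
    have r3 := (r1.mul r2).symm
    rw [one_mul] at r3
    have eP : Pr P (ES T) (Jn S R) = 1 := by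
      apply TH976.pr_true
      intro F
      exact ⟨a, haS, a, haR, Reach.refl _ _⟩
    rw [eP]
    refine r3.weaken ?_
    have w1 : 1 + CA C A M * CA C A M ≤ QA C A M := by
      have h1 := CA_one hd.C1 hA1 hM
      have h2 : 1 ≤ CA C A M * CA C A M := Cmp.one_le_mul' h1 h1
      have h3 : 2 ≤ (5 + 4 * M) ^ 2 := by nlinarith
      unfold QA
      nlinarith
    have w2 : (1 + CA C A M * CA C A M) ^ 2 ≤ QA C A M ^ 2 :=
      pow_le_pow_left₀ (by linarith) w1 2
    have w3 : QA C A M ^ 2 ≤ KF C A M K := by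
      unfold KF
      have r1 : 1 ≤ (K * (64 * C ^ 4)) ^ 2 := one_le_pow₀ (Cmp.one_le_mul' hK (by linarith))
      have r2 : 1 ≤ (3 * (QA C A M * QA C A M)) ^ 2 := by
        apply one_le_pow₀
        have := Cmp.one_le_mul' q3 q3
        linarith
      have r3 : QA C A M ^ 2 ≤ QA C A M ^ 2 * (3 * (QA C A M * QA C A M)) ^ 2 :=
        le_mul_of_one_le_right (by positivity) r2
      exact r3.trans (le_mul_of_one_le_left (by positivity) r1)
    have w4 : (1 + CA C A M * CA C A M) ^ 2 * (1 + CA C A M * CA C A M) ^ 2 ≤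
        KF C A M K * KF C A M K :=
      mul_le_mul (w2.trans w3) (w2.trans w3) (by positivity) (by linarith)
    have w5 : KF C A M K * KF C A M K ≤ KF C A M K * KF C A M K * QA C A M :=
      le_mul_of_one_le_right (by positivity) q3
    exact (w4.trans w5).trans (le_mul_of_one_le_left (by positivity) hUκ)
  · have c1 := g.cont hST hRT hSc hRc hr1 hr2 hpos rfl hmin
    have hD := hN1 a (hST a haS) a' (hRT a' haR)
    have hm1 : ε * (max r (sd a a') : ℕ) ≤ N := by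
      rcases le_total r (sd a a') with h | h
      · rw [max_eq_right h]; exact hD
      · rw [max_eq_left h]; exact hn1
    have hm2 : ε * (max r' (sd a a') : ℕ) ≤ N := by
      rcases le_total r' (sd a a') with h | h
      · rw [max_eq_right h]; exact hD
      · rw [max_eq_left h]; exact hn2
    have f1 := factor hd lp hc1 hb1 (hST a haS) hc2 hpos rfl hmin hm1
    have f2 := factor hd lp hc2 hb2 (hRT a' haR) hc1 hpos (sd_comm a' a)
      (fun u hu v hv => by rw [sd_comm u v]; exact hmin v hv u hu) hm2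
    refine (c1.trans (f1.mul f2)).weaken ?_
    have : KF C A M K * KF C A M K ≤ KF C A M K * KF C A M K * QA C A M := by nlinarith
    exact mul_le_mul_of_nonneg_left this (by linarith)

end

end Pool.Agent.J6H18.GD
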